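import Pool.Agent.Work.LipGraph.Op.Interface
import Pool.Agent.Work.LipGraph.D1

/-!
# Block OA: the diagonal inequality for matrices, polynomial functions, signed diagonal
-/

open Matrix Filter Topology MeasureTheory
open scoped ComplexOrder

namespace Pool.LG

namespace OAAux

/-- singular perturbations, `0 ≤ s ≤ 1` -/
theorem core {C : ℝ} (hDI : ∀ (n : ℕ) (D : Dat n) (φ p : ℝ → ℝ) (L : ℝ),
    Continuous p → HasCompactSupport p → (∀ x, HasDerivAt φ (p x) x) → (∀ x, |p x| ≤ L) →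
    |∑ i, ∑ j, D.wt i j * (φ (D.x' j) - φ (D.x i))| ≤ C * L * D.rho)
    {n : ℕ} (x s x' μ : Fin n → ℝ) (U W : Mat n) (hs0 : ∀ i, 0 ≤ s i) (hs1 : ∀ i, s i ≤ 1)
    (hU : U * Uᴴ = 1) (hU' : Uᴴ * U = 1) (hW : W * Wᴴ = 1) (hW' : Wᴴ * W = 1)
    (hV : dg x + W * dg μ * Wᴴ = U * dg x' * Uᴴ) (φ p : ℝ → ℝ) (L : ℝ)
    (hp : Continuous p) (hc : HasCompactSupport p) (hd : ∀ x, HasDerivAt φ (p x) x)
    (hL : ∀ x, |p x| ≤ L) :
    |∑ i, ∑ j, s i * ‖U i j‖ ^ 2 * (φ (x' j) - φ (x i))| ≤ C * L * ∑ i, |μ i| := by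
  have hφ : Continuous φ := continuous_iff_continuousAt.2 fun x => (hd x).continuousAt
  -- the perturbed data
  have hne : ∀ᶠ t : ℝ in 𝓝[>] 0, ∀ i, μ i + t ≠ 0 := by
    rw [Filter.eventually_all]
    intro i
    by_cases h : μ i = 0
    · filter_upwards [self_mem_nhdsWithin] with t ht
      rw [h, zero_add]
      exact ne_of_gt ht
    · have h1 : ContinuousAt (fun t : ℝ => μ i + t) 0 := by fun_prop
      have h2 : ∀ᶠ t : ℝ in 𝓝 0, μ i + t ≠ 0 := by
        refine h1.eventually_ne ?_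
        simpa using h
      exact h2.filter_mono nhdsWithin_le_nhds
  have key : ∀ᶠ t : ℝ in 𝓝[>] 0,
      |∑ i, ∑ j, s i * ‖U i j‖ ^ 2 * (φ (x' j + t) - φ (x i))| ≤ C * L * ∑ i, |μ i + t| := by
    filter_upwards [hne] with t ht
    let D : Dat n :=
      { x := x
        s := s
        x' := fun j => x' j + t
        lam := fun i => μ i + t
        U := U
        W := W
        hs0 := hs0
        hs1 := hs1
        hU := hU
        hU' := hU'
        hW := hW
        hW' := hW'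
        hlam := ht
        hV := by
          have e1 : dg (fun i => μ i + t) = dg μ + (t : ℂ) • (1 : Mat n) := by
            rw [← dg_one, dg_smul, dg_add]
            congr 1
            funext i
            ring
          have e2 : dg (fun i => x' i + t) = dg x' + (t : ℂ) • (1 : Mat n) := by
            rw [← dg_one, dg_smul, dg_add]
            congr 1
            funext i
            ring
          rw [e1, e2, Matrix.mul_add, Matrix.add_mul, Matrix.mul_add, Matrix.add_mul,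
            Matrix.mul_smul, Matrix.mul_one, Matrix.smul_mul, hW, Matrix.mul_smul, Matrix.mul_one,
            Matrix.smul_mul, hU, ← add_assoc, hV] }
    exact hDI n D φ p L hp hc hd hL
  have l1 : Tendsto (fun t : ℝ => |∑ i, ∑ j, s i * ‖U i j‖ ^ 2 * (φ (x' j + t) - φ (x i))|)
      (𝓝[>] 0) (𝓝 |∑ i, ∑ j, s i * ‖U i j‖ ^ 2 * (φ (x' j) - φ (x i))|) := by
    have h1 : Continuous fun t : ℝ =>
        |∑ i, ∑ j, s i * ‖U i j‖ ^ 2 * (φ (x' j + t) - φ (x i))| := by
      refine Continuous.abs ?_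
      refine continuous_finsetSum _ fun i _ => continuous_finsetSum _ fun j _ => ?_
      exact continuous_const.mul ((hφ.comp (by fun_prop)).sub continuous_const)
    have h2 := (h1.tendsto 0).mono_left (nhdsWithin_le_nhds (s := Set.Ioi 0))
    simpa using h2
  have l2 : Tendsto (fun t : ℝ => C * L * ∑ i, |μ i + t|) (𝓝[>] 0)
      (𝓝 (C * L * ∑ i, |μ i|)) := by
    have h1 : Continuous fun t : ℝ => C * L * ∑ i, |μ i + t| := by fun_prop
    have h2 := (h1.tendsto 0).mono_left (nhdsWithin_le_nhds (s := Set.Ioi 0))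
    simpa using h2
  exact le_of_tendsto_of_tendsto l1 l2 key

/-- cutting off a polynomial -/
theorem cutoff (p : Polynomial ℝ) {R L : ℝ} (hR : 0 ≤ R)
    (h : ∀ t, |t| ≤ R → |p.derivative.eval t| ≤ L) :
    ∃ φ q : ℝ → ℝ, Continuous q ∧ HasCompactSupport q ∧ (∀ x, HasDerivAt φ (q x) x) ∧
      (∀ x, |q x| ≤ L) ∧ ∀ t, |t| ≤ R → φ t = p.eval t := by
  set cl : ℝ → ℝ := fun t => max (-R) (min R t) with hcl
  have hclc : Continuous cl := by rw [hcl]; fun_prop
  have hclR : ∀ t, |cl t| ≤ R := fun t => by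
    rw [abs_le]
    exact ⟨le_max_left _ _, max_le (by linarith) (min_le_left _ _)⟩
  have hcle : ∀ t, |t| ≤ R → cl t = t := fun t ht => by
    rw [abs_le] at ht
    rw [hcl]
    simp only
    rw [min_eq_right ht.2, max_eq_right ht.1]
  set q : ℝ → ℝ := fun t => p.derivative.eval (cl t) * max 0 (min 1 (R + 1 - |t|)) with hq
  have hqc : Continuous q := by
    rw [hq]
    exact (p.derivative.continuous.comp hclc).mul (by fun_prop)
  have hL0 : 0 ≤ L := (abs_nonneg _).trans (h 0 (by simpa using hR))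
  refine ⟨fun t => p.eval 0 + ∫ u in (0 : ℝ)..t, q u, q, hqc, ?_, ?_, ?_, ?_⟩
  · refine HasCompactSupport.of_support_subset_isCompact (isCompact_Icc (a := -(R + 1))
      (b := R + 1)) ?_
    intro t ht
    rw [Function.mem_support] at ht
    by_contra hn
    apply ht
    have : R + 1 < |t| := by
      by_contra h2
      rw [not_lt, abs_le] at h2
      exact hn ⟨h2.1, h2.2⟩
    rw [hq]
    simp only
    rw [max_eq_left, mul_zero]
    exact (min_le_right _ _).trans (by linarith)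
  · intro t
    have h1 : HasDerivAt (fun t => ∫ u in (0 : ℝ)..t, q u) (q t) t :=
      intervalIntegral.integral_hasDerivAt_right (hqc.intervalIntegrable _ _)
        (hqc.stronglyMeasurableAtFilter _ _) hqc.continuousAt
    exact h1.const_add _
  · intro t
    rw [hq]
    simp only
    rw [abs_mul]
    have h1 := h (cl t) (hclR t)
    have h2 : |max 0 (min 1 (R + 1 - |t|))| ≤ 1 := by
      rw [abs_of_nonneg (le_max_left _ _)]
      exact max_le zero_le_one (min_le_left _ _)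
    calc |p.derivative.eval (cl t)| * |max 0 (min 1 (R + 1 - |t|))| ≤ L * 1 :=
          mul_le_mul h1 h2 (abs_nonneg _) hL0
      _ = L := mul_one L
  · intro t ht
    have h1 : ∫ u in (0 : ℝ)..t, q u = ∫ u in (0 : ℝ)..t, p.derivative.eval u := by
      refine intervalIntegral.integral_congr fun u hu => ?_
      have hu' : |u| ≤ R := by
        rw [Set.mem_uIcc] at hu
        rw [abs_le] at ht ⊢
        rcases hu with hu | hu <;> constructor <;> linarith [hu.1, hu.2]
      rw [hq]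
      simp only
      rw [hcle u hu', min_eq_left (by linarith), max_eq_right zero_le_one, mul_one]
    have h2 : ∫ u in (0 : ℝ)..t, p.derivative.eval u = p.eval t - p.eval 0 :=
      intervalIntegral.integral_eq_sub_of_hasDerivAt (fun u _ => p.hasDerivAt u)
        (p.derivative.continuous.intervalIntegrable _ _)
    simp only
    rw [h1, h2]
    ring

theorem map_eval (p : Polynomial ℝ) (t : ℝ) :
    (p.map Complex.ofRealHom).eval (t : ℂ) = ((p.eval t : ℝ) : ℂ) := by
  have := Polynomial.eval_map_apply (p := p) (f := Complex.ofRealHom) t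
  exact this

variable {n : ℕ}

theorem ev_dg (x : Fin n → ℝ) (p : Polynomial ℝ) : ev (dg x) p = dg (fun i => p.eval (x i)) := by
  unfold ev
  have h : ∀ q : Polynomial ℂ, Polynomial.aeval (dg x) q =
      (diagonal (fun i => q.eval (x i : ℂ)) : Mat n) := by
    intro q
    induction q using Polynomial.induction_on' with
    | add q q' h h' =>
      rw [map_add, h, h', diagonal_add]
      congr 1
      funext i
      rw [Polynomial.eval_add]
    | monomial k a =>
      rw [Polynomial.aeval_monomial]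
      unfold dg
      rw [diagonal_pow, Algebra.algebraMap_eq_smul_one, smul_mul_assoc, one_mul, ← diagonal_smul]
      congr 1
      funext i
      simp [Polynomial.eval_monomial]
  rw [h]
  unfold dg
  congr 1
  funext i
  exact map_eval p (x i)

theorem ev_conj {U X : Mat n} (hU : U * Uᴴ = 1) (hU' : Uᴴ * U = 1) (p : Polynomial ℝ) :
    ev (U * X * Uᴴ) p = U * ev X p * Uᴴ := by
  unfold ev
  generalize p.map Complex.ofRealHom = q
  have hpow : ∀ k : ℕ, (U * X * Uᴴ) ^ k = U * X ^ k * Uᴴ := by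
    intro k
    induction k with
    | zero => rw [pow_zero, pow_zero, Matrix.mul_one, hU]
    | succ k ih =>
      rw [pow_succ, ih, pow_succ]
      have e : U * X ^ k * Uᴴ * (U * X * Uᴴ) = U * X ^ k * (Uᴴ * U) * X * Uᴴ := by noncomm_ring
      rw [e, hU', Matrix.mul_one, Matrix.mul_assoc U]
  induction q using Polynomial.induction_on' with
  | add q q' h h' => rw [map_add, h, h', map_add, Matrix.mul_add, Matrix.add_mul]
  | monomial k a =>
    rw [Polynomial.aeval_monomial, Polynomial.aeval_monomial, hpow,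
      Algebra.algebraMap_eq_smul_one, smul_mul_assoc, one_mul, smul_mul_assoc, one_mul,
      Matrix.mul_smul, Matrix.smul_mul]

/-- row sums of a unitary matrix -/
theorem row_one {U : Mat n} (hU : U * Uᴴ = 1) (i : Fin n) : ∑ j, (‖U i j‖ ^ 2 : ℝ) = 1 := by
  have h := congrFun (congrFun hU i) i
  rw [mul_apply, one_apply_eq] at h
  have h2 := congrArg Complex.re h
  rw [Complex.re_sum, Complex.one_re] at h2
  rw [← h2]
  refine Finset.sum_congr rfl fun j _ => ?_
  rw [conjTranspose_apply, Complex.star_def, Complex.mul_conj, Complex.ofReal_re,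
    Complex.normSq_eq_norm_sq]

theorem col_one {U : Mat n} (hU' : Uᴴ * U = 1) (j : Fin n) : ∑ i, (‖U i j‖ ^ 2 : ℝ) = 1 := by
  have h := congrFun (congrFun hU' j) j
  rw [mul_apply, one_apply_eq] at h
  have h2 := congrArg Complex.re h
  rw [Complex.re_sum, Complex.one_re] at h2
  rw [← h2]
  refine Finset.sum_congr rfl fun i _ => ?_
  rw [conjTranspose_apply, Complex.star_def, mul_comm, Complex.mul_conj, Complex.ofReal_re,
    Complex.normSq_eq_norm_sq]

theorem diag_conj (U : Mat n) (a : Fin n → ℝ) (i : Fin n) :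
    (U * dg a * Uᴴ) i i = ((∑ j, ‖U i j‖ ^ 2 * a j : ℝ) : ℂ) := by
  unfold dg
  rw [mul_apply]
  push_cast
  refine Finset.sum_congr rfl fun j _ => ?_
  rw [mul_diagonal, conjTranspose_apply, Complex.star_def]
  have : U i j * (starRingEnd ℂ) (U i j) = ((‖U i j‖ ^ 2 : ℝ) : ℂ) := by
    rw [Complex.mul_conj, Complex.normSq_eq_norm_sq]
  push_cast at this
  rw [← this]
  ring

theorem trace_eq {U : Mat n} (hU : U * Uᴴ = 1) (s a b : Fin n → ℝ) :
    trace (dg s * (U * dg a * Uᴴ - dg b)) =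
      ((∑ i, ∑ j, s i * ‖U i j‖ ^ 2 * (a j - b i) : ℝ) : ℂ) := by
  rw [trace]
  rw [Complex.ofReal_sum]
  refine Finset.sum_congr rfl fun i _ => ?_
  have e : dg s * (U * dg a * Uᴴ - dg b) = diagonal (fun i => (s i : ℂ)) *
      (U * dg a * Uᴴ - dg b) := rfl
  rw [diag_apply, e, diagonal_mul, Matrix.sub_apply, diag_conj, dg_apply_self,
    ← Complex.ofReal_sub, ← Complex.ofReal_mul]
  congr 1
  have h1 : ∑ j, s i * ‖U i j‖ ^ 2 * (a j - b i) =
      s i * (∑ j, ‖U i j‖ ^ 2 * a j) - s i * (∑ j, ‖U i j‖ ^ 2) * b i := by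
    rw [Finset.mul_sum, Finset.mul_sum, Finset.sum_mul, ← Finset.sum_sub_distrib]
    exact Finset.sum_congr rfl fun j _ => by ring
  rw [h1, row_one hU, mul_one]
  ring

/-- the perturbation -/
noncomputable def VV {d : ℕ} (ν : Fin d → ℝ) (l : Fin d → Fin n → ℂ) : Mat n :=
  ∑ j, (ν j : ℂ) • vecMulVec (l j) (star (l j))

theorem VV_herm {d : ℕ} (ν : Fin d → ℝ) (l : Fin d → Fin n → ℂ) : (VV ν l).IsHermitian := by
  unfold VV
  rw [IsHermitian, conjTranspose_sum]
  refine Finset.sum_congr rfl fun j _ => ?_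
  rw [conjTranspose_smul, conjTranspose_vecMulVec, star_star]
  congr 1
  simp

theorem quad_l (A : Mat n) (l : Fin n → ℂ) : trace (A * vecMulVec l (star l)) =
    star l ⬝ᵥ (A *ᵥ l) := by
  rw [mul_vecMulVec, trace_vecMulVec, dotProduct_comm]

/-- `|tr (A V)| ≤ K ∑ |ν| ‖l‖²` if `|⟨l, A l⟩| ≤ K ‖l‖²` -/
theorem tr_VV_le {d : ℕ} (ν : Fin d → ℝ) (l : Fin d → Fin n → ℂ) (A : Mat n) {K : ℝ}
    (hA : ∀ u : Fin n → ℂ, ‖star u ⬝ᵥ (A *ᵥ u)‖ ≤ K * ∑ i, ‖u i‖ ^ 2) :
    ‖trace (A * VV ν l)‖ ≤ K * ∑ j, |ν j| * ∑ i, ‖l j i‖ ^ 2 := by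
  unfold VV
  rw [Finset.mul_sum, trace_sum, Finset.mul_sum]
  refine (norm_sum_le _ _).trans (Finset.sum_le_sum fun j _ => ?_)
  rw [Matrix.mul_smul, trace_smul, quad_l, smul_eq_mul, norm_mul, Complex.norm_real,
    Real.norm_eq_abs, mul_left_comm]
  exact mul_le_mul_of_nonneg_left (hA (l j)) (abs_nonneg _)

/-- quadratic form of a contraction in spectral form -/
theorem quad_conj {W : Mat n} (hW : W * Wᴴ = 1) (a : Fin n → ℝ) (ha : ∀ i, |a i| ≤ 1)
    (u : Fin n → ℂ) : ‖star u ⬝ᵥ ((W * dg a * Wᴴ) *ᵥ u)‖ ≤ 1 * ∑ i, ‖u i‖ ^ 2 := by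
  set v : Fin n → ℂ := Wᴴ *ᵥ u with hv
  have e1 : star u ⬝ᵥ ((W * dg a * Wᴴ) *ᵥ u) = ∑ i, (a i : ℂ) * ((‖v i‖ ^ 2 : ℝ) : ℂ) := by
    have h1 : (W * dg a * Wᴴ) *ᵥ u = W *ᵥ (dg a *ᵥ v) := by
      rw [hv, mulVec_mulVec, mulVec_mulVec, Matrix.mul_assoc]
    have h2 : star u ᵥ* W = star v := by
      rw [hv, star_mulVec, conjTranspose_conjTranspose]
    rw [h1, dotProduct_mulVec, h2, dotProduct]
    refine Finset.sum_congr rfl fun i _ => ?_
    unfold dg
    rw [mulVec_diagonal, Pi.star_apply, Complex.star_def]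
    have : v i * (starRingEnd ℂ) (v i) = ((‖v i‖ ^ 2 : ℝ) : ℂ) := by
      rw [Complex.mul_conj, Complex.normSq_eq_norm_sq]
    rw [← this]
    ring
  have e2 : ∑ i, ‖v i‖ ^ 2 = ∑ i, ‖u i‖ ^ 2 := by
    have h1 : star v ⬝ᵥ v = star u ⬝ᵥ u := by
      rw [hv, star_mulVec, conjTranspose_conjTranspose, dotProduct_mulVec, vecMul_vecMul, hW,
        vecMul_one]
    have h2 : ∀ w : Fin n → ℂ, star w ⬝ᵥ w = ((∑ i, ‖w i‖ ^ 2 : ℝ) : ℂ) := by
      intro w
      rw [dotProduct, Complex.ofReal_sum]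
      refine Finset.sum_congr rfl fun i _ => ?_
      rw [Pi.star_apply, Complex.star_def, mul_comm, Complex.mul_conj, Complex.normSq_eq_norm_sq]
    rw [h2, h2] at h1
    exact_mod_cast h1
  rw [e1, one_mul, ← e2]
  refine (norm_sum_le _ _).trans (Finset.sum_le_sum fun i _ => ?_)
  rw [norm_mul, Complex.norm_real, Complex.norm_real, Real.norm_eq_abs, Real.norm_eq_abs,
    abs_of_nonneg (by positivity : (0 : ℝ) ≤ ‖v i‖ ^ 2)]
  have := ha i
  have h0 : (0 : ℝ) ≤ ‖v i‖ ^ 2 := by positivity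
  nlinarith

/-- trace norm of the perturbation -/
theorem sum_abs_le {d : ℕ} (ν : Fin d → ℝ) (l : Fin d → Fin n → ℂ) {W : Mat n} {μ : Fin n → ℝ}
    (hW : W * Wᴴ = 1) (hW' : Wᴴ * W = 1) (h : VV ν l = W * dg μ * Wᴴ) :
    ∑ i, |μ i| ≤ ∑ j, |ν j| * ∑ i, ‖l j i‖ ^ 2 := by
  set a : Fin n → ℝ := fun i => SignType.sign (μ i) with ha
  have ha1 : ∀ i, |a i| ≤ 1 := by
    intro i
    rw [ha]
    simp only
    rcases lt_trichotomy (μ i) 0 with h | h | h
    · simp [sign_neg h]
    · simp [h]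
    · simp [sign_pos h]
  have h1 := tr_VV_le ν l (W * dg a * Wᴴ) (K := 1) (quad_conj hW a ha1)
  have h2 : trace (W * dg a * Wᴴ * VV ν l) = ((∑ i, |μ i| : ℝ) : ℂ) := by
    rw [h]
    have e : W * dg a * Wᴴ * (W * dg μ * Wᴴ) = W * (dg a * (Wᴴ * W) * dg μ * Wᴴ) := by
      noncomm_ring
    rw [e, hW', Matrix.mul_one, trace_mul_comm, Matrix.mul_assoc, hW', Matrix.mul_one, dg_mul]
    unfold dg
    rw [trace_diagonal, Complex.ofReal_sum]
    refine Finset.sum_congr rfl fun i _ => ?_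
    congr 1
    rw [ha]
    simp only
    rw [mul_comm]
    exact self_mul_sign (μ i)
  rw [h2, one_mul, Complex.norm_real, Real.norm_eq_abs,
    abs_of_nonneg (Finset.sum_nonneg fun i _ => abs_nonneg _)] at h1
  exact h1

/-- eigenvalues of the perturbed matrix -/
theorem eig_le {d : ℕ} (x x' : Fin n → ℝ) (ν : Fin d → ℝ) (l : Fin d → Fin n → ℂ) {U : Mat n}
    (hU' : Uᴴ * U = 1) (h : dg x + VV ν l = U * dg x' * Uᴴ) {R : ℝ}
    (hR : ∀ i, |x i| + ∑ j, |ν j| * ∑ i, ‖l j i‖ ^ 2 ≤ R) (j : Fin n) : |x' j| ≤ R := by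
  set ρ : ℝ := ∑ j, |ν j| * ∑ i, ‖l j i‖ ^ 2 with hρ
  have h1 : Uᴴ * (dg x + VV ν l) * U = dg x' := by
    rw [h]
    have e : Uᴴ * (U * dg x' * Uᴴ) * U = (Uᴴ * U) * dg x' * (Uᴴ * U) := by noncomm_ring
    rw [e, hU', Matrix.one_mul, Matrix.mul_one]
  -- the rank one projection onto the column `j`
  set u : Fin n → ℂ := fun i => U i j with hu
  have hu1 : ∑ i, ‖u i‖ ^ 2 = 1 := col_one hU' j
  have h2 : (x' j : ℂ) = star u ⬝ᵥ ((dg x + VV ν l) *ᵥ u) := by
    have h3 := congrFun (congrFun h1 j) j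
    rw [dg_apply_self, Matrix.mul_assoc] at h3
    rw [← h3, mul_apply, dotProduct]
    refine Finset.sum_congr rfl fun i _ => ?_
    rw [conjTranspose_apply, mul_apply]
    rfl
  rw [add_mulVec, dotProduct_add] at h2
  have h4 : ‖star u ⬝ᵥ (dg x *ᵥ u)‖ ≤ R - ρ := by
    unfold dg
    rw [dotProduct]
    refine (norm_sum_le _ _).trans ?_
    calc ∑ i, ‖star u i * (diagonal (fun i => (x i : ℂ)) *ᵥ u) i‖
        ≤ ∑ i, (R - ρ) * ‖u i‖ ^ 2 := by
          refine Finset.sum_le_sum fun i _ => ?_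
          rw [mulVec_diagonal, norm_mul, norm_mul, Pi.star_apply, norm_star, Complex.norm_real,
            Real.norm_eq_abs]
          have := hR i
          have h5 : |x i| ≤ R - ρ := by linarith
          have h6 : 0 ≤ ‖u i‖ := norm_nonneg _
          calc ‖u i‖ * (|x i| * ‖u i‖) = |x i| * ‖u i‖ ^ 2 := by ring
            _ ≤ (R - ρ) * ‖u i‖ ^ 2 := by gcongr
      _ = R - ρ := by rw [← Finset.mul_sum, hu1, mul_one]
  have h5 : ‖star u ⬝ᵥ (VV ν l *ᵥ u)‖ ≤ ρ := by
    have e : star u ⬝ᵥ (VV ν l *ᵥ u) = trace (vecMulVec u (star u) * VV ν l) := by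
      rw [trace_mul_comm, quad_l]
    rw [e]
    have h6 := tr_VV_le ν l (vecMulVec u (star u)) (K := 1) (fun w => ?_)
    · rw [one_mul] at h6
      exact h6
    · -- Cauchy-Schwarz
      have e1 : star w ⬝ᵥ (vecMulVec u (star u) *ᵥ w) = (star w ⬝ᵥ u) * (star u ⬝ᵥ w) := by
        rw [vecMulVec_mulVec, dotProduct_smul]
        simp
      have e2 : star u ⬝ᵥ w = star (star w ⬝ᵥ u) := by
        rw [← star_dotProduct]
      rw [e1, e2, norm_mul, norm_star]
      have h7 : ‖star w ⬝ᵥ u‖ ≤ √(∑ i, ‖w i‖ ^ 2) * √(∑ i, ‖u i‖ ^ 2) := by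
        rw [dotProduct]
        refine (norm_sum_le _ _).trans ?_
        have := Real.sum_mul_le_sqrt_mul_sqrt (Finset.univ : Finset (Fin n))
          (fun i => ‖w i‖) (fun i => ‖u i‖)
        refine le_trans (le_of_eq ?_) this
        exact Finset.sum_congr rfl fun i _ => by rw [norm_mul, Pi.star_apply, norm_star]
      rw [hu1, Real.sqrt_one, mul_one] at h7
      have h8 : 0 ≤ ∑ i, ‖w i‖ ^ 2 := Finset.sum_nonneg fun i _ => by positivity
      calc ‖star w ⬝ᵥ u‖ * ‖star w ⬝ᵥ u‖ ≤ √(∑ i, ‖w i‖ ^ 2) * √(∑ i, ‖w i‖ ^ 2) :=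
            mul_le_mul h7 h7 (norm_nonneg _) (Real.sqrt_nonneg _)
        _ = 1 * ∑ i, ‖w i‖ ^ 2 := by rw [Real.mul_self_sqrt h8, one_mul]
  have h6 : ‖(x' j : ℂ)‖ ≤ R := by
    rw [h2]
    exact (norm_add_le _ _).trans (by linarith)
  rwa [Complex.norm_real, Real.norm_eq_abs] at h6

end OAAux

open OAAux in
theorem stmt_OA (hDI : Stmt_DI) : Stmt_OA := by
  obtain ⟨C, hC, hDI⟩ := hDI
  refine ⟨2 * C, by positivity, ?_⟩
  intro n d x s ν l p R L M hR hL hM hs hp
  set ρ : ℝ := ∑ j, |ν j| * ∑ i, ‖l j i‖ ^ 2 with hρ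
  have hρ0 : 0 ≤ ρ := Finset.sum_nonneg fun j _ => mul_nonneg (abs_nonneg _)
    (Finset.sum_nonneg fun i _ => by positivity)
  rcases Nat.eq_zero_or_pos n with hn | hn
  · subst hn
    have : trace (dg s * (ev (dg x + ∑ j, (ν j : ℂ) • vecMulVec (l j) (star (l j))) p -
        ev (dg x) p)) = 0 := by
      rw [trace]
      simp
    rw [this, norm_zero]
    positivity
  have hR0 : 0 ≤ R := by
    have h1 := hR ⟨0, hn⟩
    have h2 := abs_nonneg (x ⟨0, hn⟩)
    linarith
  obtain ⟨W, μ, hW, hW', hV⟩ := exists_diag (VV_herm ν l)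
  have hX : (dg x + VV ν l).IsHermitian := (dg_herm x).add (VV_herm ν l)
  obtain ⟨U, x', hU, hU', hXU⟩ := exists_diag hX
  obtain ⟨φ, q, hqc, hqs, hφ, hqL, hφp⟩ := cutoff p hR0 hp
  have hx' := eig_le x x' ν l hU' hXU hR
  have hx : ∀ i, |x i| ≤ R := fun i => by have := hR i; linarith
  have hμ := sum_abs_le ν l hW hW' hV
  -- nonnegative diagonals
  have hpos : ∀ s' : Fin n → ℝ, (∀ i, 0 ≤ s' i) → (∀ i, s' i ≤ M) →
      |∑ i, ∑ j, s' i * ‖U i j‖ ^ 2 * (p.eval (x' j) - p.eval (x i))| ≤ C * L * M * ρ := by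
    intro s' h0 h1
    rcases eq_or_lt_of_le hM with hM0 | hM0
    · have : ∀ i, s' i = 0 := fun i => le_antisymm (by rw [hM0]; exact h1 i) (h0 i)
      simp only [this, zero_mul, Finset.sum_const_zero, abs_zero]
      positivity
    · have h2 := core hDI x (fun i => s' i / M) x' μ U W
        (fun i => div_nonneg (h0 i) hM) (fun i => (div_le_one hM0).2 (h1 i)) hU hU' hW hW'
        (by rw [← hV, hXU]) φ q L hqc hqs hφ hqL
      have e : ∑ i, ∑ j, s' i * ‖U i j‖ ^ 2 * (p.eval (x' j) - p.eval (x i)) =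
          M * ∑ i, ∑ j, s' i / M * ‖U i j‖ ^ 2 * (φ (x' j) - φ (x i)) := by
        rw [Finset.mul_sum]
        refine Finset.sum_congr rfl fun i _ => ?_
        rw [Finset.mul_sum]
        refine Finset.sum_congr rfl fun j _ => ?_
        rw [hφp _ (hx' j), hφp _ (hx i)]
        field_simp
      rw [e, abs_mul, abs_of_pos hM0]
      calc M * |∑ i, ∑ j, s' i / M * ‖U i j‖ ^ 2 * (φ (x' j) - φ (x i))|
          ≤ M * (C * L * ∑ i, |μ i|) := by gcongr
        _ ≤ M * (C * L * ρ) := by gcongr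
        _ = C * L * M * ρ := by ring
  have e1 : ev (dg x + ∑ j, (ν j : ℂ) • vecMulVec (l j) (star (l j))) p =
      U * dg (fun j => p.eval (x' j)) * Uᴴ := by
    have : dg x + ∑ j, (ν j : ℂ) • vecMulVec (l j) (star (l j)) = dg x + VV ν l := rfl
    rw [this, hXU, ev_conj hU hU', ev_dg]
  rw [e1, ev_dg, trace_eq hU, Complex.norm_real, Real.norm_eq_abs]
  have e2 : ∑ i, ∑ j, s i * ‖U i j‖ ^ 2 * (p.eval (x' j) - p.eval (x i)) =
      (∑ i, ∑ j, max (s i) 0 * ‖U i j‖ ^ 2 * (p.eval (x' j) - p.eval (x i))) -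
      ∑ i, ∑ j, max (-s i) 0 * ‖U i j‖ ^ 2 * (p.eval (x' j) - p.eval (x i)) := by
    rw [← Finset.sum_sub_distrib]
    refine Finset.sum_congr rfl fun i _ => ?_
    rw [← Finset.sum_sub_distrib]
    refine Finset.sum_congr rfl fun j _ => ?_
    have : s i = max (s i) 0 - max (-s i) 0 := by
      rcases le_total 0 (s i) with h | h
      · rw [max_eq_left h, max_eq_right (by linarith), sub_zero]
      · rw [max_eq_right h, max_eq_left (by linarith)]
        ring
    conv_lhs => rw [this]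
    ring
  rw [e2]
  refine (abs_sub _ _).trans ?_
  have b1 := hpos (fun i => max (s i) 0) (fun i => le_max_right _ _)
    (fun i => max_le ((le_abs_self _).trans (hs i)) hM)
  have b2 := hpos (fun i => max (-s i) 0) (fun i => le_max_right _ _)
    (fun i => max_le ((neg_le_abs _).trans (hs i)) hM)
  calc _ ≤ C * L * M * ρ + C * L * M * ρ := add_le_add b1 b2
    _ = 2 * C * L * M * ρ := by ring

end Pool.LG
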