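import Pool.Agent.Work.LipGraph.Op.Interface

/-!
# Block OE1: trigonometric approximation of Lipschitz functions
-/

open MeasureTheory AddCircle

namespace Pool.LG

namespace OE1_

/-- Fourier coefficients of a periodic Lipschitz function are absolutely summable -/
lemma bern (T : ℝ) (hT : 0 < T) (h : ℝ → ℝ) (L : NNReal) (hL : LipschitzWith L h)
    (hp : Function.Periodic h T) :
    ∃ a : ℤ → ℂ, Summable (fun n => ‖a n‖) ∧
      ∀ t : ℝ, HasSum (fun n : ℤ => a n * Complex.exp (Complex.I * (2 * Real.pi * n / T : ℝ) * t))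
        (h t : ℂ) := by
  have : Fact (0 < T) := ⟨hT⟩
  have hG : Continuous (fun t : ℝ => (h t : ℂ)) :=
    Complex.continuous_ofReal.comp hL.continuous
  have hGp : Function.Periodic (fun t : ℝ => (h t : ℂ)) T := by
    intro t
    simp only [hp t]
  set F : C(AddCircle T, ℂ) := ⟨hGp.lift, hG.quotient_liftOn' _⟩ with hF
  have hFt : ∀ t : ℝ, F (t : AddCircle T) = (h t : ℂ) := fun t => rfl
  set a : ℤ → ℂ := fun n => fourierCoeff F n with ha
  -- translates
  let Fs : ℝ → C(AddCircle T, ℂ) := fun s =>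
    ⟨fun x => F (x + (s : AddCircle T)) - F x, by fun_prop⟩
  have hFs : ∀ (s : ℝ) (x : AddCircle T), ‖Fs s x‖ ≤ L * |s| := by
    intro s x
    induction x using QuotientAddGroup.induction_on with
    | H t =>
      have h1 : Fs s (t : AddCircle T) = (h (t + s) : ℂ) - (h t : ℂ) := by
        change F ((t : AddCircle T) + (s : AddCircle T)) - F (t : AddCircle T) = _
        rw [← AddCircle.coe_add, hFt, hFt]
      rw [h1, ← Complex.ofReal_sub, Complex.norm_real]
      have h2 := hL.dist_le_mul (t + s) t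
      rw [dist_eq_norm, dist_eq_norm, add_sub_cancel_left, Real.norm_eq_abs s] at h2
      exact h2
  have hadd : ∀ (n : ℤ) (x y : AddCircle T), fourier n (x + y) = fourier n x * fourier n y := by
    intro n x y
    rw [fourier_apply, fourier_apply, fourier_apply, smul_add, AddCircle.toCircle_add]
    simp
  have hcoef : ∀ (s : ℝ) (n : ℤ), fourierCoeff (Fs s) n =
      (fourier n (s : AddCircle T) - 1) * a n := by
    intro s n
    have i1 : Integrable (fun x : AddCircle T => fourier (-n) x • F (x + (s : AddCircle T)))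
        haarAddCircle := by
      refine (Continuous.integrable_of_hasCompactSupport (by fun_prop) ?_)
      exact HasCompactSupport.of_compactSpace _
    have i2 : Integrable (fun x : AddCircle T => fourier (-n) x • F x) haarAddCircle := by
      refine (Continuous.integrable_of_hasCompactSupport (by fun_prop) ?_)
      exact HasCompactSupport.of_compactSpace _
    have h1 : fourierCoeff (Fs s) n = (∫ x : AddCircle T, fourier (-n) x •
        F (x + (s : AddCircle T)) ∂haarAddCircle) - a n := by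
      rw [ha]
      unfold fourierCoeff
      rw [← integral_sub i1 i2]
      refine integral_congr_ae (Filter.Eventually.of_forall fun x => ?_)
      change fourier (-n) x • (F (x + (s : AddCircle T)) - F x) = _
      simp only [smul_eq_mul]
      ring
    have h2 : (∫ x : AddCircle T, fourier (-n) x • F (x + (s : AddCircle T)) ∂haarAddCircle) =
        fourier n (s : AddCircle T) * a n := by
      have h3 : ∀ x : AddCircle T, fourier (-n) x • F (x + (s : AddCircle T)) =
          (fun u : AddCircle T => fourier n (s : AddCircle T) • (fourier (-n) u • F u))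
            (x + (s : AddCircle T)) := by
        intro x
        simp only [smul_eq_mul]
        rw [hadd, ← mul_assoc, mul_comm (fourier n (s : AddCircle T)), mul_assoc (fourier (-n) x)]
        have : fourier (-n) (s : AddCircle T) * fourier n (s : AddCircle T) = 1 := by
          rw [← fourier_add]
          simp
        rw [this, mul_one]
      simp_rw [h3]
      rw [integral_add_right_eq_self (μ := haarAddCircle)
        (fun u : AddCircle T => fourier n (s : AddCircle T) • (fourier (-n) u • F u)),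
        integral_smul]
      rfl
    rw [h1, h2]
    ring
  have hbes : ∀ (s : ℝ) (A : Finset ℤ),
      ∑ n ∈ A, ‖(fourier n (s : AddCircle T) - 1) * a n‖ ^ 2 ≤ (L * |s|) ^ 2 := by
    intro s A
    have h1 := hasSum_sq_fourierCoeff (ContinuousMap.toLp (E := ℂ) 2 haarAddCircle ℂ (Fs s))
    simp_rw [fourierCoeff_toLp, hcoef] at h1
    have h2 : ∫ t, ‖ContinuousMap.toLp (E := ℂ) 2 haarAddCircle ℂ (Fs s) t‖ ^ 2
        ∂(haarAddCircle (T := T)) ≤ (L * |s|) ^ 2 := by
      have h3 : ∫ t, ‖ContinuousMap.toLp (E := ℂ) 2 haarAddCircle ℂ (Fs s) t‖ ^ 2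
          ∂(haarAddCircle (T := T)) = ∫ t, ‖Fs s t‖ ^ 2 ∂(haarAddCircle (T := T)) := by
        refine integral_congr_ae ?_
        filter_upwards [ContinuousMap.coeFn_toLp (E := ℂ) (p := 2) haarAddCircle (𝕜 := ℂ) (Fs s)]
          with t ht
        rw [ht]
      rw [h3]
      calc ∫ t, ‖Fs s t‖ ^ 2 ∂(haarAddCircle (T := T)) ≤
            ∫ _, (L * |s|) ^ 2 ∂(haarAddCircle (T := T)) := by
            refine integral_mono ?_ (integrable_const _) fun t => ?_
            · refine (Continuous.integrable_of_hasCompactSupport (by fun_prop) ?_)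
              exact HasCompactSupport.of_compactSpace _
            · exact pow_le_pow_left₀ (norm_nonneg _) (hFs s t) 2
        _ = (L * |s|) ^ 2 := by simp
    exact (sum_le_hasSum A (fun i _ => by positivity) h1).trans h2
  have hfe : ∀ (n : ℤ) (t : ℝ), fourier n (t : AddCircle T) =
      Complex.exp (Complex.I * (2 * Real.pi * n / T : ℝ) * t) := by
    intro n t
    rw [fourier_coe_apply]
    congr 1
    push_cast
    ring
  -- weighted Bessel inequality
  have hw : ∀ A : Finset ℤ, ∑ n ∈ A, (n : ℝ) ^ 2 * ‖a n‖ ^ 2 ≤ (L * T) ^ 2 / 16 := by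
    intro A
    obtain ⟨M, hM⟩ : ∃ M : ℕ, ∀ n ∈ A, |(n : ℝ)| ≤ M := by
      refine ⟨A.sup Int.natAbs, fun n hn => ?_⟩
      have h1 : n.natAbs ≤ A.sup Int.natAbs := Finset.le_sup hn
      have h2 : |(n : ℝ)| = ((n.natAbs : ℕ) : ℝ) := by
        rw [Nat.cast_natAbs, Int.cast_abs]
      rw [h2]
      exact_mod_cast h1
    set s : ℝ := T / (2 * (M + 1)) with hs
    have hs0 : 0 < s := by positivity
    have h1 := hbes s A
    have h2 : ∀ n ∈ A, (4 * s / T) ^ 2 * ((n : ℝ) ^ 2 * ‖a n‖ ^ 2) ≤
        ‖(fourier n (s : AddCircle T) - 1) * a n‖ ^ 2 := by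
      intro n hn
      rw [norm_mul, mul_pow, ← mul_assoc]
      refine mul_le_mul_of_nonneg_right ?_ (by positivity)
      have h3 : ‖fourier n (s : AddCircle T) - 1‖ = ‖2 * Real.sin ((2 * Real.pi * n / T * s) / 2)‖ := by
        rw [hfe, ← Complex.norm_exp_I_mul_ofReal_sub_one]
        push_cast
        ring_nf
      have h4 : |(2 * Real.pi * n / T * s) / 2| ≤ Real.pi / 2 := by
        have h5 : (2 * Real.pi * n / T * s) / 2 = Real.pi * n / (2 * (M + 1)) := by
          rw [hs]
          field_simp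
        rw [h5, abs_div, abs_mul, abs_of_pos Real.pi_pos, abs_of_pos (by positivity : (0 : ℝ) <
          2 * (M + 1)), div_le_div_iff₀ (by positivity) (by norm_num)]
        have := hM n hn
        nlinarith [Real.pi_pos]
      have h6 : 2 / Real.pi * |(2 * Real.pi * n / T * s) / 2| ≤
          |Real.sin ((2 * Real.pi * n / T * s) / 2)| := Real.mul_abs_le_abs_sin h4
      have h7 : 4 * s / T * |(n : ℝ)| ≤ ‖fourier n (s : AddCircle T) - 1‖ := by
        rw [h3, norm_mul, Real.norm_eq_abs, Real.norm_eq_abs, abs_of_pos (by norm_num : (0 : ℝ) < 2)]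
        have h8 : 4 * s / T * |(n : ℝ)| = 2 * (2 / Real.pi * |(2 * Real.pi * n / T * s) / 2|) := by
          rw [abs_div, abs_mul, abs_div, abs_mul, abs_mul, abs_of_pos Real.pi_pos, abs_of_pos hs0,
            abs_of_pos hT, abs_of_pos (by norm_num : (0 : ℝ) < 2)]
          field_simp
          ring
        rw [h8]
        linarith
      calc (4 * s / T) ^ 2 * (n : ℝ) ^ 2 = (4 * s / T * |(n : ℝ)|) ^ 2 := by
            rw [mul_pow, sq_abs]
        _ ≤ _ := pow_le_pow_left₀ (by positivity) h7 2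
    have h9 : (4 * s / T) ^ 2 * ∑ n ∈ A, (n : ℝ) ^ 2 * ‖a n‖ ^ 2 ≤ (L * |s|) ^ 2 := by
      rw [Finset.mul_sum]
      exact (Finset.sum_le_sum h2).trans h1
    rw [abs_of_pos hs0] at h9
    have h10 : (4 * s / T) ^ 2 * ((L * T) ^ 2 / 16) = (L * s) ^ 2 := by
      field_simp
      ring
    rw [← h10] at h9
    exact le_of_mul_le_mul_left h9 (by positivity)
  have hsw : Summable (fun n : ℤ => (n : ℝ) ^ 2 * ‖a n‖ ^ 2) :=
    summable_of_sum_le (fun n => by positivity) hw
  have hsum : Summable (fun n => ‖a n‖) := by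
    have s1 : Summable (fun n : ℤ => 1 / (n : ℝ) ^ 2) := Real.summable_one_div_int_pow.2 (by norm_num)
    have s2 : Summable (fun n : ℤ => if n = 0 then ‖a 0‖ else 0) :=
      (hasSum_ite_eq 0 ‖a 0‖).summable
    refine Summable.of_nonneg_of_le (fun n => norm_nonneg _) (fun n => ?_) ((hsw.add s1).add s2)
    by_cases hn : n = 0
    · subst hn
      simp
    · simp only [hn, if_false, add_zero]
      have hn2 : (0 : ℝ) < (n : ℝ) ^ 2 := by
        have : (n : ℝ) ≠ 0 := by exact_mod_cast hn
        positivity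
      have : 1 / (n : ℝ) ^ 2 = (1 / (|(n : ℝ)|)) ^ 2 := by
        rw [div_pow, sq_abs, one_pow]
      rw [this]
      have h3 : |(n : ℝ)| * (1 / |(n : ℝ)|) = 1 := by
        have : |(n : ℝ)| ≠ 0 := by
          rw [abs_ne_zero]
          exact_mod_cast hn
        field_simp
      have h4 := sq_nonneg (|(n : ℝ)| * ‖a n‖ - 1 / |(n : ℝ)|)
      rw [← sq_abs (n : ℝ)]
      nlinarith [norm_nonneg (a n), sq_nonneg (|(n : ℝ)| * ‖a n‖), sq_nonneg (1 / |(n : ℝ)|)]
  refine ⟨a, hsum, fun t => ?_⟩
  have := has_pointwise_sum_fourier_series_of_summable (f := F) (Summable.of_norm hsum)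
    (t : AddCircle T)
  rw [hFt] at this
  convert this using 1
  funext n
  rw [smul_eq_mul, hfe]

/-- reflection: a periodic 1-Lipschitz function equal to the identity on `[-R, R]` -/
lemma reflect (R : ℝ) (hR : 0 < R) : ∃ g : ℝ → ℝ, LipschitzWith 1 g ∧
    Function.Periodic g (4 * R) ∧ ∀ t : ℝ, |t| ≤ R → g t = t := by
  refine ⟨fun t => ‖((t + R : ℝ) : AddCircle (4 * R))‖ - R, ?_, ?_, ?_⟩
  · refine LipschitzWith.of_dist_le_mul fun x y => ?_
    rw [dist_eq_norm, dist_eq_norm, Real.norm_eq_abs, NNReal.coe_one, one_mul]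
    have h1 : ‖((x + R : ℝ) : AddCircle (4 * R))‖ - R - (‖((y + R : ℝ) : AddCircle (4 * R))‖ - R) =
        ‖((x + R : ℝ) : AddCircle (4 * R))‖ - ‖((y + R : ℝ) : AddCircle (4 * R))‖ := by ring
    rw [h1]
    refine (abs_norm_sub_norm_le _ _).trans ?_
    rw [← AddCircle.coe_sub]
    have h2 : x + R - (y + R) = x - y := by ring
    rw [h2]
    exact QuotientAddGroup.norm_mk_le_norm
  · intro t
    have h1 : ((t + 4 * R + R : ℝ) : AddCircle (4 * R)) = ((t + R : ℝ) : AddCircle (4 * R)) := by
      have h2 : t + 4 * R + R = (t + R) + 4 * R := by ring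
      rw [h2, AddCircle.coe_add_period]
    simp only [h1]
  · intro t ht
    obtain ⟨h1, h2⟩ := abs_le.1 ht
    have h3 : ‖((t + R : ℝ) : AddCircle (4 * R))‖ = |t + R| := by
      rw [AddCircle.norm_coe_eq_abs_iff _ (by positivity), abs_of_nonneg (by linarith),
        abs_of_pos (by positivity)]
      linarith
    simp only [h3]
    rw [abs_of_nonneg (by linarith)]
    ring

/-- smoothing of an absolutely convergent trigonometric series of a Lipschitz function -/
lemma smooth (h : ℝ → ℝ) (L : NNReal) (hL : LipschitzWith L h) (a : ℤ → ℂ) (ξ : ℤ → ℝ)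
    (ha : Summable (fun n => ‖a n‖))
    (hs : ∀ t : ℝ, HasSum (fun n : ℤ => a n * Complex.exp (Complex.I * ξ n * t)) (h t : ℂ))
    (η : ℝ) (hη : 0 < η) :
    ∃ (A : Finset ℤ) (c : ℤ → ℂ) (ε : ℝ), 0 ≤ ε ∧ ε ≤ η ∧
      ε * ∑ n ∈ A, ‖c n‖ * |ξ n| ≤ η ∧
      (∀ t : ℝ, |(∑ n ∈ A, c n * (Complex.I * ξ n) * Complex.exp (Complex.I * ξ n * t)).re| ≤
        L + η) ∧
      (∀ t : ℝ, |(∑ n ∈ A, c n * Complex.exp (Complex.I * ξ n * t)).re - h t| ≤ ε) := by
  set e : ℤ → ℝ → ℂ := fun n t => Complex.exp (Complex.I * ξ n * t) with he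
  have hen : ∀ n t, ‖e n t‖ = 1 := by
    intro n t
    have : Complex.I * ξ n * t = Complex.I * ((ξ n * t : ℝ) : ℂ) := by
      push_cast
      ring
    rw [he]
    simp only
    rw [this, Complex.norm_exp_I_mul_ofReal]
  have hec : ∀ n, Continuous (e n) := by
    intro n
    rw [he]
    fun_prop
  have head : ∀ n s t, e n (s + t) = e n s * e n t := by
    intro n s t
    rw [he]
    simp only
    rw [← Complex.exp_add]
    congr 1
    push_cast
    ring
  -- the key limit
  have hlim : Filter.Tendsto (fun δ : ℝ => ∑' n, ‖a n‖ * ‖e n δ - e n (-δ)‖) (nhds 0) (nhds 0) := by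
    have h1 : Filter.Tendsto (fun δ : ℝ => ∑' n, ‖a n‖ * ‖e n δ - e n (-δ)‖) (nhds 0)
        (nhds (∑' n, ‖a n‖ * ‖e n 0 - e n (-0)‖)) := by
      refine tendsto_tsum_of_dominated_convergence (bound := fun n => ‖a n‖ * 2)
        (ha.mul_right 2) (fun n => ?_) (Filter.Eventually.of_forall fun δ n => ?_)
      · have : Continuous (fun δ : ℝ => ‖a n‖ * ‖e n δ - e n (-δ)‖) := by
          have := hec n
          fun_prop
        exact this.tendsto 0
      · rw [norm_mul, norm_norm, norm_norm]
        refine mul_le_mul_of_nonneg_left ?_ (norm_nonneg _)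
        refine (norm_sub_le _ _).trans ?_
        rw [hen, hen]
        norm_num
    simpa using h1
  -- choice of δ
  obtain ⟨δ, hδ0, hδ1, hδ2⟩ : ∃ δ : ℝ, 0 < δ ∧ (L + 1) * δ ≤ η ∧
      (L + 1) / 2 * (∑' n, ‖a n‖ * ‖e n δ - e n (-δ)‖) ≤ η := by
    have h1 : ∀ᶠ δ : ℝ in nhds 0, ∑' n, ‖a n‖ * ‖e n δ - e n (-δ)‖ < 2 * η / (L + 1) :=
      hlim.eventually (gt_mem_nhds (by positivity))
    obtain ⟨r, hr, hr'⟩ := Metric.eventually_nhds_iff.1 h1
    refine ⟨min (r / 2) (η / (L + 1)), by positivity, ?_, ?_⟩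
    · calc (L + 1) * min (r / 2) (η / (L + 1)) ≤ (L + 1) * (η / (L + 1)) :=
            mul_le_mul_of_nonneg_left (min_le_right _ _) (by positivity)
        _ = η := by field_simp
    · have h2 := hr' (y := min (r / 2) (η / (L + 1))) (by
        rw [Real.dist_eq, sub_zero, abs_of_pos (by positivity)]
        exact (min_le_left _ _).trans_lt (by linarith))
      calc (L + 1) / 2 * (∑' n, ‖a n‖ * ‖e n (min (r / 2) (η / (L + 1))) -
            e n (-(min (r / 2) (η / (L + 1))))‖) ≤ (L + 1) / 2 * (2 * η / (L + 1)) :=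
            mul_le_mul_of_nonneg_left h2.le (by positivity)
        _ = η := by field_simp
  set τ : ℝ := δ * min 1 η with hτ
  have hτ0 : 0 < τ := by positivity
  -- choice of the finite set
  obtain ⟨A, hA⟩ : ∃ A : Finset ℤ, ∀ t : ℝ, ‖∑ n ∈ A, a n * e n t - (h t : ℂ)‖ ≤ τ := by
    have h1 := tendstoUniformly_tsum (f := fun (n : ℤ) (t : ℝ) => a n * e n t) (u := fun n => ‖a n‖)
      ha (fun n t => by rw [norm_mul, hen, mul_one])
    have h2 := (Metric.tendstoUniformly_iff.1 h1 τ hτ0)
    obtain ⟨A, hA⟩ := h2.exists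
    refine ⟨A, fun t => ?_⟩
    have h3 := hA t
    rw [(hs t).tsum_eq, dist_comm, dist_eq_norm] at h3
    exact h3.le
  set c : ℤ → ℂ := fun n => a n * ((1 / (2 * δ) : ℝ) * ∫ s in (-δ)..δ, e n s) with hc
  have hder : ∀ n s, HasDerivAt (e n) ((Complex.I * ξ n) * e n s) s := by
    intro n s
    have h1 : HasDerivAt (fun t : ℝ => Complex.I * ξ n * (t : ℂ)) (Complex.I * ξ n * 1) s :=
      (Complex.ofRealCLM.hasDerivAt (x := s)).const_mul _
    have h2 := h1.cexp
    rw [mul_one] at h2
    have h3 : (Complex.I * ξ n) * e n s =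
        Complex.exp (Complex.I * ξ n * (s : ℂ)) * (Complex.I * ξ n) := mul_comm _ _
    rw [h3]
    exact h2
  have hci : ∀ n, c n * (Complex.I * ξ n) = a n * ((1 / (2 * δ) : ℝ) * (e n δ - e n (-δ))) := by
    intro n
    have h1 : ∫ s in (-δ)..δ, (Complex.I * ξ n) * e n s = e n δ - e n (-δ) :=
      intervalIntegral.integral_eq_sub_of_hasDerivAt (fun s _ => hder n s)
        ((continuous_const.mul (hec n)).intervalIntegrable _ _)
    rw [intervalIntegral.integral_const_mul] at h1
    rw [hc]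
    simp only
    rw [← h1]
    ring
  refine ⟨A, c, L * δ + τ, by positivity, ?_, ?_, ?_, ?_⟩
  · have : τ ≤ δ := by
      rw [hτ]
      calc δ * min 1 η ≤ δ * 1 := mul_le_mul_of_nonneg_left (min_le_left _ _) hδ0.le
        _ = δ := mul_one δ
    nlinarith
  · have h1 : ∑ n ∈ A, ‖c n‖ * |ξ n| ≤ 1 / (2 * δ) * (∑' n, ‖a n‖ * ‖e n δ - e n (-δ)‖) := by
      have h2 : ∀ n, ‖c n‖ * |ξ n| = 1 / (2 * δ) * (‖a n‖ * ‖e n δ - e n (-δ)‖) := by
        intro n
        have h3 : ‖c n‖ * |ξ n| = ‖c n * (Complex.I * ξ n)‖ := by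
          rw [norm_mul (c n), norm_mul Complex.I, Complex.norm_I, one_mul, Complex.norm_real,
            Real.norm_eq_abs]
        rw [h3, hci, norm_mul, norm_mul, Complex.norm_real, Real.norm_eq_abs,
          abs_of_pos (by positivity)]
        ring
      simp_rw [h2]
      rw [← Finset.mul_sum]
      refine mul_le_mul_of_nonneg_left ?_ (by positivity)
      refine Summable.sum_le_tsum A (fun n _ => by positivity) ?_
      refine Summable.of_nonneg_of_le (fun n => by positivity) (fun n => ?_) (ha.mul_right 2)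
      refine mul_le_mul_of_nonneg_left ?_ (norm_nonneg _)
      refine (norm_sub_le _ _).trans ?_
      rw [hen, hen]
      norm_num
    have h4 : τ ≤ δ := by
      rw [hτ]
      calc δ * min 1 η ≤ δ * 1 := mul_le_mul_of_nonneg_left (min_le_left _ _) hδ0.le
        _ = δ := mul_one δ
    calc (L * δ + τ) * ∑ n ∈ A, ‖c n‖ * |ξ n| ≤
          ((L + 1) * δ) * (1 / (2 * δ) * (∑' n, ‖a n‖ * ‖e n δ - e n (-δ)‖)) := by
          refine mul_le_mul (by linarith) h1 ?_ (by positivity)
          exact Finset.sum_nonneg fun n _ => by positivity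
      _ = (L + 1) / 2 * (∑' n, ‖a n‖ * ‖e n δ - e n (-δ)‖) := by
          field_simp
      _ ≤ η := hδ2
  · intro t
    have h1 : ∑ n ∈ A, c n * (Complex.I * ξ n) * Complex.exp (Complex.I * ξ n * t) =
        (1 / (2 * δ) : ℝ) * ((∑ n ∈ A, a n * e n (δ + t)) - ∑ n ∈ A, a n * e n (-δ + t)) := by
      rw [← Finset.sum_sub_distrib, Finset.mul_sum]
      refine Finset.sum_congr rfl fun n _ => ?_
      rw [hci, head, head]
      ring
    rw [h1]
    refine (Complex.abs_re_le_norm _).trans ?_
    rw [norm_mul, Complex.norm_real, Real.norm_eq_abs, abs_of_pos (by positivity)]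
    have h2 : ‖(∑ n ∈ A, a n * e n (δ + t)) - ∑ n ∈ A, a n * e n (-δ + t)‖ ≤
        τ + L * (2 * δ) + τ := by
      have h3 : (∑ n ∈ A, a n * e n (δ + t)) - ∑ n ∈ A, a n * e n (-δ + t) =
          ((∑ n ∈ A, a n * e n (δ + t)) - (h (δ + t) : ℂ)) + ((h (δ + t) : ℂ) - (h (-δ + t) : ℂ)) -
          ((∑ n ∈ A, a n * e n (-δ + t)) - (h (-δ + t) : ℂ)) := by ring
      rw [h3]
      have h4 : ‖(h (δ + t) : ℂ) - (h (-δ + t) : ℂ)‖ ≤ L * (2 * δ) := by
        rw [← Complex.ofReal_sub, Complex.norm_real]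
        have h5 := hL.dist_le_mul (δ + t) (-δ + t)
        rw [dist_eq_norm, dist_eq_norm, Real.norm_eq_abs (δ + t - (-δ + t))] at h5
        have h6 : δ + t - (-δ + t) = 2 * δ := by ring
        rw [h6, abs_of_pos (by positivity)] at h5
        exact h5
      refine (norm_sub_le _ _).trans (add_le_add ((norm_add_le _ _).trans
        (add_le_add (hA _) h4)) (hA _))
    have h7 : τ ≤ δ * η := mul_le_mul_of_nonneg_left (min_le_right _ _) hδ0.le
    calc 1 / (2 * δ) * ‖(∑ n ∈ A, a n * e n (δ + t)) - ∑ n ∈ A, a n * e n (-δ + t)‖ ≤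
          1 / (2 * δ) * (δ * η + L * (2 * δ) + δ * η) :=
          mul_le_mul_of_nonneg_left (h2.trans (by linarith)) (by positivity)
      _ = L + η := by
          field_simp
          ring
  · intro t
    have h1 : ∑ n ∈ A, c n * Complex.exp (Complex.I * ξ n * t) =
        (1 / (2 * δ) : ℝ) * ∫ s in (-δ)..δ, ∑ n ∈ A, a n * e n (s + t) := by
      rw [intervalIntegral.integral_finsetSum, Finset.mul_sum]
      · refine Finset.sum_congr rfl fun n _ => ?_
        have h2 : ∀ s : ℝ, a n * e n (s + t) = a n * e n t * e n s := by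
          intro s
          rw [head]
          ring
        simp_rw [h2]
        rw [intervalIntegral.integral_const_mul, hc]
        simp only
        ring
      · intro n _
        have := hec n
        exact Continuous.intervalIntegrable (by fun_prop) _ _
    have hh : Continuous h := hL.continuous
    have h3 : ((1 / (2 * δ) : ℝ) : ℂ) * ∫ s in (-δ)..δ, (h t : ℂ) = (h t : ℂ) := by
      rw [intervalIntegral.integral_const]
      rw [Complex.real_smul]
      push_cast
      have : (δ : ℂ) ≠ 0 := by exact_mod_cast hδ0.ne'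
      field_simp
      ring
    have h4 : (∑ n ∈ A, c n * Complex.exp (Complex.I * ξ n * t)) - (h t : ℂ) =
        (1 / (2 * δ) : ℝ) * ∫ s in (-δ)..δ, ((∑ n ∈ A, a n * e n (s + t)) - (h t : ℂ)) := by
      rw [intervalIntegral.integral_sub, mul_sub, h3, h1]
      · exact Continuous.intervalIntegrable (continuous_finsetSum _ fun n _ => by
          have := hec n
          fun_prop) _ _
      · exact continuous_const.intervalIntegrable _ _
    have h5 : |(∑ n ∈ A, c n * Complex.exp (Complex.I * ξ n * t)).re - h t| ≤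
        ‖(∑ n ∈ A, c n * Complex.exp (Complex.I * ξ n * t)) - (h t : ℂ)‖ := by
      have := Complex.abs_re_le_norm ((∑ n ∈ A, c n * Complex.exp (Complex.I * ξ n * t)) -
        (h t : ℂ))
      rwa [Complex.sub_re, Complex.ofReal_re] at this
    refine h5.trans ?_
    rw [h4, norm_mul, Complex.norm_real, Real.norm_eq_abs, abs_of_pos (by positivity)]
    have h6 : ‖∫ s in (-δ)..δ, ((∑ n ∈ A, a n * e n (s + t)) - (h t : ℂ))‖ ≤
        (L * δ + τ) * |δ - (-δ)| := by
      refine intervalIntegral.norm_integral_le_of_norm_le_const fun s hs' => ?_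
      have h7 : |s| ≤ δ := by
        rw [Set.uIoc_of_le (by linarith)] at hs'
        exact abs_le.2 ⟨hs'.1.le, hs'.2⟩
      have h8 : (∑ n ∈ A, a n * e n (s + t)) - (h t : ℂ) =
          ((∑ n ∈ A, a n * e n (s + t)) - (h (s + t) : ℂ)) + ((h (s + t) : ℂ) - (h t : ℂ)) := by
        ring
      rw [h8, add_comm (L * δ)]
      refine (norm_add_le _ _).trans (add_le_add (hA _) ?_)
      rw [← Complex.ofReal_sub, Complex.norm_real]
      have h9 := hL.dist_le_mul (s + t) t
      rw [dist_eq_norm, dist_eq_norm, add_sub_cancel_right, Real.norm_eq_abs s] at h9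
      exact h9.trans (mul_le_mul_of_nonneg_left h7 (by positivity))
    have h10 : |δ - (-δ)| = 2 * δ := by
      rw [sub_neg_eq_add, abs_of_pos (by positivity)]
      ring
    rw [h10] at h6
    calc 1 / (2 * δ) * ‖∫ s in (-δ)..δ, ((∑ n ∈ A, a n * e n (s + t)) - (h t : ℂ))‖ ≤
          1 / (2 * δ) * ((L * δ + τ) * (2 * δ)) :=
          mul_le_mul_of_nonneg_left h6 (by positivity)
      _ = L * δ + τ := by
          field_simp

end OE1_

theorem stmt_OE1 : Stmt_OE1 := by
  intro φ L hφ R η hR hη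
  obtain ⟨g, hg1, hg2, hg3⟩ := OE1_.reflect R hR
  have hL : LipschitzWith L (φ ∘ g) := by
    have := hφ.comp hg1
    rwa [mul_one] at this
  have hp : Function.Periodic (φ ∘ g) (4 * R) := by
    intro t
    simp only [Function.comp, hg2 t]
  obtain ⟨a, ha, hs⟩ := OE1_.bern (4 * R) (by positivity) (φ ∘ g) L hL hp
  obtain ⟨A, c, ε, h1, h2, h3, h4, h5⟩ := OE1_.smooth (φ ∘ g) L hL a
    (fun n => (2 * Real.pi * n / (4 * R) : ℝ)) ha hs η hη
  have key : ∀ {M : Type} [AddCommMonoid M] (f : ℤ → M),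
      ∑ j : Fin A.card, f (A.equivFin.symm j : ℤ) = ∑ n ∈ A, f n := by
    intro M _ f
    rw [Equiv.sum_comp A.equivFin.symm (fun x : A => f (x : ℤ)), Finset.sum_coe_sort]
  refine ⟨A.card, fun j => c (A.equivFin.symm j : ℤ),
    fun j => (2 * Real.pi * ((A.equivFin.symm j : ℤ) : ℝ) / (4 * R) : ℝ), ε, h1, h2, ?_, ?_, ?_⟩
  · rw [key (fun n : ℤ => ‖c n‖ * |2 * Real.pi * (n : ℝ) / (4 * R)|)]
    exact h3
  · intro t _
    rw [key (fun n : ℤ => c n * (Complex.I * ((2 * Real.pi * (n : ℝ) / (4 * R) : ℝ) : ℂ)) *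
      Complex.exp (Complex.I * ((2 * Real.pi * (n : ℝ) / (4 * R) : ℝ) : ℂ) * t))]
    exact h4 t
  · intro t ht
    rw [key (fun n : ℤ => c n *
      Complex.exp (Complex.I * ((2 * Real.pi * (n : ℝ) / (4 * R) : ℝ) : ℂ) * t))]
    have := h5 t
    simp only [Function.comp, hg3 t ht] at this
    exact this

end Pool.LG
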