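import Pool.Agent.Work.LipGraph.Op.Interface

/-!
# Block OE2: from trigonometric polynomials to polynomials

`p(t) = Re ∑ c j (1 + i ξ j t / M) ^ M` with `M` large.
-/

open Matrix Filter Topology
open scoped ComplexOrder InnerProductSpace

namespace Pool.LG

open Pool.PN Pool.FR Pool.FR.FAux

universe v

namespace OE2Aux

theorem pow_sub_pow_le {a b : ℂ} {K : ℝ} (ha : ‖a‖ ≤ K) (hb : ‖b‖ ≤ K) (hK : 1 ≤ K) (m : ℕ) :
    ‖a ^ m - b ^ m‖ ≤ m * K ^ m * ‖a - b‖ := by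
  have hK0 : 0 ≤ K := by linarith
  induction m with
  | zero => simp
  | succ m ih =>
    have e : a ^ (m + 1) - b ^ (m + 1) = a ^ m * (a - b) + (a ^ m - b ^ m) * b := by ring
    rw [e]
    have h1 : ‖a ^ m * (a - b)‖ ≤ K ^ m * ‖a - b‖ := by
      rw [norm_mul, norm_pow]
      gcongr
    have h2 : ‖(a ^ m - b ^ m) * b‖ ≤ (m * K ^ m * ‖a - b‖) * K := by
      rw [norm_mul]
      exact mul_le_mul ih hb (norm_nonneg _) (by positivity)
    have h4 : K ^ m ≤ K ^ (m + 1) := pow_le_pow_right₀ hK (Nat.le_succ m)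
    calc ‖a ^ m * (a - b) + (a ^ m - b ^ m) * b‖ ≤ K ^ m * ‖a - b‖ + (m * K ^ m * ‖a - b‖) * K :=
          (norm_add_le _ _).trans (add_le_add h1 h2)
      _ ≤ K ^ (m + 1) * ‖a - b‖ + (m * K ^ m * ‖a - b‖) * K := by gcongr
      _ = _ := by push_cast; ring

theorem exp_approx {Z : ℝ} (hZ : 0 ≤ Z) {M : ℕ} (hM : 1 ≤ M) (hMZ : Z ≤ M) {z : ℂ}
    (hz : ‖z‖ ≤ Z) {m : ℕ} (hm : m = M ∨ m + 1 = M) :
    ‖(1 + z / M) ^ m - Complex.exp z‖ ≤ Real.exp Z * (Z ^ 2 + 2 * Z) / M := by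
  have hMp : (0 : ℝ) < M := by exact_mod_cast hM
  have hMc : (M : ℂ) ≠ 0 := by exact_mod_cast hMp.ne'
  have hw : ‖z / M‖ ≤ Z / M := by
    rw [norm_div, Complex.norm_natCast]
    gcongr
  have hZM : Z / M ≤ 1 := by rw [div_le_one hMp]; exact hMZ
  have hw1 : ‖z / M‖ ≤ 1 := hw.trans hZM
  have hK : 1 ≤ Real.exp (Z / M) := Real.one_le_exp (by positivity)
  have ha : ‖1 + z / M‖ ≤ Real.exp (Z / M) := by
    refine (norm_add_le _ _).trans ?_
    rw [norm_one]
    have := Real.add_one_le_exp (Z / M)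
    linarith
  have hb : ‖Complex.exp (z / M)‖ ≤ Real.exp (Z / M) := by
    rw [Complex.norm_exp]
    exact Real.exp_le_exp.2 ((Complex.re_le_norm _).trans hw)
  have hmM : (m : ℝ) ≤ M := by
    have : m ≤ M := by omega
    exact_mod_cast this
  have hKm : Real.exp (Z / M) ^ m ≤ Real.exp Z := by
    rw [← Real.exp_nat_mul]
    refine Real.exp_le_exp.2 ?_
    calc (m : ℝ) * (Z / M) ≤ M * (Z / M) := by gcongr
      _ = Z := by field_simp
  have hab : ‖(1 + z / M) - Complex.exp (z / M)‖ ≤ (Z / M) ^ 2 := by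
    rw [norm_sub_rev, ← sub_sub]
    refine (Complex.norm_exp_sub_one_sub_id_le hw1).trans ?_
    gcongr
  have h1 : ‖(1 + z / M) ^ m - Complex.exp (z / M) ^ m‖ ≤ Real.exp Z * Z ^ 2 / M := by
    refine (pow_sub_pow_le ha hb hK m).trans ?_
    calc (m : ℝ) * Real.exp (Z / M) ^ m * ‖(1 + z / M) - Complex.exp (z / M)‖
        ≤ M * Real.exp Z * (Z / M) ^ 2 := by gcongr
      _ = _ := by field_simp
  have h2 : ‖Complex.exp (z / M) ^ m - Complex.exp z‖ ≤ Real.exp Z * (2 * Z) / M := by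
    rcases hm with rfl | hm
    · rw [← Complex.exp_nat_mul]
      have : (m : ℂ) * (z / m) = z := by field_simp
      rw [this, sub_self, norm_zero]
      positivity
    · have e : Complex.exp (z / M) ^ m = Complex.exp z * Complex.exp (-(z / M)) := by
        rw [← Complex.exp_nat_mul, ← Complex.exp_add]
        congr 1
        have : (M : ℂ) = m + 1 := by rw [← hm]; push_cast; ring
        have h3 : (m : ℂ) = M - 1 := by rw [this]; ring
        rw [h3]
        field_simp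
        ring
      have e2 : Complex.exp z * Complex.exp (-(z / M)) - Complex.exp z =
          Complex.exp z * (Complex.exp (-(z / M)) - 1) := by ring
      rw [e, e2, norm_mul]
      have h4 : ‖Complex.exp (-(z / M)) - 1‖ ≤ 2 * (Z / M) := by
        refine (Complex.norm_exp_sub_one_le (by rw [norm_neg]; exact hw1)).trans ?_
        rw [norm_neg]
        gcongr
      have h5 : ‖Complex.exp z‖ ≤ Real.exp Z := by
        rw [Complex.norm_exp]
        exact Real.exp_le_exp.2 ((Complex.re_le_norm _).trans hz)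
      calc ‖Complex.exp z‖ * ‖Complex.exp (-(z / M)) - 1‖ ≤ Real.exp Z * (2 * (Z / M)) := by
            gcongr
        _ = _ := by ring
  calc ‖(1 + z / M) ^ m - Complex.exp z‖
      ≤ ‖(1 + z / M) ^ m - Complex.exp (z / M) ^ m‖ + ‖Complex.exp (z / M) ^ m - Complex.exp z‖ :=
        norm_sub_le_norm_sub_add_norm_sub _ _ _
    _ ≤ Real.exp Z * Z ^ 2 / M + Real.exp Z * (2 * Z) / M := add_le_add h1 h2
    _ = _ := by ring

/-- the real part of a complex polynomial -/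
theorem exists_re (q : Polynomial ℂ) : ∃ p : Polynomial ℝ, p.map Complex.ofRealHom =
    Polynomial.C (1 / 2) * (q + q.map (starRingEnd ℂ)) := by
  induction q using Polynomial.induction_on' with
  | add q q' h h' =>
    obtain ⟨p, hp⟩ := h
    obtain ⟨p', hp'⟩ := h'
    refine ⟨p + p', ?_⟩
    rw [Polynomial.map_add, hp, hp', Polynomial.map_add]
    ring
  | monomial n a =>
    refine ⟨Polynomial.monomial n a.re, ?_⟩
    rw [Polynomial.map_monomial, Polynomial.map_monomial, ← map_add, Polynomial.C_mul_monomial]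
    congr 1
    rw [Complex.add_conj]
    simp

theorem eval_re {p : Polynomial ℝ} {q : Polynomial ℂ} (h : p.map Complex.ofRealHom =
    Polynomial.C (1 / 2) * (q + q.map (starRingEnd ℂ))) (t : ℝ) :
    p.eval t = (q.eval (t : ℂ)).re := by
  have h1 : (p.map Complex.ofRealHom).eval (t : ℂ) = ((p.eval t : ℝ) : ℂ) := by
    have := Polynomial.eval_map_apply (p := p) (f := Complex.ofRealHom) t
    exact this
  have h2 : (q.map (starRingEnd ℂ)).eval (t : ℂ) = (starRingEnd ℂ) (q.eval (t : ℂ)) := by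
    have h3 := Polynomial.eval_map_apply (p := q) (f := starRingEnd ℂ) (t : ℂ)
    rw [Complex.conj_ofReal] at h3
    exact h3
  rw [h, Polynomial.eval_mul, Polynomial.eval_C, Polynomial.eval_add, h2, Complex.add_conj] at h1
  have h4 := congrArg Complex.re h1
  simp at h4
  linarith

variable {H : Type v} [NormedAddCommGroup H] [InnerProductSpace ℂ H] [CompleteSpace H]

theorem nuc_sum {κ : Type} (s : Finset κ) {T : κ → H →L[ℂ] H} {m : κ → ℝ}
    (h : ∀ j ∈ s, ∃ τ, Nuc (T j) (m j) τ) : ∃ τ, Nuc (∑ j ∈ s, T j) (∑ j ∈ s, m j) τ := by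
  classical
  induction s using Finset.induction_on with
  | empty => exact ⟨0, by simpa using Nuc.zero⟩
  | insert a s ha ih =>
    obtain ⟨τ, hτ⟩ := h a (Finset.mem_insert_self a s)
    obtain ⟨τ', hτ'⟩ := ih fun j hj => h j (Finset.mem_insert_of_mem hj)
    refine ⟨τ + τ', ?_⟩
    rw [Finset.sum_insert ha, Finset.sum_insert ha]
    exact hτ.add hτ'

theorem norm_one_add {X : H →L[ℂ] H} (hX : IsSelfAdjoint X) {R : ℝ} (hR : ‖X‖ ≤ R) (θ : ℝ) :
    ‖1 + (Complex.I * θ : ℂ) • X‖ ≤ Real.exp (θ ^ 2 * R ^ 2 / 2) := by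
  set A : H →L[ℂ] H := 1 + (Complex.I * θ : ℂ) • X with hA
  have hR0 : 0 ≤ R := (norm_nonneg _).trans hR
  have h1 : star A * A = 1 + ((θ ^ 2 : ℝ) : ℂ) • (X * X) := by
    rw [hA, star_add, star_one, star_smul, hX.star_eq]
    simp only [add_mul, mul_add, one_mul, mul_one, smul_mul_smul_comm, Complex.star_def, map_mul,
      Complex.conj_I, Complex.conj_ofReal]
    have e : -Complex.I * (θ : ℂ) * (Complex.I * θ) = ((θ ^ 2 : ℝ) : ℂ) := by
      push_cast
      ring_nf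
      rw [Complex.I_sq]
      ring
    rw [e]
    have e2 : (-Complex.I * (θ : ℂ)) • X = -((Complex.I * (θ : ℂ)) • X) := by
      rw [neg_mul, neg_smul]
    rw [e2]
    abel
  have h2 : ‖A‖ ^ 2 ≤ Real.exp (θ ^ 2 * R ^ 2) := by
    rw [sq, ← CStarRing.norm_star_mul_self, h1]
    refine (norm_add_le _ _).trans ?_
    have h3 : ‖((θ ^ 2 : ℝ) : ℂ) • (X * X)‖ ≤ θ ^ 2 * R ^ 2 := by
      rw [norm_smul, Complex.norm_real, Real.norm_of_nonneg (sq_nonneg θ)]
      refine mul_le_mul_of_nonneg_left ?_ (sq_nonneg θ)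
      refine (norm_mul_le _ _).trans ?_
      rw [sq]
      exact mul_le_mul hR hR (norm_nonneg _) hR0
    have h4 := Real.add_one_le_exp (θ ^ 2 * R ^ 2)
    have h5 : ‖(1 : H →L[ℂ] H)‖ ≤ 1 := one_norm
    linarith
  have h3 : Real.exp (θ ^ 2 * R ^ 2) = Real.exp (θ ^ 2 * R ^ 2 / 2) ^ 2 := by
    rw [← Real.exp_nat_mul]
    congr 1
    push_cast
    ring
  rw [h3] at h2
  exact (sq_le_sq₀ (norm_nonneg _) (Real.exp_pos _).le).1 h2

/-- one trigonometric term -/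
theorem nuc_term {X X' : H →L[ℂ] H} (hX : IsSelfAdjoint X) (hX' : IsSelfAdjoint X') {R : ℝ}
    (hR : ‖X‖ ≤ R) (hR' : ‖X'‖ ≤ R) {ρ : ℝ} {τ : (H →L[ℂ] H) →ₗ[ℂ] ℂ} (h : Nuc (X' - X) ρ τ)
    (ξ : ℝ) {M : ℕ} (hM : 1 ≤ M) :
    ∃ τ', Nuc ((1 + (Complex.I * (ξ / M : ℝ) : ℂ) • X') ^ M -
      (1 + (Complex.I * (ξ / M : ℝ) : ℂ) • X) ^ M) (|ξ| * Real.exp (ξ ^ 2 * R ^ 2 / 2 / M) * ρ)
      τ' := by
  have hMp : (0 : ℝ) < M := by exact_mod_cast hM
  set θ : ℝ := ξ / M with hθ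
  have h1 : Nuc ((1 + (Complex.I * θ : ℂ) • X') - (1 + (Complex.I * θ : ℂ) • X))
      (‖(Complex.I * θ : ℂ)‖ * ρ) ((Complex.I * θ : ℂ) • τ) := by
    have e : (1 + (Complex.I * θ : ℂ) • X') - (1 + (Complex.I * θ : ℂ) • X) =
        (Complex.I * θ : ℂ) • (X' - X) := by
      rw [smul_sub]; abel
    rw [e]
    exact h.smul _
  have hK : 1 ≤ Real.exp (θ ^ 2 * R ^ 2 / 2) := Real.one_le_exp (by positivity)
  obtain ⟨τk, hk, _⟩ := pow_nuc h1 (norm_one_add hX hR θ) (norm_one_add hX' hR' θ) hK M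
  refine ⟨τk, hk.mono (le_of_eq ?_)⟩
  have e1 : Real.exp (θ ^ 2 * R ^ 2 / 2) ^ M = Real.exp (ξ ^ 2 * R ^ 2 / 2 / M) := by
    rw [← Real.exp_nat_mul]
    congr 1
    rw [hθ]
    field_simp
  rw [e1, norm_mul, Complex.norm_I, one_mul, Complex.norm_real, Real.norm_eq_abs, hθ, abs_div,
    abs_of_pos hMp]
  field_simp

/-- the complex polynomial -/
noncomputable def qq {n : ℕ} (c : Fin n → ℂ) (ξ : Fin n → ℝ) (M : ℕ) : Polynomial ℂ :=
  ∑ j, Polynomial.C (c j) *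
    (1 + Polynomial.C (Complex.I * (ξ j / M : ℝ)) * Polynomial.X) ^ M

theorem qq_conj {n : ℕ} (c : Fin n → ℂ) (ξ : Fin n → ℝ) (M : ℕ) :
    (qq c ξ M).map (starRingEnd ℂ) = qq (fun j => (starRingEnd ℂ) (c j)) (fun j => -ξ j) M := by
  unfold qq
  rw [Polynomial.map_sum]
  refine Finset.sum_congr rfl fun j _ => ?_
  rw [Polynomial.map_mul, Polynomial.map_pow, Polynomial.map_add, Polynomial.map_one,
    Polynomial.map_mul, Polynomial.map_C, Polynomial.map_C, Polynomial.map_X]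
  congr 5
  rw [map_mul, Complex.conj_I, Complex.conj_ofReal, neg_div]
  push_cast
  ring

theorem aeval_qq {n : ℕ} (c : Fin n → ℂ) (ξ : Fin n → ℝ) (M : ℕ) (X : H →L[ℂ] H) :
    Polynomial.aeval X (qq c ξ M) =
      ∑ j, c j • (1 + (Complex.I * (ξ j / M : ℝ) : ℂ) • X) ^ M := by
  unfold qq
  rw [map_sum]
  refine Finset.sum_congr rfl fun j _ => ?_
  simp only [map_mul, map_pow, map_add, map_one, Polynomial.aeval_C, Polynomial.aeval_X,
    Algebra.algebraMap_eq_smul_one, smul_mul_assoc, one_mul, mul_smul]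

theorem nuc_qq {n : ℕ} (c : Fin n → ℂ) (ξ : Fin n → ℝ) {M : ℕ} (hM : 1 ≤ M) {X X' : H →L[ℂ] H}
    (hX : IsSelfAdjoint X) (hX' : IsSelfAdjoint X') {R : ℝ}
    (hR : ‖X‖ ≤ R) (hR' : ‖X'‖ ≤ R) {ρ : ℝ} {τ : (H →L[ℂ] H) →ₗ[ℂ] ℂ} (h : Nuc (X' - X) ρ τ) :
    ∃ τ', Nuc (Polynomial.aeval X' (qq c ξ M) - Polynomial.aeval X (qq c ξ M))
      (∑ j, ‖c j‖ * (|ξ j| * Real.exp (ξ j ^ 2 * R ^ 2 / 2 / M) * ρ)) τ' := by
  rw [aeval_qq, aeval_qq, ← Finset.sum_sub_distrib]
  refine nuc_sum _ fun j _ => ?_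
  obtain ⟨τ', hτ'⟩ := nuc_term hX hX' hR hR' h (ξ j) hM
  refine ⟨(c j) • τ', ?_⟩
  rw [← smul_sub]
  exact hτ'.smul _

theorem eval_qq {n : ℕ} (c : Fin n → ℂ) (ξ : Fin n → ℝ) (M : ℕ) (t : ℝ) :
    (qq c ξ M).eval (t : ℂ) = ∑ j, c j * (1 + (Complex.I * ξ j * t) / M) ^ M := by
  unfold qq
  rw [Polynomial.eval_finsetSum]
  refine Finset.sum_congr rfl fun j _ => ?_
  simp only [Polynomial.eval_mul, Polynomial.eval_C, Polynomial.eval_pow, Polynomial.eval_add,
    Polynomial.eval_one, Polynomial.eval_X]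
  congr 3
  push_cast
  ring

theorem eval_dqq {n : ℕ} (c : Fin n → ℂ) (ξ : Fin n → ℝ) {M : ℕ} (hM : 1 ≤ M) (t : ℝ) :
    (qq c ξ M).derivative.eval (t : ℂ) =
      ∑ j, c j * (Complex.I * ξ j) * (1 + (Complex.I * ξ j * t) / M) ^ (M - 1) := by
  have hMp : (0 : ℝ) < M := by exact_mod_cast hM
  have hMc : (M : ℂ) ≠ 0 := by exact_mod_cast hMp.ne'
  unfold qq
  rw [Polynomial.derivative_sum, Polynomial.eval_finsetSum]
  refine Finset.sum_congr rfl fun j _ => ?_
  rw [Polynomial.derivative_C_mul, Polynomial.derivative_pow, Polynomial.derivative_add,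
    Polynomial.derivative_one, Polynomial.derivative_C_mul, Polynomial.derivative_X]
  simp only [Polynomial.eval_mul, Polynomial.eval_C, Polynomial.eval_pow, Polynomial.eval_add,
    Polynomial.eval_one, Polynomial.eval_X, zero_add, mul_one]
  have e : Complex.I * ((ξ j / M : ℝ) : ℂ) * t = (Complex.I * ξ j * t) / M := by
    push_cast
    ring
  rw [e]
  push_cast
  field_simp

end OE2Aux

open OE2Aux in
theorem stmt_OE2 : Stmt_OE2.{v} := by
  intro n c ξ R η hR hη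
  -- constants
  set Z : Fin n → ℝ := fun j => |ξ j| * R with hZ
  have hZ0 : ∀ j, 0 ≤ Z j := fun j => by positivity
  set D : Fin n → ℝ := fun j => Real.exp (Z j) * (Z j ^ 2 + 2 * Z j) with hD
  have hD0 : ∀ j, 0 ≤ D j := fun j => by
    have := hZ0 j
    positivity
  set C1 : ℝ := ∑ j, ‖c j‖ * D j with hC1
  set C2 : ℝ := ∑ j, ‖c j‖ * |ξ j| * D j with hC2
  have t1 : Tendsto (fun M : ℕ => C1 / (M : ℝ)) atTop (𝓝 0) := tendsto_const_div_atTop_nhds_zero_nat _
  have t2 : Tendsto (fun M : ℕ => C2 / (M : ℝ)) atTop (𝓝 0) := tendsto_const_div_atTop_nhds_zero_nat _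
  have t3 : Tendsto (fun M : ℕ => ∑ j, ‖c j‖ * (|ξ j| * Real.exp (ξ j ^ 2 * R ^ 2 / 2 / M)))
      atTop (𝓝 (∑ j, ‖c j‖ * |ξ j|)) := by
    refine tendsto_finsetSum _ fun j _ => ?_
    have h := (Real.continuous_exp.tendsto 0).comp
      (tendsto_const_div_atTop_nhds_zero_nat (𝕜 := ℝ) (ξ j ^ 2 * R ^ 2 / 2))
    rw [Real.exp_zero] at h
    have h2 := ((h.const_mul (|ξ j|)).const_mul ‖c j‖)
    rw [mul_one] at h2
    exact h2
  have hev := (((t1.eventually (ge_mem_nhds hη)).and (t2.eventually (ge_mem_nhds hη))).and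
    (t3.eventually (ge_mem_nhds (lt_add_of_pos_right _ hη)))).and
    ((eventually_ge_atTop 1).and (eventually_ge_atTop ⌈∑ j, Z j⌉₊))
  obtain ⟨M, ⟨⟨hM1, hM2⟩, hM3⟩, hM4, hM5⟩ := hev.exists
  have hZM : ∀ j, Z j ≤ M := fun j => by
    have h1 : Z j ≤ ∑ j, Z j :=
      Finset.single_le_sum (f := Z) (fun i _ => hZ0 i) (Finset.mem_univ j)
    have h2 : (∑ j, Z j) ≤ M := (Nat.le_ceil _).trans (by exact_mod_cast hM5)
    linarith
  obtain ⟨p, hp⟩ := exists_re (qq c ξ M)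
  have hp' : p.derivative.map Complex.ofRealHom = Polynomial.C (1 / 2) *
      ((qq c ξ M).derivative + (qq c ξ M).derivative.map (starRingEnd ℂ)) := by
    rw [← Polynomial.derivative_map, hp, Polynomial.derivative_C_mul, Polynomial.derivative_add,
      Polynomial.derivative_map]
  have hzt : ∀ j, ∀ t : ℝ, |t| ≤ R → ‖(Complex.I * ξ j * t : ℂ)‖ ≤ Z j := by
    intro j t ht
    rw [norm_mul, norm_mul, Complex.norm_I, one_mul, Complex.norm_real, Complex.norm_real,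
      Real.norm_eq_abs, Real.norm_eq_abs]
    exact mul_le_mul_of_nonneg_left ht (abs_nonneg _)
  refine ⟨p, ?_, ?_, ?_⟩
  · intro t ht
    rw [eval_re hp' t, eval_dqq c ξ hM4, ← Complex.sub_re, ← Finset.sum_sub_distrib]
    refine (Complex.abs_re_le_norm _).trans ((norm_sum_le _ _).trans ?_)
    refine le_trans (Finset.sum_le_sum (g := fun j => (‖c j‖ * |ξ j| * D j) / M) fun j _ => ?_)
      (le_trans (le_of_eq ?_) hM2)
    · rw [← mul_sub, norm_mul, norm_mul, norm_mul, Complex.norm_I, one_mul, Complex.norm_real,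
        Real.norm_eq_abs, mul_div_assoc (‖c j‖ * |ξ j|)]
      exact mul_le_mul_of_nonneg_left (exp_approx (hZ0 j) hM4 (hZM j) (hzt j t ht)
        (Or.inr (by omega))) (mul_nonneg (norm_nonneg _) (abs_nonneg _))
    · rw [hC2, Finset.sum_div]
  · intro t ht
    rw [eval_re hp t, eval_qq, ← Complex.sub_re, ← Finset.sum_sub_distrib]
    refine (Complex.abs_re_le_norm _).trans ((norm_sum_le _ _).trans ?_)
    refine le_trans (Finset.sum_le_sum (g := fun j => (‖c j‖ * D j) / M) fun j _ => ?_)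
      (le_trans (le_of_eq ?_) hM1)
    · rw [← mul_sub, norm_mul, mul_div_assoc ‖c j‖]
      exact mul_le_mul_of_nonneg_left (exp_approx (hZ0 j) hM4 (hZM j) (hzt j t ht)
        (Or.inl rfl)) (norm_nonneg _)
    · rw [hC1, Finset.sum_div]
  · intro H _ _ _ X X' hX hX' hXR hXR' ρ τ hN
    obtain ⟨τ1, h1⟩ := nuc_qq c ξ hM4 hX hX' hXR hXR' hN
    obtain ⟨τ2, h2⟩ := nuc_qq (fun j => (starRingEnd ℂ) (c j)) (fun j => -ξ j) hM4 hX hX' hXR
      hXR' hN
    have h3 := (h1.add h2).smul (1 / 2 : ℂ)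
    refine ⟨(1 / 2 : ℂ) • (τ1 + τ2), ?_⟩
    have e : ev X' p - ev X p = (1 / 2 : ℂ) •
        ((Polynomial.aeval X' (qq c ξ M) - Polynomial.aeval X (qq c ξ M)) +
        (Polynomial.aeval X' (qq (fun j => (starRingEnd ℂ) (c j)) (fun j => -ξ j) M) -
          Polynomial.aeval X (qq (fun j => (starRingEnd ℂ) (c j)) (fun j => -ξ j) M))) := by
      unfold ev
      rw [hp, qq_conj, map_mul, map_mul, map_add, map_add, Polynomial.aeval_C, Polynomial.aeval_C,
        Algebra.algebraMap_eq_smul_one, smul_mul_assoc, one_mul, smul_mul_assoc, one_mul,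
        ← smul_sub]
      congr 1
      abel
    rw [e]
    refine h3.mono ?_
    have hρ := hN.nonneg
    have e2 : ∑ j, ‖(starRingEnd ℂ) (c j)‖ * (|-ξ j| *
        Real.exp ((-ξ j) ^ 2 * R ^ 2 / 2 / M) * ρ) =
        (∑ j, ‖c j‖ * (|ξ j| * Real.exp (ξ j ^ 2 * R ^ 2 / 2 / M))) * ρ := by
      rw [Finset.sum_mul]
      refine Finset.sum_congr rfl fun j _ => ?_
      rw [RCLike.norm_conj, abs_neg, neg_sq]
      ring
    have e3 : ∑ j, ‖c j‖ * (|ξ j| * Real.exp (ξ j ^ 2 * R ^ 2 / 2 / M) * ρ) =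
        (∑ j, ‖c j‖ * (|ξ j| * Real.exp (ξ j ^ 2 * R ^ 2 / 2 / M))) * ρ := by
      rw [Finset.sum_mul]
      refine Finset.sum_congr rfl fun j _ => ?_
      ring
    rw [e2, e3]
    have h4 := mul_le_mul_of_nonneg_right hM3 hρ
    have h5 : ‖(1 / 2 : ℂ)‖ = 1 / 2 := by norm_num
    rw [h5]
    linarith

end Pool.LG
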