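import Pool.Agent.Work.LipGraph.Op.OGA

/-!
# Final part B: self-adjoint series; the Lipschitz graph theorem
-/

open Matrix MeasureTheory Filter
open scoped ComplexOrder InnerProductSpace Pointwise

namespace Pool.LG

open Pool.PN Pool.FR Pool.FR.FAux ODAux OFAux

universe v

namespace OGAux

variable {H : Type v} [NormedAddCommGroup H] [InnerProductSpace ℂ H] [CompleteSpace H]

/-- normalisation of a rank one operator -/
theorem balance (x y : H) : ∃ x' y' : H, (∀ z, inner ℂ y' z • x' = inner ℂ y z • x) ∧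
    (∀ z, inner ℂ x' z • y' = inner ℂ x z • y) ∧ ‖x'‖ ^ 2 + ‖y'‖ ^ 2 = 2 * (‖x‖ * ‖y‖) := by
  by_cases hx : x = 0
  · exact ⟨0, 0, by simp [hx], by simp [hx], by simp [hx]⟩
  by_cases hy : y = 0
  · exact ⟨0, 0, by simp [hy], by simp [hy], by simp [hy]⟩
  have hx' : 0 < ‖x‖ := norm_pos_iff.2 hx
  have hy' : 0 < ‖y‖ := norm_pos_iff.2 hy
  set t : ℝ := √(‖y‖ / ‖x‖) with ht
  have htpos : 0 < t := Real.sqrt_pos.2 (by positivity)
  have ht2 : t ^ 2 = ‖y‖ / ‖x‖ := Real.sq_sqrt (by positivity)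
  have hti : ((t⁻¹ : ℝ) : ℂ) * ((t : ℝ) : ℂ) = 1 := by
    rw [← Complex.ofReal_mul, inv_mul_cancel₀ htpos.ne', Complex.ofReal_one]
  refine ⟨((t : ℝ) : ℂ) • x, ((t⁻¹ : ℝ) : ℂ) • y, fun z => ?_, fun z => ?_, ?_⟩
  · rw [inner_smul_left, Complex.conj_ofReal, smul_smul]
    congr 1
    linear_combination (inner ℂ y z) * hti
  · rw [inner_smul_left, Complex.conj_ofReal, smul_smul]
    congr 1
    linear_combination (inner ℂ x z) * hti
  · rw [norm_smul, norm_smul, Complex.norm_real, Complex.norm_real, Real.norm_eq_abs,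
      Real.norm_eq_abs, abs_of_pos htpos, abs_of_pos (inv_pos.2 htpos), mul_pow, mul_pow, inv_pow,
      ht2]
    field_simp
    ring

/-- the real part of a nuclear series -/
theorem ser_re {D : H →L[ℂ] H} {x y : ℕ → H} {M : ℝ} (hs : Summable fun k => ‖x k‖ * ‖y k‖)
    (hM : ∑' k, ‖x k‖ * ‖y k‖ ≤ M) (hD : ∀ z, HasSum (fun k => inner ℂ (y k) z • x k) (D z)) :
    Ser ((1 / 2 : ℂ) • (D + star D)) M := by
  choose x' y' h1 h2 h3 using fun k => balance (x k) (y k)
  -- the adjoint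
  have hstar : ∀ z, HasSum (fun k => inner ℂ (x k) z • y k) ((star D) z) := by
    have hsum : HasSum (fun k => InnerProductSpace.rankOne ℂ (x k) (y k)) D := by
      have h4 : Summable fun k => InnerProductSpace.rankOne ℂ (x k) (y k) := by
        refine Summable.of_norm_bounded (g := fun k => ‖x k‖ * ‖y k‖) hs fun k => ?_
        rw [InnerProductSpace.norm_rankOne]
      have h5 : ∑' k, InnerProductSpace.rankOne ℂ (x k) (y k) = D := by
        ext z
        have h6 := (h4.hasSum.map (ContinuousLinearMap.apply ℂ H z)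
          (ContinuousLinearMap.apply ℂ H z).continuous)
        exact h6.unique (hD z)
      rw [← h5]
      exact h4.hasSum
    intro z
    have h7 := (hsum.star).map (ContinuousLinearMap.apply ℂ H z)
      (ContinuousLinearMap.apply ℂ H z).continuous
    refine h7.congr_fun ?_ |> id
    intro k
    simp only [Function.comp, ContinuousLinearMap.apply_apply]
    rw [ContinuousLinearMap.star_eq_adjoint, InnerProductSpace.adjoint_rankOne,
      InnerProductSpace.rankOne_apply]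
  -- the sequence
  set ν : ℕ → ℝ := fun n => if n % 2 = 0 then 1 / 4 else -(1 / 4) with hν
  set l : ℕ → H := fun n => if n % 2 = 0 then x' (n / 2) + y' (n / 2) else
    x' (n / 2) - y' (n / 2) with hl
  have e0 : ∀ k, ν (2 * k) = 1 / 4 := fun k => by simp [hν]
  have e1 : ∀ k, ν (2 * k + 1) = -(1 / 4) := fun k => by
    have : (2 * k + 1) % 2 = 1 := by omega
    simp [hν, this]
  have f0 : ∀ k, l (2 * k) = x' k + y' k := fun k => by
    have : 2 * k / 2 = k := by omega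
    simp [hl, this]
  have f1 : ∀ k, l (2 * k + 1) = x' k - y' k := fun k => by
    have h4 : (2 * k + 1) % 2 = 1 := by omega
    have h5 : (2 * k + 1) / 2 = k := by omega
    simp [hl, h4, h5]
  have hpar : ∀ k, ‖x' k + y' k‖ ^ 2 + ‖x' k - y' k‖ ^ 2 = 4 * (‖x k‖ * ‖y k‖) := by
    intro k
    have h4 := parallelogram_law_with_norm ℂ (x' k) (y' k)
    have h5 := h3 k
    nlinarith [h4, h5]
  have g0 : ∀ k, |ν (2 * k)| * ‖l (2 * k)‖ ^ 2 = 1 / 4 * ‖x' k + y' k‖ ^ 2 := fun k => by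
    rw [e0, f0]; norm_num
  have g1 : ∀ k, |ν (2 * k + 1)| * ‖l (2 * k + 1)‖ ^ 2 = 1 / 4 * ‖x' k - y' k‖ ^ 2 := fun k => by
    rw [e1, f1]; norm_num
  have s0 : Summable fun k => 1 / 4 * ‖x' k + y' k‖ ^ 2 := by
    refine Summable.of_nonneg_of_le (fun k => by positivity) (fun k => ?_) hs
    have := hpar k
    have h6 : 0 ≤ ‖x' k - y' k‖ ^ 2 := by positivity
    linarith
  have s1 : Summable fun k => 1 / 4 * ‖x' k - y' k‖ ^ 2 := by
    refine Summable.of_nonneg_of_le (fun k => by positivity) (fun k => ?_) hs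
    have := hpar k
    have h6 : 0 ≤ ‖x' k + y' k‖ ^ 2 := by positivity
    linarith
  have hS : HasSum (fun n => |ν n| * ‖l n‖ ^ 2) ((∑' k, 1 / 4 * ‖x' k + y' k‖ ^ 2) +
      ∑' k, 1 / 4 * ‖x' k - y' k‖ ^ 2) := by
    refine HasSum.even_add_odd ?_ ?_
    · simp only [g0]; exact s0.hasSum
    · simp only [g1]; exact s1.hasSum
  refine ⟨ν, l, hS.summable, ?_, fun z => ?_⟩
  · rw [hS.tsum_eq, ← s0.tsum_add s1]
    refine le_trans (le_of_eq (tsum_congr fun k => ?_)) hM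
    have := hpar k
    linarith
  · -- the two halves
    have hb : ∀ w : H, ‖(((1 / 4 : ℝ) : ℂ) * inner ℂ w z) • w‖ ≤ 1 / 4 * ‖w‖ ^ 2 * ‖z‖ := by
      intro w
      rw [norm_smul, norm_mul, Complex.norm_real, Real.norm_eq_abs,
        abs_of_pos (by norm_num : (0 : ℝ) < 1 / 4)]
      have := norm_inner_le_norm (𝕜 := ℂ) w z
      calc 1 / 4 * ‖inner ℂ w z‖ * ‖w‖ ≤ 1 / 4 * (‖w‖ * ‖z‖) * ‖w‖ := by gcongr
        _ = _ := by ring
    have t0 : Summable fun k => (((1 / 4 : ℝ) : ℂ) * inner ℂ (x' k + y' k) z) • (x' k + y' k) :=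
      Summable.of_norm_bounded (s0.mul_right ‖z‖) fun k => hb _
    have t1 : Summable fun k => (((1 / 4 : ℝ) : ℂ) * inner ℂ (x' k - y' k) z) • (x' k - y' k) :=
      Summable.of_norm_bounded (s1.mul_right ‖z‖) fun k => hb _
    have hsum : HasSum (fun n => ((ν n : ℂ) * inner ℂ (l n) z) • l n)
        ((∑' k, (((1 / 4 : ℝ) : ℂ) * inner ℂ (x' k + y' k) z) • (x' k + y' k)) +
          -∑' k, (((1 / 4 : ℝ) : ℂ) * inner ℂ (x' k - y' k) z) • (x' k - y' k)) := by
      refine HasSum.even_add_odd ?_ ?_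
      · simp only [e0, f0]; exact t0.hasSum
      · simp only [e1, f1]
        refine (t1.hasSum.neg).congr_fun ?_ |> id
        intro k
        push_cast
        rw [neg_mul, neg_smul]
    have hval : (∑' k, (((1 / 4 : ℝ) : ℂ) * inner ℂ (x' k + y' k) z) • (x' k + y' k)) +
          -∑' k, (((1 / 4 : ℝ) : ℂ) * inner ℂ (x' k - y' k) z) • (x' k - y' k) =
        ((1 / 2 : ℂ) • (D + star D)) z := by
      have h8 := t0.hasSum.add t1.hasSum.neg
      have h9 : HasSum (fun k => (1 / 2 : ℂ) • (inner ℂ (y k) z • x k + inner ℂ (x k) z • y k))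
          ((1 / 2 : ℂ) • (D z + (star D) z)) := ((hD z).add (hstar z)).const_smul _
      refine h8.unique (h9.congr_fun ?_ |> id)
      intro k
      rw [← h1 k z, ← h2 k z]
      simp only [inner_add_left, inner_sub_left]
      push_cast
      module
    rw [← hval]
    exact hsum

theorem rp_eq (N : H →L[ℂ] H) : rp N = (1 / 2 : ℂ) • (N + star N) := by
  conv_rhs => rw [← NN_rp N, star_NN (rp_sa N) (ip_sa N), NN]
  module

theorem ip_eq (N : H →L[ℂ] H) :
    ip N = (1 / 2 : ℂ) • ((-Complex.I) • N + star ((-Complex.I) • N)) := by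
  conv_rhs => rw [star_smul, ← NN_rp N, star_NN (rp_sa N) (ip_sa N), NN]
  simp only [smul_add, smul_sub, smul_smul]
  simp only [RCLike.star_def, map_neg, Complex.conj_I, neg_neg]
  have h1 : Complex.I * Complex.I = -1 := Complex.I_mul_I
  have e1 : (1 / 2 : ℂ) * (-Complex.I * Complex.I) = 1 / 2 := by linear_combination -(1 / 2 : ℂ) * h1
  have e2 : (1 / 2 : ℂ) * (Complex.I * Complex.I) = -(1 / 2) := by
    linear_combination (1 / 2 : ℂ) * h1
  rw [e1, e2]
  module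

theorem ser_parts {D : H →L[ℂ] H} {x y : ℕ → H} {M : ℝ} (hs : Summable fun k => ‖x k‖ * ‖y k‖)
    (hM : ∑' k, ‖x k‖ * ‖y k‖ ≤ M) (hD : ∀ z, HasSum (fun k => inner ℂ (y k) z • x k) (D z))
    {u : ℂ} (hu : ‖u‖ = 1) : Ser (rp (u • D)) M ∧ Ser (ip (u • D)) M := by
  have key : ∀ w : ℂ, ‖w‖ = 1 → Ser ((1 / 2 : ℂ) • (w • D + star (w • D))) M := by
    intro w hw
    have h1 : ∀ k, ‖w • x k‖ * ‖y k‖ = ‖x k‖ * ‖y k‖ := by
      intro k; rw [norm_smul, hw, one_mul]
    refine ser_re (x := fun k => w • x k) (y := y) ?_ ?_ fun z => ?_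
    · simp only [h1]; exact hs
    · simp only [h1]; exact hM
    · have h2 := (hD z).const_smul w
      refine h2.congr_fun ?_ |> id
      intro k
      rw [smul_comm]
  refine ⟨?_, ?_⟩
  · rw [rp_eq]; exact key u hu
  · rw [ip_eq, smul_smul]
    exact key _ (by rw [norm_mul, norm_neg, Complex.norm_I, hu, one_mul])

end OGAux

open OGAux

/-- Theorem LG for bounded operators -/
theorem lipGraph (hF : Stmt_OF.{v}) : ∃ C : ℝ, 0 ≤ C ∧
    ∀ (H : Type v) [NormedAddCommGroup H] [InnerProductSpace ℂ H] [CompleteSpace H]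
      (N₁ N₂ : H →L[ℂ] H), IsStarNormal N₁ → IsStarNormal N₂ →
      ∀ (x y : ℕ → H) (M : ℝ), (Summable fun k => ‖x k‖ * ‖y k‖) → ∑' k, ‖x k‖ * ‖y k‖ ≤ M →
      (∀ z, HasSum (fun k => inner ℂ (y k) z • x k) ((N₂ - N₁) z)) →
      ∀ (u : ℂ) (φ : ℝ → ℝ) (L : NNReal), ‖u‖ = 1 → LipschitzWith L φ →
      (∀ z ∈ spectrum ℂ N₁, (u * z).im = φ (u * z).re) →
      ∃ μ : Fin 4 → Measure ℂ, (∀ i, IsFiniteMeasure (μ i)) ∧
        (∀ i, (μ i Set.univ).toReal ≤ C * (1 + L) * M) ∧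
        ∀ f : ℂ → ℂ, ContDiff ℝ (⊤ : ℕ∞) f → HasCompactSupport f →
          HasTr (cfc f N₂ - cfc f N₁)
            ((∫ z : ℂ, fderiv ℝ f z 1 ∂(μ 0)) - (∫ z : ℂ, fderiv ℝ f z 1 ∂(μ 1)) +
              (∫ z : ℂ, fderiv ℝ f z Complex.I ∂(μ 2)) -
              (∫ z : ℂ, fderiv ℝ f z Complex.I ∂(μ 3))) := by
  obtain ⟨C, hC0, hC⟩ := hF
  refine ⟨C, hC0, ?_⟩
  intro H _ _ _ N₁ N₂ h₁ h₂ x y M hs hM hD u φ L hu hφ hsp
  have hM0 : 0 ≤ M := le_trans (tsum_nonneg fun k => by positivity) hM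
  have hnuc := (nuc_series hs hD).mono hM
  refine main h₁ h₂ hnuc (by positivity) ?_
  refine PolBd.rot h₁ h₂ hu ?_
  have hn : ∀ {N : H →L[ℂ] H}, IsStarNormal N → IsStarNormal (u • N) := by
    intro N hN
    rw [isStarNormal_iff, star_smul]
    exact ((isStarNormal_iff N).1 hN).smul_left _ |>.smul_right _
  obtain ⟨s1, s2⟩ := ser_parts hs hM hD hu
  have e1 : rp (u • N₂) - rp (u • N₁) = rp (u • (N₂ - N₁)) := by
    rw [smul_sub, rp, rp, rp, map_sub]; rfl
  have e2 : ip (u • N₂) - ip (u • N₁) = ip (u • (N₂ - N₁)) := by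
    rw [smul_sub, ip, ip, ip, map_sub]; rfl
  rw [← e1] at s1
  rw [← e2] at s2
  obtain ⟨R, hR0, hR⟩ := hC H (rp (u • N₁)) (ip (u • N₁)) (rp (u • N₂)) (ip (u • N₂)) (rp_sa _)
    (ip_sa _) (rp_sa _) (ip_sa _) (rp_comm (hn h₁)) (rp_comm (hn h₂)) M s1 s2 φ L hφ (by
      intro z hz
      have h3 := NN_rp (u • N₁)
      unfold NN at h3
      rw [h3] at hz
      have hu0 : u ≠ 0 := by
        intro h; rw [h, norm_zero] at hu; exact zero_ne_one hu
      have h4 : z ∈ (Units.mk0 u hu0) • spectrum ℂ N₁ := by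
        rw [← spectrum.unit_smul_eq_smul]
        exact hz
      obtain ⟨w, hw, rfl⟩ := h4
      exact hsp w hw)
  refine ⟨R, hR0, fun p K hp δ hδ => ?_⟩
  obtain ⟨N, τ, h3, h4⟩ := hR p K hp δ hδ
  refine ⟨N, τ, ?_, by linarith [h4]⟩
  have e3 : Q p (u • N₂) - Q p (u • N₁) = ∑ m ∈ p.support, ((p.coeff m : ℝ) : ℂ) •
      (rp (u • N₂) ^ (m 0) * ip (u • N₂) ^ (m 1) -
        rp (u • N₁) ^ (m 0) * ip (u • N₁) ^ (m 1)) := by
    unfold Q
    rw [← Finset.sum_sub_distrib]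
    exact Finset.sum_congr rfl fun m _ => (smul_sub _ _ _).symm
  rw [e3]
  exact h3

end Pool.LG
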