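import Pool.Agent.Work.LipGraph.A1
import Pool.Agent.Work.LipGraph.A2
import Pool.Agent.Work.LipGraph.A3
import Pool.Agent.Work.LipGraph.A4
import Pool.Agent.Work.LipGraph.A56
import Pool.Agent.Work.LipGraph.A7
import Pool.Agent.Work.LipGraph.A8
import Pool.Agent.Work.LipGraph.A9
import Pool.Agent.Work.LipGraph.K1
import Pool.Agent.Work.LipGraph.K2
import Pool.Agent.Work.LipGraph.H1
import Pool.Agent.Work.LipGraph.M0
import Pool.Agent.Work.LipGraph.M1
import Pool.Agent.Work.LipGraph.M2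
import Pool.Agent.Work.LipGraph.M3
import Pool.Agent.Work.LipGraph.J
import Pool.Agent.Work.LipGraph.G
import Pool.Agent.Work.LipGraph.S1
import Pool.Agent.Work.LipGraph.S2
import Pool.Agent.Work.LipGraph.D1
import Pool.Agent.Work.LipGraph.D2
import Pool.Agent.Work.LipGraph.D3
import Pool.Agent.Work.LipGraph.D4
import Pool.Agent.Work.LipGraph.D5
import Pool.Agent.Work.LipGraph.D6
import Pool.Agent.Work.LipGraph.FINd
import Pool.Agent.Work.LipGraph.Op.OA
import Pool.Agent.Work.LipGraph.Op.OB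
import Pool.Agent.Work.LipGraph.Op.OE1
import Pool.Agent.Work.LipGraph.Op.OE2
import Pool.Agent.Work.LipGraph.Op.OGB

/-!
# Glue: the diagonal inequality and Theorem LG without hypotheses
-/

open Matrix MeasureTheory Filter
open scoped ComplexOrder InnerProductSpace Pointwise

namespace Pool.LG

open Pool.PN

universe v

theorem stmt_M0 : Stmt_M0 := stmt_M0_of A1 A3 A8
theorem stmt_M1 : Stmt_M1 := stmt_M1_of A3 A4 stmt_H1 stmt_M0
theorem stmt_M2 : Stmt_M2 := stmt_M2_of A5 A6 A7 stmt_H1 stmt_M0 stmt_M1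
theorem stmt_M3 : Stmt_M3 := stmt_M3_of A3 A1 stmt_H1 stmt_M0 stmt_M1
theorem stmt_D4' : Stmt_D4 := stmt_D4 A1 A2 A3 A9 (stmt_D2 stmt_K2) stmt_K2

/-- the diagonal inequality -/
theorem stmt_DI : Stmt_DI :=
  FIN stmt_H1 stmt_M1 stmt_M2 stmt_M3 stmt_M0 stmt_J stmt_G stmt_S1 stmt_S2 stmt_D1
    (stmt_D2 stmt_K2) stmt_D3 stmt_D4' stmt_D5 stmt_D6 A3 A9

theorem stmt_OE : Stmt_OE.{v} := by
  intro φ L hφ R η hR hη
  obtain ⟨n, c, ξ, ε, hε0, hεη, hεΛ, h1, h2⟩ := stmt_OE1 φ L hφ R (η / 4) hR (by positivity)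
  set Λ : ℝ := ∑ j, ‖c j‖ * |ξ j| with hΛ
  have hΛ0 : 0 ≤ Λ := Finset.sum_nonneg fun j _ => by positivity
  set κ : ℝ := min (η / 4) (η / (4 * (Λ + 1 + η))) with hκ
  have hκ0 : 0 < κ := lt_min (by positivity) (by positivity)
  have hκ1 : κ ≤ η / 4 := min_le_left _ _
  have hκ2 : κ * (Λ + 1 + η) ≤ η / 4 := by
    have h3 : κ ≤ η / (4 * (Λ + 1 + η)) := min_le_right _ _
    have h4 : 0 < Λ + 1 + η := by positivity
    calc κ * (Λ + 1 + η) ≤ η / (4 * (Λ + 1 + η)) * (Λ + 1 + η) := by gcongr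
      _ = η / 4 := by field_simp
  obtain ⟨p, p1, p2, p3⟩ := stmt_OE2.{v} n c ξ R κ hR hκ0
  refine ⟨p, ε + κ, Λ + κ, by positivity, by positivity, by linarith, ?_, fun t ht => ?_,
    fun t ht => ?_, fun H _ _ _ X X' hX hX' nX nX' ρ τ hτ => p3 H X X' hX hX' nX nX' ρ τ hτ⟩
  · have h5 : ε * Λ ≤ η / 4 := hεΛ
    have h6 : κ * Λ ≤ η / 4 := by
      refine le_trans ?_ hκ2
      gcongr
      linarith
    have h7 : κ * κ ≤ η / 4 := by
      refine le_trans ?_ hκ2
      gcongr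
      linarith
    have h8 : ε * κ ≤ η / 4 := by
      refine le_trans ?_ hκ2
      rw [mul_comm]
      gcongr
      linarith
    nlinarith
  · have h5 := p1 t ht
    have h6 := h1 t ht
    have h7 := abs_sub_abs_le_abs_sub (p.derivative.eval t)
      (∑ j, c j * (Complex.I * ξ j) * Complex.exp (Complex.I * ξ j * t)).re
    linarith
  · have h5 := p2 t ht
    have h6 := h2 t ht
    have h7 := abs_sub_le (p.eval t) (∑ j, c j * Complex.exp (Complex.I * ξ j * t)).re (φ t)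
    linarith

theorem stmt_OD' : Stmt_OD.{v} := stmt_OD (stmt_OC (stmt_OA stmt_DI) stmt_OB)

theorem stmt_OF' : Stmt_OF.{v} := stmt_OF stmt_OD' stmt_OE

end Pool.LG
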