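import Pool.Agent.Work.LipGraph.Interface
import Pool.Agent.Work.PathNormal.D

/-!
# Operator part of the Lipschitz graph theorem: interface

`Pool.PN.Nuc T M τ` (Work/PathNormal/A.lean): `T` is nuclear with bound `M` and `τ S = tr (S T)`.
-/

open Matrix MeasureTheory
open scoped ComplexOrder InnerProductSpace

namespace Pool.LG

open Pool.PN

universe v

/-- value of a real polynomial at an element of a complex algebra -/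
noncomputable def ev {A : Type*} [Ring A] [Algebra ℂ A] (X : A) (p : Polynomial ℝ) : A :=
  Polynomial.aeval X (p.map Complex.ofRealHom)

/-- BLOCK OA: the diagonal inequality for matrices, polynomial functions, signed `s`, and
`V = ∑ ν j • l j l jᴴ` (possibly singular).  From `Stmt_DI`: add `t • 1` to `V` and let `t → 0`;
`∑ |eigenvalues of V| ≤ ∑ |ν j| ‖l j‖²`; modify `p` outside `[-R, R]`; `s = s⁺ - s⁻`. -/
def Stmt_OA : Prop := ∃ C : ℝ, 0 ≤ C ∧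
  ∀ (n d : ℕ) (x s : Fin n → ℝ) (ν : Fin d → ℝ) (l : Fin d → Fin n → ℂ) (p : Polynomial ℝ)
    (R L M : ℝ), (∀ i, |x i| + ∑ j, |ν j| * ∑ i, ‖l j i‖ ^ 2 ≤ R) → 0 ≤ L → 0 ≤ M →
    (∀ i, |s i| ≤ M) → (∀ t, |t| ≤ R → |p.derivative.eval t| ≤ L) →
    ‖trace (dg s * (ev (dg x + ∑ j, (ν j : ℂ) • vecMulVec (l j) (star (l j))) p - ev (dg x) p))‖ ≤
      C * L * M * ∑ j, |ν j| * ∑ i, ‖l j i‖ ^ 2

/-- BLOCK OB: approximate finite models of a commuting pair of self-adjoint operators, by a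
continuous partition of unity on the joint spectrum: `W a i j = ⟨l i, χ_a(X + i S) l j⟩`. -/
def Stmt_OB : Prop := ∀ (H : Type v) [NormedAddCommGroup H] [InnerProductSpace ℂ H]
    [CompleteSpace H] (X S : H →L[ℂ] H), IsSelfAdjoint X → IsSelfAdjoint S → X * S = S * X →
    ∀ (d : ℕ) (l : Fin d → H) (N : ℕ) (ε : ℝ), 0 < ε →
    ∃ (m : ℕ) (x s : Fin m → ℝ) (W : Fin m → Mat d), (∀ a, |x a| ≤ ‖X‖) ∧ (∀ a, |s a| ≤ ‖S‖) ∧
      (∀ a, (W a).PosSemidef) ∧ (∀ i j, ∑ a, W a i j = inner ℂ (l i) (l j)) ∧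
      ∀ k : ℕ, k ≤ N → ∀ i j,
        ‖∑ a, (x a : ℂ) ^ k * W a i j - inner ℂ (l i) ((X ^ k) (l j))‖ ≤ ε ∧
        ‖∑ a, (x a : ℂ) ^ k * s a * W a i j - inner ℂ (l i) ((X ^ k * S) (l j))‖ ≤ ε

section

variable {H : Type v} [NormedAddCommGroup H] [InnerProductSpace ℂ H] [CompleteSpace H]

/-- `tr (S (X'^k - X^k))` if `τ Y = tr (Y (X' - X))` -/
noncomputable def Tk (τ : (H →L[ℂ] H) →ₗ[ℂ] ℂ) (X X' S : H →L[ℂ] H) (k : ℕ) : ℂ :=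
  ∑ j ∈ Finset.range k, τ (X ^ (k - 1 - j) * S * X' ^ j)

/-- `tr (S (p(X') - p(X)))` if `τ Y = tr (Y (X' - X))` -/
noncomputable def TP (τ : (H →L[ℂ] H) →ₗ[ℂ] ℂ) (X X' S : H →L[ℂ] H) (p : Polynomial ℝ) : ℂ :=
  p.sum fun k c => (c : ℂ) * Tk τ X X' S k

/-- finite rank operator `∑ ν j ⟨l j, ·⟩ l j` -/
noncomputable def frO {d : ℕ} (ν : Fin d → ℝ) (l : Fin d → H) : H →L[ℂ] H :=
  ∑ j, (ν j : ℂ) • InnerProductSpace.rankOne ℂ (l j) (l j)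

/-- its trace functional -/
noncomputable def frF {d : ℕ} (ν : Fin d → ℝ) (l : Fin d → H) : (H →L[ℂ] H) →ₗ[ℂ] ℂ where
  toFun Y := ∑ j, (ν j : ℂ) * inner ℂ (l j) (Y (l j))
  map_add' Y Y' := by
    rw [← Finset.sum_add_distrib]
    exact Finset.sum_congr rfl fun j _ => by rw [_root_.add_apply, inner_add_right]; ring
  map_smul' c Y := by
    rw [RingHom.id_apply, smul_eq_mul, Finset.mul_sum]
    exact Finset.sum_congr rfl fun j _ => by rw [_root_.smul_apply, inner_smul_right]; ring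

/-- `V = ∑ ν j ⟨l j, ·⟩ l j` with `∑ |ν j| ‖l j‖² ≤ M` -/
def Ser (V : H →L[ℂ] H) (M : ℝ) : Prop := ∃ (ν : ℕ → ℝ) (l : ℕ → H),
  Summable (fun j => |ν j| * ‖l j‖ ^ 2) ∧ ∑' j, |ν j| * ‖l j‖ ^ 2 ≤ M ∧
  ∀ z, HasSum (fun j => ((ν j : ℂ) * inner ℂ (l j) z) • l j) (V z)

end

/-- BLOCK OC: the diagonal inequality for operators, finite rank perturbations.  From OA, OB: the
numbers `⟨l i, X^a S (X+V)^j X^b (l j)⟩` are polynomials in the moments of OB (recursion in `j`). -/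
def Stmt_OC : Prop := ∃ C : ℝ, 0 ≤ C ∧
  ∀ (H : Type v) [NormedAddCommGroup H] [InnerProductSpace ℂ H] [CompleteSpace H]
    (X S : H →L[ℂ] H), IsSelfAdjoint X → IsSelfAdjoint S → X * S = S * X →
    ∀ (d : ℕ) (ν : Fin d → ℝ) (l : Fin d → H) (p : Polynomial ℝ) (R L : ℝ),
      ‖X‖ + ∑ j, |ν j| * ‖l j‖ ^ 2 ≤ R → 0 ≤ L → (∀ t, |t| ≤ R → |p.derivative.eval t| ≤ L) →
      ‖TP (frF ν l) X (X + frO ν l) S p‖ ≤ C * L * ‖S‖ * ∑ j, |ν j| * ‖l j‖ ^ 2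

/-- BLOCK OD: the diagonal inequality for operators, nuclear perturbations. -/
def Stmt_OD : Prop := ∃ C : ℝ, 0 ≤ C ∧
  ∀ (H : Type v) [NormedAddCommGroup H] [InnerProductSpace ℂ H] [CompleteSpace H]
    (X X' S : H →L[ℂ] H), IsSelfAdjoint X → IsSelfAdjoint S → X * S = S * X →
    ∀ (M : ℝ), Ser (X' - X) M → ∀ (p : Polynomial ℝ) (R L : ℝ), ‖X‖ + M ≤ R → 0 ≤ L →
      (∀ t, |t| ≤ R → |p.derivative.eval t| ≤ L) →
      ∃ (N : ℝ) (τ : (H →L[ℂ] H) →ₗ[ℂ] ℂ), Nuc (ev X' p - ev X p) N τ ∧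
        ‖τ S‖ ≤ C * L * ‖S‖ * M

/-- BLOCK OE1: approximation of a Lipschitz function by real parts of trigonometric polynomials
`q(t) = Re ∑ c j exp(i ξ j t)` with control of `∑ |c j| |ξ j|`.  (Reflect to a periodic function
`h`, box average `h_δ(x) = (1/2δ) ∫_{x-δ}^{x+δ} h`; `|h_δ - h| ≤ L δ`, `|h_δ'| ≤ L`, Fourier
coefficients `c_n sinc(n ω δ)` with `∑ |n ω c_n|² ≤ L²` (Bessel for difference quotients), so
`Λ = ∑ |n ω c_n sinc(n ω δ)| ≤ C L δ^{-1/2}`; truncate.) -/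
def Stmt_OE1 : Prop := ∀ (φ : ℝ → ℝ) (L : NNReal), LipschitzWith L φ → ∀ (R η : ℝ), 0 < R →
  0 < η → ∃ (n : ℕ) (c : Fin n → ℂ) (ξ : Fin n → ℝ) (ε : ℝ), 0 ≤ ε ∧ ε ≤ η ∧
    ε * ∑ j, ‖c j‖ * |ξ j| ≤ η ∧
    (∀ t : ℝ, |t| ≤ R →
      |(∑ j, c j * (Complex.I * ξ j) * Complex.exp (Complex.I * ξ j * t)).re| ≤ L + η) ∧
    (∀ t : ℝ, |t| ≤ R → |(∑ j, c j * Complex.exp (Complex.I * ξ j * t)).re - φ t| ≤ ε)

/-- BLOCK OE2: from trigonometric polynomials to polynomials.  (Taylor polynomials;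
`‖e^{i ξ X'} - e^{i ξ X}‖₁ ≤ |ξ| ‖X' - X‖₁`; the tail `∑_{k > K} q_k (X'^k - X^k)` has nuclear norm
`≤ ∑_{k > K} |q_k| k (R+1)^k ρ` by `Pool.PN.pow_nuc`.) -/
def Stmt_OE2 : Prop := ∀ (n : ℕ) (c : Fin n → ℂ) (ξ : Fin n → ℝ) (R η : ℝ), 0 < R → 0 < η →
  ∃ p : Polynomial ℝ,
    (∀ t : ℝ, |t| ≤ R → |p.derivative.eval t -
      (∑ j, c j * (Complex.I * ξ j) * Complex.exp (Complex.I * ξ j * t)).re| ≤ η) ∧
    (∀ t : ℝ, |t| ≤ R → |p.eval t - (∑ j, c j * Complex.exp (Complex.I * ξ j * t)).re| ≤ η) ∧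
    ∀ (H : Type v) [NormedAddCommGroup H] [InnerProductSpace ℂ H] [CompleteSpace H]
      (X X' : H →L[ℂ] H), IsSelfAdjoint X → IsSelfAdjoint X' → ‖X‖ ≤ R → ‖X'‖ ≤ R →
      ∀ (ρ : ℝ) (τ : (H →L[ℂ] H) →ₗ[ℂ] ℂ), Nuc (X' - X) ρ τ →
        ∃ τ', Nuc (ev X' p - ev X p) ((∑ j, ‖c j‖ * |ξ j| + η) * ρ) τ'

/-- CONSEQUENCE OE of OE1, OE2: polynomial approximation of a Lipschitz function with control of
the derivative and of the operator Lipschitz norm. -/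
def Stmt_OE : Prop := ∀ (φ : ℝ → ℝ) (L : NNReal), LipschitzWith L φ → ∀ (R η : ℝ), 0 < R →
  0 < η → ∃ (p : Polynomial ℝ) (ε Λ : ℝ), 0 ≤ ε ∧ 0 ≤ Λ ∧ ε ≤ η ∧ ε * Λ ≤ η ∧
    (∀ t, |t| ≤ R → |p.derivative.eval t| ≤ L + η) ∧ (∀ t, |t| ≤ R → |p.eval t - φ t| ≤ ε) ∧
    ∀ (H : Type v) [NormedAddCommGroup H] [InnerProductSpace ℂ H] [CompleteSpace H]
      (X X' : H →L[ℂ] H), IsSelfAdjoint X → IsSelfAdjoint X' → ‖X‖ ≤ R → ‖X'‖ ≤ R →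
      ∀ (ρ : ℝ) (τ : (H →L[ℂ] H) →ₗ[ℂ] ℂ), Nuc (X' - X) ρ τ →
        ∃ τ', Nuc (ev X' p - ev X p) (Λ * ρ) τ'

/-- BLOCK OF: the Lipschitz estimate for polynomials of `N = X + i Y`, `N' = X' + i Y'`, when
`Y = φ(X)`.  From OD, OE. -/
def Stmt_OF : Prop := ∃ C : ℝ, 0 ≤ C ∧
  ∀ (H : Type v) [NormedAddCommGroup H] [InnerProductSpace ℂ H] [CompleteSpace H]
    (X Y X' Y' : H →L[ℂ] H), IsSelfAdjoint X → IsSelfAdjoint Y → IsSelfAdjoint X' →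
    IsSelfAdjoint Y' → X * Y = Y * X → X' * Y' = Y' * X' → ∀ M : ℝ, Ser (X' - X) M →
    Ser (Y' - Y) M → ∀ (φ : ℝ → ℝ) (L : NNReal), LipschitzWith L φ →
    (∀ z ∈ spectrum ℂ (X + Complex.I • Y), z.im = φ z.re) →
    ∃ R : ℝ, 0 ≤ R ∧ ∀ (f : MvPolynomial (Fin 2) ℝ) (K : NNReal),
      LipschitzOnWith K (fun z : ℂ => MvPolynomial.eval ![z.re, z.im] f) (Metric.closedBall 0 R) →
      ∀ δ > 0, ∃ (N : ℝ) (τ : (H →L[ℂ] H) →ₗ[ℂ] ℂ),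
        Nuc (∑ m ∈ f.support, ((f.coeff m : ℝ) : ℂ) •
          (X' ^ (m 0) * Y' ^ (m 1) - X ^ (m 0) * Y ^ (m 1))) N τ ∧
        ‖τ 1‖ ≤ C * (1 + L) * K * M + δ

end Pool.LG
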