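import Pool.Agent.Work.LipGraph.Op.Interface

/-!
# Block OB: approximate finite models of a commuting pair of self-adjoint operators
-/

open Matrix
open scoped ComplexOrder InnerProductSpace

namespace Pool.LG

open Pool.PN Pool.FR Pool.FR.FAux

universe v

/-- finite partition of unity on a compact set -/
theorem part_unity {K : Set ℂ} (hK : IsCompact K) {δ : ℝ} (hδ : 0 < δ) :
    ∃ (m : ℕ) (z : Fin m → ℂ) (χ : Fin m → ℂ → ℝ), (∀ a, z a ∈ K) ∧
      (∀ a, ContinuousOn (χ a) K) ∧ (∀ a w, 0 ≤ χ a w) ∧ (∀ w ∈ K, ∑ a, χ a w = 1) ∧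
      ∀ a w, w ∈ K → δ ≤ dist w (z a) → χ a w = 0 := by
  obtain ⟨t, htK, htf, hcov⟩ := hK.finite_cover_balls (half_pos hδ)
  obtain ⟨m, z, hz⟩ : ∃ (m : ℕ) (z : Fin m → ℂ), Set.range z = t := by
    refine ⟨htf.toFinset.card, fun a => (htf.toFinset.equivFin.symm a : ℂ), ?_⟩
    ext w
    constructor
    · rintro ⟨a, rfl⟩
      exact htf.mem_toFinset.1 (htf.toFinset.equivFin.symm a).2
    · intro hw
      exact ⟨htf.toFinset.equivFin ⟨w, htf.mem_toFinset.2 hw⟩, by simp⟩
  set g : Fin m → ℂ → ℝ := fun a w => max (δ - dist w (z a)) 0 with hg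
  have hg0 : ∀ a w, 0 ≤ g a w := fun a w => le_max_right _ _
  have hgc : ∀ a, Continuous (g a) := fun a => by
    rw [hg]
    fun_prop
  have hG : ∀ w ∈ K, 0 < ∑ a, g a w := by
    intro w hw
    have h1 := hcov hw
    simp only [Set.mem_iUnion, Metric.mem_ball, exists_prop] at h1
    obtain ⟨y, hy, hd⟩ := h1
    rw [← hz] at hy
    obtain ⟨a, rfl⟩ := hy
    refine Finset.sum_pos' (fun a _ => hg0 a w) ⟨a, Finset.mem_univ a, ?_⟩
    refine lt_max_of_lt_left ?_
    linarith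
  refine ⟨m, z, fun a w => g a w / ∑ b, g b w, ?_, ?_, ?_, ?_, ?_⟩
  · intro a
    exact htK (hz ▸ Set.mem_range_self a)
  · intro a
    refine (hgc a).continuousOn.div
      (continuous_finsetSum _ fun b _ => hgc b).continuousOn fun w hw => (hG w hw).ne'
  · intro a w
    exact div_nonneg (hg0 a w) (Finset.sum_nonneg fun b _ => hg0 b w)
  · intro w hw
    rw [← Finset.sum_div]
    exact div_self (hG w hw).ne'
  · intro a w _ hd
    have : g a w = 0 := max_eq_right (by linarith)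
    simp only [this, zero_div]

variable {H : Type v} [NormedAddCommGroup H] [InnerProductSpace ℂ H] [CompleteSpace H]

/-- approximation in norm -/
theorem pu_approx {A : H →L[ℂ] H} (hA : IsStarNormal A) {m : ℕ} {z : Fin m → ℂ}
    {χ : Fin m → ℂ → ℝ} (hc : ∀ a, ContinuousOn (χ a) (spectrum ℂ A)) (h0 : ∀ a w, 0 ≤ χ a w)
    (h1 : ∀ w ∈ spectrum ℂ A, ∑ a, χ a w = 1) {δ η : ℝ} (hη : 0 ≤ η)
    (hs : ∀ a w, w ∈ spectrum ℂ A → δ ≤ dist w (z a) → χ a w = 0) (f : ℂ → ℂ)
    (hf : Continuous f) (hfz : ∀ a, ∀ w ∈ spectrum ℂ A, dist w (z a) < δ →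
      ‖f (z a) - f w‖ ≤ η) :
    ‖∑ a, f (z a) • cfc (fun w => (χ a w : ℂ)) A - cfc f A‖ ≤ η := by
  have hcc : ∀ a, ContinuousOn (fun w => (χ a w : ℂ)) (spectrum ℂ A) := fun a =>
    Complex.continuous_ofReal.comp_continuousOn (hc a)
  have hcm : ∀ a, ContinuousOn (fun w => f (z a) * (χ a w : ℂ)) (spectrum ℂ A) := fun a =>
    continuousOn_const.mul (hcc a)
  have e1 : ∑ a, f (z a) • cfc (fun w => (χ a w : ℂ)) A =
      cfc (∑ a, fun w => f (z a) * (χ a w : ℂ)) A := by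
    rw [cfc_sum_univ (fun a w => f (z a) * (χ a w : ℂ)) A hcm]
    exact Finset.sum_congr rfl fun a _ => (cfc_const_mul (f (z a)) _ A (hcc a)).symm
  have hsum : (∑ a, fun w => f (z a) * (χ a w : ℂ)) = fun w => ∑ a, f (z a) * (χ a w : ℂ) := by
    funext w; simp
  rw [e1, hsum, ← cfc_sub (fun w => ∑ a, f (z a) * (χ a w : ℂ)) f A
    (continuousOn_finsetSum _ fun a _ => hcm a) hf.continuousOn]
  refine norm_cfc_le hη fun w hw => ?_
  have e2 : ∑ a, f (z a) * (χ a w : ℂ) - f w = ∑ a, (f (z a) - f w) * (χ a w : ℂ) := by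
    simp only [sub_mul, Finset.sum_sub_distrib]
    rw [← Finset.mul_sum, ← Complex.ofReal_sum, h1 w hw, Complex.ofReal_one, mul_one]
  rw [e2]
  calc ‖∑ a, (f (z a) - f w) * (χ a w : ℂ)‖ ≤ ∑ a, ‖(f (z a) - f w) * (χ a w : ℂ)‖ :=
        norm_sum_le _ _
    _ ≤ ∑ a, η * χ a w := by
        refine Finset.sum_le_sum fun a _ => ?_
        rw [norm_mul, Complex.norm_real, Real.norm_of_nonneg (h0 a w)]
        rcases lt_or_ge (dist w (z a)) δ with hd | hd
        · exact mul_le_mul_of_nonneg_right (hfz a w hw hd) (h0 a w)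
        · rw [hs a w hw hd, mul_zero, mul_zero]
    _ = η := by rw [← Finset.mul_sum, h1 w hw, mul_one]

theorem stmt_OB : Stmt_OB.{v} := by
  intro H _ _ _ X S hX hS hc d l N ε hε
  have hA : IsStarNormal (NN X S) := normal hX hS hc
  set A := NN X S with hAdef
  have hK : IsCompact (spectrum ℂ A) := spectrum.isCompact A
  have cre : Continuous fun z : ℂ => (z.re : ℂ) :=
    Complex.continuous_ofReal.comp Complex.continuous_re
  have cim : Continuous fun z : ℂ => (z.im : ℂ) :=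
    Complex.continuous_ofReal.comp Complex.continuous_im
  set Φ : ℂ → (Fin (N + 1) → ℂ × ℂ) := fun z k =>
    ((z.re : ℂ) ^ (k : ℕ), (z.re : ℂ) ^ (k : ℕ) * (z.im : ℂ)) with hΦ
  have hΦc : Continuous Φ := continuous_pi fun k =>
    ((cre.pow _).prodMk ((cre.pow _).mul cim))
  set B : ℝ := ∑ i, ‖l i‖ with hB
  have hB0 : 0 ≤ B := Finset.sum_nonneg fun i _ => norm_nonneg _
  have hlB : ∀ i, ‖l i‖ ≤ B := fun i =>
    Finset.single_le_sum (f := fun i => ‖l i‖) (fun i _ => norm_nonneg _) (Finset.mem_univ i)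
  set η : ℝ := ε / (1 + B ^ 2) with hη
  have hη0 : 0 < η := by positivity
  obtain ⟨δ, hδ, hu⟩ := Metric.uniformContinuousOn_iff.1
    (hK.uniformContinuousOn_of_continuous hΦc.continuousOn) η hη0
  obtain ⟨m, z, χ, hzK, hχc, hχ0, hχ1, hχs⟩ := part_unity hK hδ
  set E : Fin m → (H →L[ℂ] H) := fun a => cfc (fun w => (χ a w : ℂ)) A with hE
  set T : Fin m → (H →L[ℂ] H) := fun a => cfc (fun w => (√(χ a w) : ℂ)) A with hT
  have hsqc : ∀ a, ContinuousOn (fun w => ((√(χ a w) : ℝ) : ℂ)) (spectrum ℂ A) := fun a =>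
    Complex.continuous_ofReal.comp_continuousOn (Real.continuous_sqrt.comp_continuousOn (hχc a))
  have hTs : ∀ a, star (T a) = T a := by
    intro a
    rw [hT]
    simp only
    rw [← cfc_star]
    congr 1
    funext w
    simp
  have hTT : ∀ a, T a * T a = E a := by
    intro a
    rw [hT, hE]
    simp only
    rw [← cfc_mul _ _ A (hsqc a) (hsqc a)]
    congr 1
    funext w
    rw [← Complex.ofReal_mul, Real.mul_self_sqrt (hχ0 a w)]
  have hW : ∀ a i j, inner ℂ (T a (l i)) (T a (l j)) = inner ℂ (l i) (E a (l j)) := by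
    intro a i j
    rw [← hTT a, ← ContinuousLinearMap.adjoint_inner_right, ← ContinuousLinearMap.star_eq_adjoint,
      hTs a]
    rfl
  have hgen : ∀ (f : ℂ → ℂ) (Y : H →L[ℂ] H), Continuous f → cfc f A = Y →
      (∀ a, ∀ w ∈ spectrum ℂ A, dist w (z a) < δ → ‖f (z a) - f w‖ ≤ η) → ∀ i j,
      ‖∑ a, f (z a) * inner ℂ (T a (l i)) (T a (l j)) - inner ℂ (l i) (Y (l j))‖ ≤ ε := by
    intro f Y hf hY hfz i j
    have h1 := pu_approx hA hχc hχ0 hχ1 hη0.le hχs f hf hfz
    have e : ∑ a, f (z a) * inner ℂ (T a (l i)) (T a (l j)) - inner ℂ (l i) (Y (l j)) =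
        inner ℂ (l i) ((∑ a, f (z a) • E a - Y) (l j)) := by
      rw [_root_.sub_apply, inner_sub_right, _root_.sum_apply, inner_sum]
      congr 1
      refine Finset.sum_congr rfl fun a _ => ?_
      rw [_root_.smul_apply, inner_smul_right, hW]
    rw [e, ← hY]
    calc ‖(inner ℂ (l i) ((∑ a, f (z a) • E a - cfc f A) (l j)) : ℂ)‖
        ≤ ‖l i‖ * ‖(∑ a, f (z a) • E a - cfc f A) (l j)‖ := norm_inner_le_norm _ _
      _ ≤ B * (η * B) := by
          refine mul_le_mul (hlB i) ?_ (norm_nonneg _) hB0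
          refine (ContinuousLinearMap.le_opNorm _ _).trans ?_
          exact mul_le_mul h1 (hlB j) (norm_nonneg _) hη0.le
      _ ≤ ε := by
          have h3 : η * (1 + B ^ 2) = ε := by
            rw [hη]
            field_simp
          nlinarith
  have hk : ∀ k : ℕ, k ≤ N → ∀ a, ∀ w ∈ spectrum ℂ A, dist w (z a) < δ →
      ‖((z a).re : ℂ) ^ k - (w.re : ℂ) ^ k‖ ≤ η ∧
      ‖((z a).re : ℂ) ^ k * (z a).im - (w.re : ℂ) ^ k * w.im‖ ≤ η := by
    intro k hk a w hw hd
    have h1 := hu w hw (z a) (hzK a) hd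
    rw [dist_comm] at h1
    have h2 := (dist_pi_lt_iff hη0).1 h1 ⟨k, by omega⟩
    rw [Prod.dist_eq, max_lt_iff, dist_eq_norm, dist_eq_norm] at h2
    exact ⟨h2.1.le, h2.2.le⟩
  refine ⟨m, fun a => (z a).re, fun a => (z a).im,
    fun a => Matrix.gram ℂ (fun i => T a (l i)), ?_, ?_, ?_, ?_, ?_⟩
  · intro a
    have h := norm_apply_le_norm_cfc (fun z : ℂ => (z.re : ℂ)) A (hzK a) cre.continuousOn hA
    rw [cfc_re hX hS hc] at h
    simpa using h
  · intro a
    have h := norm_apply_le_norm_cfc (fun z : ℂ => (z.im : ℂ)) A (hzK a) cim.continuousOn hA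
    rw [cfc_im hX hS hc] at h
    simpa using h
  · intro a
    exact Matrix.posSemidef_gram _ _
  · intro i j
    simp only [Matrix.gram_apply, hW]
    rw [← inner_sum, ← _root_.sum_apply]
    have h1 : ∑ a, E a = 1 := by
      have e1 : ∑ a, E a = cfc (∑ a, fun w => (χ a w : ℂ)) A :=
        (cfc_sum_univ (fun a w => (χ a w : ℂ)) A fun a =>
          Complex.continuous_ofReal.comp_continuousOn (hχc a)).symm
      have hsum : (∑ a, fun w => (χ a w : ℂ)) = fun w => ∑ a, (χ a w : ℂ) := by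
        funext w; simp
      rw [e1, hsum]
      have e2 : cfc (fun w => ∑ a, (χ a w : ℂ)) A = cfc (fun _ : ℂ => (1 : ℂ)) A := by
        refine cfc_congr fun w hw => ?_
        rw [← Complex.ofReal_sum, hχ1 w hw, Complex.ofReal_one]
      rw [e2]
      exact cfc_const_one ℂ A
    rw [h1]
    rfl
  · intro k hkN i j
    simp only [Matrix.gram_apply]
    refine ⟨?_, ?_⟩
    · refine hgen (fun z => (z.re : ℂ) ^ k) (X ^ k) (cre.pow k) ?_
        (fun a w hw hd => (hk k hkN a w hw hd).1) i j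
      rw [cfc_pow (fun z : ℂ => (z.re : ℂ)) k A cre.continuousOn, cfc_re hX hS hc]
    · refine hgen (fun z => (z.re : ℂ) ^ k * (z.im : ℂ)) (X ^ k * S) ((cre.pow k).mul cim) ?_
        (fun a w hw hd => (hk k hkN a w hw hd).2) i j
      rw [cfc_mul (fun z : ℂ => (z.re : ℂ) ^ k) (fun z : ℂ => (z.im : ℂ)) A
        (cre.pow k).continuousOn cim.continuousOn,
        cfc_pow (fun z : ℂ => (z.re : ℂ)) k A cre.continuousOn, cfc_re hX hS hc,
        cfc_im hX hS hc]

end Pool.LG
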