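import Pool.Agent.Work.LipGraph.Op.Interface

/-!
# Block OC: finite rank perturbations
-/

open Matrix MeasureTheory Filter
open scoped ComplexOrder InnerProductSpace

namespace Pool.LG

open Pool.PN

universe v

namespace OCAux

variable {d : ℕ}

/-- the recursion for the matrices `⟨l i, X^a S (X+V)^j X^b (l k)⟩` -/
noncomputable def BB (ν : Fin d → ℝ) (g g' : ℕ → Mat d) (a : ℕ) : ℕ → ℕ → Mat d
  | 0, b => g' (a + b)
  | j + 1, b => BB ν g g' a j (b + 1) + BB ν g g' a j 0 * dg ν * g b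

theorem BB_tendsto {ι : Type*} {f : Filter ι} {ν : Fin d → ℝ} {g g' : ι → ℕ → Mat d}
    {G G' : ℕ → Mat d} (h : ∀ b, Tendsto (fun n => g n b) f (nhds (G b)))
    (h' : ∀ b, Tendsto (fun n => g' n b) f (nhds (G' b))) (a j : ℕ) :
    ∀ b, Tendsto (fun n => BB ν (g n) (g' n) a j b) f (nhds (BB ν G G' a j b)) := by
  induction j with
  | zero => intro b; exact h' (a + b)
  | succ j ih =>
    intro b
    exact (ih (b + 1)).add (((ih 0).mul tendsto_const_nhds).mul (h b))

theorem BB_eq {A : Type*} [Ring A] [Algebra ℂ A] (φ : Fin d → Fin d → A →ₗ[ℂ] ℂ)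
    (ν : Fin d → ℝ) (V X S : A)
    (hV : ∀ i k Y Z, φ i k (Y * V * Z) = ∑ m, φ i m Y * ν m * φ m k Z) (hXS : X * S = S * X)
    (a j : ℕ) : ∀ b i k, φ i k (X ^ a * S * (X + V) ^ j * X ^ b) =
      BB ν (fun b => Matrix.of fun i k => φ i k (X ^ b))
        (fun b => Matrix.of fun i k => φ i k (X ^ b * S)) a j b i k := by
  induction j with
  | zero =>
    intro b i k
    have h1 : X ^ a * S * (X + V) ^ 0 * X ^ b = X ^ (a + b) * S := by
      have hc : Commute (X ^ b) S := Commute.pow_left (show Commute X S from hXS) b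
      rw [pow_zero, mul_one, pow_add, mul_assoc, ← hc.eq, mul_assoc]
    rw [h1]
    rfl
  | succ j ih =>
    intro b i k
    have h1 : X ^ a * S * (X + V) ^ (j + 1) * X ^ b =
        X ^ a * S * (X + V) ^ j * X ^ (b + 1) +
          (X ^ a * S * (X + V) ^ j * X ^ 0) * V * X ^ b := by
      rw [pow_succ (X + V) j, pow_succ' X b, pow_zero, mul_one]
      noncomm_ring
    rw [h1, map_add, hV, ih]
    simp only [BB, Matrix.add_apply]
    congr 1
    rw [Matrix.mul_apply]
    refine Finset.sum_congr rfl fun m _ => ?_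
    rw [ih 0 i m, dg, Matrix.mul_diagonal, Matrix.of_apply]

/-- the common formula for the trace -/
noncomputable def TT (ν : Fin d → ℝ) (g g' : ℕ → Mat d) (p : Polynomial ℝ) : ℂ :=
  p.sum fun k c => (c : ℂ) * ∑ j ∈ Finset.range k, ∑ i, (ν i : ℂ) * BB ν g g' (k - 1 - j) j 0 i i

theorem TT_tendsto {ι : Type*} {f : Filter ι} {ν : Fin d → ℝ} {g g' : ι → ℕ → Mat d}
    {G G' : ℕ → Mat d} (h : ∀ b, Tendsto (fun n => g n b) f (nhds (G b)))
    (h' : ∀ b, Tendsto (fun n => g' n b) f (nhds (G' b))) (p : Polynomial ℝ) :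
    Tendsto (fun n => TT ν (g n) (g' n) p) f (nhds (TT ν G G' p)) := by
  unfold TT
  simp only [Polynomial.sum_def]
  refine tendsto_finsetSum _ fun k _ => tendsto_const_nhds.mul ?_
  refine tendsto_finsetSum _ fun j _ => tendsto_finsetSum _ fun i _ => tendsto_const_nhds.mul ?_
  have h1 := BB_tendsto (ν := ν) h h' (k - 1 - j) j 0
  exact ((continuous_apply i).tendsto _).comp (((continuous_apply i).tendsto _).comp h1)

theorem TT_eq {A : Type*} [Ring A] [Algebra ℂ A] (φ : Fin d → Fin d → A →ₗ[ℂ] ℂ)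
    (ν : Fin d → ℝ) (V X S : A)
    (hV : ∀ i k Y Z, φ i k (Y * V * Z) = ∑ m, φ i m Y * ν m * φ m k Z) (hXS : X * S = S * X)
    (p : Polynomial ℝ) :
    (p.sum fun k c => (c : ℂ) * ∑ j ∈ Finset.range k, ∑ i, (ν i : ℂ) *
      φ i i (X ^ (k - 1 - j) * S * (X + V) ^ j)) =
    TT ν (fun b => Matrix.of fun i k => φ i k (X ^ b))
        (fun b => Matrix.of fun i k => φ i k (X ^ b * S)) p := by
  unfold TT
  simp only [Polynomial.sum_def]
  refine Finset.sum_congr rfl fun k _ => ?_
  congr 1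
  refine Finset.sum_congr rfl fun j _ => Finset.sum_congr rfl fun i _ => ?_
  rw [← BB_eq φ ν V X S hV hXS, pow_zero, mul_one]

theorem telescope {A : Type*} [Ring A] (X V : A) (k : ℕ) :
    (X + V) ^ k - X ^ k = ∑ j ∈ Finset.range k, (X + V) ^ j * V * X ^ (k - 1 - j) := by
  induction k with
  | zero => simp
  | succ k ih =>
    rw [Finset.sum_range_succ]
    have h1 : ∑ j ∈ Finset.range k, (X + V) ^ j * V * X ^ (k + 1 - 1 - j) =
        (∑ j ∈ Finset.range k, (X + V) ^ j * V * X ^ (k - 1 - j)) * X := by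
      rw [Finset.sum_mul]
      refine Finset.sum_congr rfl fun j hj => ?_
      rw [Finset.mem_range] at hj
      rw [show k + 1 - 1 - j = (k - 1 - j) + 1 by omega, pow_succ, mul_assoc _ (X ^ _) X]
    rw [h1, ← ih]
    simp only [Nat.add_sub_cancel, Nat.sub_self, pow_zero, mul_one]
    rw [pow_succ, pow_succ]
    noncomm_ring

/-- the matrix trace -/
theorem trace_eq {n : ℕ} (s : Mat n) (X : Mat n) (ν : Fin d → ℝ) (l : Fin d → Fin n → ℂ)
    (p : Polynomial ℝ) :
    trace (s * (ev (X + ∑ j, (ν j : ℂ) • vecMulVec (l j) (star (l j))) p - ev X p)) =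
    p.sum fun k c => (c : ℂ) * ∑ j ∈ Finset.range k, ∑ i, (ν i : ℂ) *
      (star (l i) ⬝ᵥ ((X ^ (k - 1 - j) * s *
        (X + ∑ j, (ν j : ℂ) • vecMulVec (l j) (star (l j))) ^ j) *ᵥ l i)) := by
  set V : Mat n := ∑ j, (ν j : ℂ) • vecMulVec (l j) (star (l j)) with hVdef
  have hV : ∀ Y : Mat n, trace (Y * V) = ∑ i, (ν i : ℂ) * (star (l i) ⬝ᵥ (Y *ᵥ l i)) := by
    intro Y
    rw [hVdef, Finset.mul_sum, trace_sum]
    refine Finset.sum_congr rfl fun i _ => ?_
    rw [mul_smul_comm, trace_smul, smul_eq_mul, Matrix.mul_vecMulVec, trace_vecMulVec,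
      dotProduct_comm]
  have h1 : ∀ k : ℕ, trace (s * ((X + V) ^ k - X ^ k)) =
      ∑ j ∈ Finset.range k, ∑ i, (ν i : ℂ) *
        (star (l i) ⬝ᵥ ((X ^ (k - 1 - j) * s * (X + V) ^ j) *ᵥ l i)) := by
    intro k
    rw [telescope, Finset.mul_sum, trace_sum]
    refine Finset.sum_congr rfl fun j _ => ?_
    rw [← hV]
    have e1 : s * ((X + V) ^ j * V * X ^ (k - 1 - j)) =
        (s * (X + V) ^ j * V) * X ^ (k - 1 - j) := by noncomm_ring
    rw [e1, trace_mul_comm]
    congr 1
    noncomm_ring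
  have h2 : ∀ Y : Mat n, ev Y p = p.sum fun k c => (c : ℂ) • Y ^ k := by
    intro Y
    unfold ev
    rw [Polynomial.aeval_eq_sum_range' (n := p.natDegree + 1)
      (Nat.lt_succ_of_le (Polynomial.natDegree_map_le))]
    rw [Polynomial.sum_over_range' _ (fun k => by simp) (p.natDegree + 1) (Nat.lt_succ_self _)]
    refine Finset.sum_congr rfl fun k _ => ?_
    rw [Polynomial.coeff_map]
    rfl
  rw [h2, h2]
  simp only [Polynomial.sum_def]
  rw [← Finset.sum_sub_distrib, Finset.mul_sum, trace_sum]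
  refine Finset.sum_congr rfl fun k _ => ?_
  rw [← smul_sub, mul_smul_comm, trace_smul, smul_eq_mul, h1]

/-- entry functional of a matrix -/
noncomputable def phM {n : ℕ} (l : Fin d → Fin n → ℂ) (i k : Fin d) : Mat n →ₗ[ℂ] ℂ where
  toFun Y := star (l i) ⬝ᵥ (Y *ᵥ l k)
  map_add' Y Z := by rw [add_mulVec, dotProduct_add]
  map_smul' c Y := by rw [smul_mulVec, dotProduct_smul, RingHom.id_apply]

/-- entry functional of an operator -/
noncomputable def phO {H : Type v} [NormedAddCommGroup H] [InnerProductSpace ℂ H]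
    (l : Fin d → H) (i k : Fin d) : (H →L[ℂ] H) →ₗ[ℂ] ℂ where
  toFun Y := inner ℂ (l i) (Y (l k))
  map_add' Y Z := by rw [_root_.add_apply, inner_add_right]
  map_smul' c Y := by rw [_root_.smul_apply, inner_smul_right, RingHom.id_apply, smul_eq_mul]

theorem phM_V {n : ℕ} (l : Fin d → Fin n → ℂ) (ν : Fin d → ℝ) (i k : Fin d) (Y Z : Mat n) :
    phM l i k (Y * (∑ j, (ν j : ℂ) • vecMulVec (l j) (star (l j))) * Z) =
      ∑ m, phM l i m Y * ν m * phM l m k Z := by
  simp only [phM, LinearMap.coe_mk, AddHom.coe_mk]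
  rw [Finset.mul_sum, Finset.sum_mul, sum_mulVec, dotProduct_sum]
  refine Finset.sum_congr rfl fun m _ => ?_
  rw [mul_smul_comm, smul_mul_assoc, smul_mulVec, ← mulVec_mulVec, ← mulVec_mulVec,
    vecMulVec_mulVec, dotProduct_smul]
  have h1 : Y *ᵥ (MulOpposite.op (star (l m) ⬝ᵥ Z *ᵥ l k) • l m) =
      (star (l m) ⬝ᵥ Z *ᵥ l k) • (Y *ᵥ l m) := by
    rw [op_smul_eq_smul, mulVec_smul]
  rw [h1, dotProduct_smul, smul_eq_mul, smul_eq_mul]
  ring

theorem phO_V {H : Type v} [NormedAddCommGroup H] [InnerProductSpace ℂ H] [CompleteSpace H]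
    (l : Fin d → H) (ν : Fin d → ℝ) (i k : Fin d) (Y Z : H →L[ℂ] H) :
    phO l i k (Y * frO ν l * Z) = ∑ m, phO l i m Y * ν m * phO l m k Z := by
  simp only [phO, LinearMap.coe_mk, AddHom.coe_mk]
  unfold frO
  rw [Finset.mul_sum, Finset.sum_mul, _root_.sum_apply, inner_sum]
  refine Finset.sum_congr rfl fun m _ => ?_
  rw [mul_smul_comm, smul_mul_assoc, _root_.smul_apply, inner_smul_right]
  have h1 : (Y * (InnerProductSpace.rankOne ℂ (l m) (l m)) * Z) (l k) =
      inner ℂ (l m) (Z (l k)) • Y (l m) := by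
    rw [← map_smul]
    rfl
  rw [h1, inner_smul_right]
  ring

open scoped MatrixOrder in
theorem exists_sq {W : Mat d} (hW : W.PosSemidef) : ∃ Q : Mat d, W = Qᴴ * Q :=
  CStarAlgebra.nonneg_iff_eq_star_mul_self.mp hW.nonneg

end OCAux

open OCAux

theorem stmt_OC (hA : Stmt_OA) (hB : Stmt_OB.{v}) : Stmt_OC.{v} := by
  obtain ⟨C, hC0, hC⟩ := hA
  refine ⟨C, hC0, ?_⟩
  intro H _ _ _ X S hX hS hXS d ν l p R L hR hL hp
  choose m x s W hx hs hW hG happ using fun n : ℕ => hB H X S hX hS hXS d l n (1 / ((n : ℝ) + 1))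
    (by positivity)
  choose Q hQ using fun n a => exists_sq (hW n a)
  have hent : ∀ n a i j, W n a i j = ∑ k, star (Q n a k i) * Q n a k j := by
    intro n a i j
    rw [hQ n a, Matrix.mul_apply]
    rfl
  -- model
  let e : ∀ n, Fin (m n) × Fin d ≃ Fin (m n * d) := fun n => finProdFinEquiv
  let x' : ∀ n, Fin (m n * d) → ℝ := fun n i => x n ((e n).symm i).1
  let s' : ∀ n, Fin (m n * d) → ℝ := fun n i => s n ((e n).symm i).1
  let l' : ∀ n, Fin d → Fin (m n * d) → ℂ := fun n j i => Q n ((e n).symm i).1 ((e n).symm i).2 j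
  -- sums over the model
  have hsum : ∀ n (f : Fin (m n) → ℂ) (i j : Fin d),
      star (l' n i) ⬝ᵥ (fun t => f ((e n).symm t).1 * l' n j t) = ∑ a, f a * W n a i j := by
    intro n f i j
    rw [dotProduct, ← (e n).sum_comp, Fintype.sum_prod_type]
    refine Finset.sum_congr rfl fun a _ => ?_
    rw [hent, Finset.mul_sum]
    refine Finset.sum_congr rfl fun k _ => ?_
    simp only [l', Pi.star_apply, Equiv.symm_apply_apply]
    ring
  have hpow : ∀ n (b : ℕ) (i j : Fin d), phM (l' n) i j (dg (x' n) ^ b) =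
      ∑ a, (x n a : ℂ) ^ b * W n a i j := by
    intro n b i j
    rw [← hsum n (fun a => (x n a : ℂ) ^ b) i j]
    simp only [phM, LinearMap.coe_mk, AddHom.coe_mk, dg]
    rw [diagonal_pow]
    congr 1
    ext t
    rw [mulVec_diagonal]
    rfl
  have hpow' : ∀ n (b : ℕ) (i j : Fin d), phM (l' n) i j (dg (x' n) ^ b * dg (s' n)) =
      ∑ a, (x n a : ℂ) ^ b * s n a * W n a i j := by
    intro n b i j
    rw [← hsum n (fun a => (x n a : ℂ) ^ b * s n a) i j]
    simp only [phM, LinearMap.coe_mk, AddHom.coe_mk, dg]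
    rw [diagonal_pow, diagonal_mul_diagonal]
    congr 1
    ext t
    rw [mulVec_diagonal]
    rfl
  have hnorm : ∀ n j, ∑ i, ‖l' n j i‖ ^ 2 = ‖l j‖ ^ 2 := by
    intro n j
    have h1 : ((∑ i, ‖l' n j i‖ ^ 2 : ℝ) : ℂ) = ((‖l j‖ ^ 2 : ℝ) : ℂ) := by
      have h2 := hsum n (fun _ => 1) j j
      simp only [one_mul] at h2
      rw [hG n j j, inner_self_eq_norm_sq_to_K] at h2
      push_cast
      refine Eq.trans ?_ h2
      rw [dotProduct]
      refine Finset.sum_congr rfl fun i _ => ?_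
      rw [Pi.star_apply, ← Complex.conj_mul']
      rfl
    exact_mod_cast h1
  set ρ : ℝ := ∑ j, |ν j| * ‖l j‖ ^ 2 with hρ
  have hbound : ∀ n, ‖TT ν (fun b => Matrix.of fun i k => phM (l' n) i k (dg (x' n) ^ b))
      (fun b => Matrix.of fun i k => phM (l' n) i k (dg (x' n) ^ b * dg (s' n))) p‖ ≤
      C * L * ‖S‖ * ρ := by
    intro n
    have h1 := hC (m n * d) d (x' n) (s' n) ν (l' n) p R L ‖S‖ ?_ hL (norm_nonneg _) ?_ hp
    · rw [trace_eq] at h1
      have hcomm : dg (x' n) * dg (s' n) = dg (s' n) * dg (x' n) := by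
        simp only [dg, diagonal_mul_diagonal, mul_comm]
      have h2 := TT_eq (phM (l' n)) ν _ (dg (x' n)) (dg (s' n)) (phM_V (l' n) ν) hcomm p
      simp only [hnorm] at h1
      rw [← h2]
      exact h1
    · intro i
      simp only [hnorm]
      exact (add_le_add_left (hx n _) _).trans hR
    · intro i
      exact hs n _
  have hlim : Tendsto (fun n => TT ν (fun b => Matrix.of fun i k => phM (l' n) i k (dg (x' n) ^ b))
      (fun b => Matrix.of fun i k => phM (l' n) i k (dg (x' n) ^ b * dg (s' n))) p) atTop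
      (nhds (TT ν (fun b => Matrix.of fun i k => phO l i k (X ^ b))
        (fun b => Matrix.of fun i k => phO l i k (X ^ b * S)) p)) := by
    refine TT_tendsto (fun b => ?_) (fun b => ?_) p
    · refine tendsto_pi_nhds.2 fun i => tendsto_pi_nhds.2 fun j => ?_
      simp only [Matrix.of_apply]
      rw [tendsto_iff_norm_sub_tendsto_zero]
      refine squeeze_zero' (Eventually.of_forall fun _ => norm_nonneg _)
        (eventually_atTop.2 ⟨b, fun n hn => ?_⟩) tendsto_one_div_add_atTop_nhds_zero_nat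
      rw [hpow]
      exact (happ n b hn i j).1
    · refine tendsto_pi_nhds.2 fun i => tendsto_pi_nhds.2 fun j => ?_
      simp only [Matrix.of_apply]
      rw [tendsto_iff_norm_sub_tendsto_zero]
      refine squeeze_zero' (Eventually.of_forall fun _ => norm_nonneg _)
        (eventually_atTop.2 ⟨b, fun n hn => ?_⟩) tendsto_one_div_add_atTop_nhds_zero_nat
      rw [hpow']
      exact (happ n b hn i j).2
  have hfin : TP (frF ν l) X (X + frO ν l) S p =
      TT ν (fun b => Matrix.of fun i k => phO l i k (X ^ b))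
        (fun b => Matrix.of fun i k => phO l i k (X ^ b * S)) p :=
    TT_eq (phO l) ν (frO ν l) X S (phO_V l ν) hXS p
  rw [hfin]
  exact le_of_tendsto hlim.norm (Eventually.of_forall hbound)

end Pool.LG
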