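import Pool.Agent.Work.LipGraph.Op.OC

/-!
# Block OD: nuclear perturbations
-/

open Matrix MeasureTheory Filter
open scoped ComplexOrder InnerProductSpace

namespace Pool.LG

open Pool.PN

universe v

namespace ODAux

variable {H : Type v} [NormedAddCommGroup H] [InnerProductSpace ℂ H] [CompleteSpace H]

/-- powers, with the explicit functional -/
theorem pow_ex {X X' : H →L[ℂ] H} {δ : ℝ} {τ : (H →L[ℂ] H) →ₗ[ℂ] ℂ} (hA : Nuc (X' - X) δ τ)
    (k : ℕ) : ∃ N τk, Nuc (X' ^ k - X ^ k) N τk ∧ ∀ S, τk S = Tk τ X X' S k := by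
  induction k with
  | zero =>
    refine ⟨0, 0, by simpa using Nuc.zero, fun S => ?_⟩
    simp [Tk]
  | succ k ih =>
    obtain ⟨N, τk, h1, h2⟩ := ih
    have e1 : X' ^ (k + 1) - X ^ (k + 1) = X' ^ k * (X' - X) * 1 + 1 * (X' ^ k - X ^ k) * X := by
      rw [pow_succ, pow_succ]; noncomm_ring
    have h3 := (hA.lr (X' ^ k) 1).add (h1.lr 1 X)
    rw [← e1] at h3
    refine ⟨_, _, h3, fun S => ?_⟩
    rw [LinearMap.add_apply, lrF_apply, lrF_apply, h2, one_mul, mul_one]
    unfold Tk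
    rw [Finset.sum_range_succ, add_comm]
    congr 1
    · refine Finset.sum_congr rfl fun j hj => ?_
      rw [Finset.mem_range] at hj
      rw [show k + 1 - 1 - j = (k - 1 - j) + 1 by omega, pow_succ, mul_assoc (X ^ _) X S]
    · simp

theorem ev_sum {A : Type*} [Ring A] [Algebra ℂ A] (Y : A) (p : Polynomial ℝ) :
    ev Y p = ∑ k ∈ p.support, ((p.coeff k : ℝ) : ℂ) • Y ^ k := by
  have h2 : ev Y p = p.sum fun k c => (c : ℂ) • Y ^ k := by
    unfold ev
    rw [Polynomial.aeval_eq_sum_range' (n := p.natDegree + 1)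
      (Nat.lt_succ_of_le (Polynomial.natDegree_map_le))]
    rw [Polynomial.sum_over_range' _ (fun k => by simp) (p.natDegree + 1) (Nat.lt_succ_self _)]
    refine Finset.sum_congr rfl fun k _ => ?_
    rw [Polynomial.coeff_map]
    rfl
  rw [h2, Polynomial.sum_def]

theorem nuc_sum {κ : Type*} (s : Finset κ) (T : κ → H →L[ℂ] H) (N : κ → ℝ)
    (τ : κ → (H →L[ℂ] H) →ₗ[ℂ] ℂ) (h : ∀ k ∈ s, Nuc (T k) (N k) (τ k)) :
    Nuc (∑ k ∈ s, T k) (∑ k ∈ s, N k) (∑ k ∈ s, τ k) := by
  classical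
  induction s using Finset.induction_on with
  | empty => simpa using Nuc.zero
  | insert a s ha ih =>
    rw [Finset.sum_insert ha, Finset.sum_insert ha, Finset.sum_insert ha]
    exact (h a (Finset.mem_insert_self _ _)).add
      (ih fun k hk => h k (Finset.mem_insert_of_mem hk))

theorem pol_ex {X X' : H →L[ℂ] H} {δ : ℝ} {τ : (H →L[ℂ] H) →ₗ[ℂ] ℂ} (hA : Nuc (X' - X) δ τ)
    (p : Polynomial ℝ) : ∃ N τp, Nuc (ev X' p - ev X p) N τp ∧ ∀ S, τp S = TP τ X X' S p := by
  choose N τk h1 h2 using pow_ex hA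
  refine ⟨∑ k ∈ p.support, ‖((p.coeff k : ℝ) : ℂ)‖ * N k,
    ∑ k ∈ p.support, ((p.coeff k : ℝ) : ℂ) • τk k, ?_, fun S => ?_⟩
  · rw [ev_sum, ev_sum, ← Finset.sum_sub_distrib]
    refine nuc_sum p.support _ (fun k => ‖((p.coeff k : ℝ) : ℂ)‖ * N k)
      (fun k => ((p.coeff k : ℝ) : ℂ) • τk k) fun k _ => ?_
    rw [← smul_sub]
    exact (h1 k).smul _
  · rw [LinearMap.sum_apply]
    unfold TP
    rw [Polynomial.sum_def]
    refine Finset.sum_congr rfl fun k _ => ?_
    rw [LinearMap.smul_apply, h2, smul_eq_mul]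

end ODAux

open ODAux

theorem stmt_OD (hC : Stmt_OC.{v}) : Stmt_OD.{v} := by
  obtain ⟨C, hC0, hC⟩ := hC
  refine ⟨C, hC0, ?_⟩
  intro H _ _ _ X X' S hX hS hXS M hser p R L hR hL hp
  obtain ⟨ν, l, hs, hM, hV⟩ := hser
  -- nuclear series
  have hxy : ∀ k, ‖(ν k : ℂ) • l k‖ * ‖l k‖ = |ν k| * ‖l k‖ ^ 2 := by
    intro k
    rw [norm_smul, Complex.norm_real, Real.norm_eq_abs]
    ring
  have hs' : Summable fun k => ‖(ν k : ℂ) • l k‖ * ‖l k‖ := by
    simp only [hxy]; exact hs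
  have hT : ∀ z, HasSum (fun k => inner ℂ (l k) z • ((ν k : ℂ) • l k)) ((X' - X) z) := by
    intro z
    refine (hV z).congr_fun ?_ |> id
    intro k
    rw [smul_smul, mul_comm]
  have hnuc := nuc_series hs' hT
  set τ := serF (fun k => (ν k : ℂ) • l k) l hs' with hτ
  obtain ⟨N, τp, h1, h2⟩ := pol_ex hnuc p
  refine ⟨N, τp, h1, ?_⟩
  rw [h2 S]
  -- truncations
  have hM0 : 0 ≤ M := le_trans (tsum_nonneg fun k => by positivity) hM
  have hpart : ∀ n : ℕ, ∑ j : Fin n, |ν j| * ‖l j‖ ^ 2 ≤ M := by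
    intro n
    rw [Fin.sum_univ_eq_sum_range (fun j => |ν j| * ‖l j‖ ^ 2) n]
    exact (hs.sum_le_tsum _ fun k _ => by positivity).trans hM
  have hb : ∀ n : ℕ, ‖TP (frF (fun j : Fin n => ν j) (fun j : Fin n => l j)) X
      (X + frO (fun j : Fin n => ν j) (fun j : Fin n => l j)) S p‖ ≤ C * L * ‖S‖ * M := by
    intro n
    refine (hC H X S hX hS hXS n (fun j => ν j) (fun j => l j) p R L ?_ hL hp).trans ?_
    · exact (add_le_add_right (hpart n) _).trans hR
    · have := hpart n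
      gcongr
  -- convergence of the operators
  have hO : Tendsto (fun n : ℕ => frO (fun j : Fin n => ν j) (fun j : Fin n => l j)) atTop
      (nhds (X' - X)) := by
    have h3 : Summable fun k => (ν k : ℂ) • InnerProductSpace.rankOne ℂ (l k) (l k) := by
      refine Summable.of_norm_bounded (g := fun k => |ν k| * ‖l k‖ ^ 2) hs fun k => ?_
      rw [norm_smul, InnerProductSpace.norm_rankOne, Complex.norm_real, Real.norm_eq_abs]
      apply le_of_eq; ring
    have h4 : ∑' k, (ν k : ℂ) • InnerProductSpace.rankOne ℂ (l k) (l k) = X' - X := by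
      ext z
      have h5 := (h3.hasSum.map (ContinuousLinearMap.apply ℂ H z)
        (ContinuousLinearMap.apply ℂ H z).continuous)
      refine h5.unique ((hV z).congr_fun ?_ |> id)
      intro k
      simp only [Function.comp, ContinuousLinearMap.apply_apply, _root_.smul_apply,
        InnerProductSpace.rankOne_apply, smul_smul]
    have h6 := h3.hasSum.tendsto_sum_nat
    rw [h4] at h6
    refine h6.congr fun n => ?_
    unfold frO
    rw [Fin.sum_univ_eq_sum_range (fun j => (ν j : ℂ) • InnerProductSpace.rankOne ℂ (l j) (l j)) n]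
  -- convergence of the functionals
  have hF : ∀ Y : H →L[ℂ] H, Tendsto (fun n : ℕ => frF (fun j : Fin n => ν j)
      (fun j : Fin n => l j) Y) atTop (nhds (τ Y)) := by
    intro Y
    have h3 := (summ_aux hs' Y).hasSum.tendsto_sum_nat
    refine h3.congr fun n => ?_
    change _ = ∑ j : Fin n, ((ν j : ℝ) : ℂ) * inner ℂ (l j) (Y (l j))
    rw [Fin.sum_univ_eq_sum_range (fun j => ((ν j : ℝ) : ℂ) * inner ℂ (l j) (Y (l j))) n]
    refine Finset.sum_congr rfl fun j _ => ?_
    rw [map_smul, inner_smul_right]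
  have hFb : ∀ (n : ℕ) (Y : H →L[ℂ] H), ‖frF (fun j : Fin n => ν j) (fun j : Fin n => l j) Y‖ ≤
      M * ‖Y‖ := by
    intro n Y
    change ‖∑ j : Fin n, ((ν j : ℝ) : ℂ) * inner ℂ (l j) (Y (l j))‖ ≤ _
    refine (norm_sum_le _ _).trans ?_
    have h3 : ∀ j : Fin n, ‖((ν j : ℝ) : ℂ) * inner ℂ (l j) (Y (l j))‖ ≤
        |ν j| * ‖l j‖ ^ 2 * ‖Y‖ := by
      intro j
      rw [norm_mul, Complex.norm_real, Real.norm_eq_abs]
      have h4 : ‖inner ℂ (l j) (Y (l j))‖ ≤ ‖l j‖ * (‖Y‖ * ‖l j‖) :=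
        (norm_inner_le_norm _ _).trans (by gcongr; exact Y.le_opNorm _)
      calc |ν j| * ‖inner ℂ (l j) (Y (l j))‖ ≤ |ν j| * (‖l j‖ * (‖Y‖ * ‖l j‖)) := by gcongr
        _ = _ := by ring
    refine (Finset.sum_le_sum fun j _ => h3 j).trans ?_
    rw [← Finset.sum_mul]
    have := hpart n
    gcongr
  have hFY : ∀ (Y : ℕ → H →L[ℂ] H) (Y₀ : H →L[ℂ] H), Tendsto Y atTop (nhds Y₀) →
      Tendsto (fun n : ℕ => frF (fun j : Fin n => ν j) (fun j : Fin n => l j) (Y n)) atTop
        (nhds (τ Y₀)) := by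
    intro Y Y₀ hY
    have h3 : Tendsto (fun n : ℕ => frF (fun j : Fin n => ν j) (fun j : Fin n => l j) (Y n - Y₀))
        atTop (nhds 0) := by
      refine squeeze_zero_norm (fun n => hFb n _) ?_
      have h4 := (tendsto_iff_norm_sub_tendsto_zero.1 hY).const_mul M
      simpa using h4
    have h5 := h3.add (hF Y₀)
    rw [zero_add] at h5
    refine h5.congr fun n => ?_
    rw [map_sub, sub_add_cancel]
  have hlim : Tendsto (fun n : ℕ => TP (frF (fun j : Fin n => ν j) (fun j : Fin n => l j)) X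
      (X + frO (fun j : Fin n => ν j) (fun j : Fin n => l j)) S p) atTop
      (nhds (TP τ X X' S p)) := by
    unfold TP Tk
    simp only [Polynomial.sum_def]
    refine tendsto_finsetSum _ fun k _ => tendsto_const_nhds.mul ?_
    refine tendsto_finsetSum _ fun j _ => ?_
    refine hFY (fun n => X ^ (k - 1 - j) * S * (X + frO (fun j : Fin n => ν j)
      (fun j : Fin n => l j)) ^ j) _ ?_
    have h7 := (tendsto_const_nhds (x := X)).add hO
    rw [add_sub_cancel] at h7
    exact tendsto_const_nhds.mul (h7.pow j)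
  exact le_of_tendsto hlim.norm (Eventually.of_forall hb)

end Pool.LG
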