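import Pool.Agent.Work.LipGraph.Op.OFA

/-!
# Block OF: Theorem LG for polynomials
-/

open Matrix MeasureTheory Filter
open scoped ComplexOrder InnerProductSpace

namespace Pool.LG

open Pool.PN Pool.FR.FAux ODAux OFAux

universe v

namespace OFAux

variable {H : Type v} [NormedAddCommGroup H] [InnerProductSpace ℂ H] [CompleteSpace H]

/-- `Z, Z'` have norm at most `b^k` and `Z' - Z` is nuclear with bound `k b^k N` -/
def PD (b N : ℝ) (k : ℕ) (Z Z' : H →L[ℂ] H) : Prop :=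
  ‖Z‖ ≤ b ^ k ∧ ‖Z'‖ ≤ b ^ k ∧ ∃ τ, Nuc (Z' - Z) (k * b ^ k * N) τ

theorem PD.mul {b N : ℝ} (hb : 1 ≤ b) (hN : 0 ≤ N) {i j : ℕ} {Z Z' Y Y' : H →L[ℂ] H}
    (h : PD b N i Z Z') (h' : PD b N j Y Y') : PD b N (i + j) (Z * Y) (Z' * Y') := by
  obtain ⟨h1, h2, τ, h3⟩ := h
  obtain ⟨h1', h2', τ', h3'⟩ := h'
  have hb0 : 0 ≤ b := by linarith
  refine ⟨?_, ?_, ?_⟩
  · rw [pow_add]
    exact (norm_mul_le _ _).trans (by gcongr)
  · rw [pow_add]
    exact (norm_mul_le _ _).trans (by gcongr)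
  · have e1 : Z' * Y' - Z * Y = Z' * (Y' - Y) * 1 + 1 * (Z' - Z) * Y := by noncomm_ring
    have h4 := (h3'.lr Z' 1).add (h3.lr 1 Y)
    rw [← e1] at h4
    refine ⟨_, h4.mono ?_⟩
    calc ‖Z'‖ * (j * b ^ j * N) * ‖(1 : H →L[ℂ] H)‖ + ‖(1 : H →L[ℂ] H)‖ * (i * b ^ i * N) * ‖Y‖
        ≤ b ^ i * (j * b ^ j * N) * 1 + 1 * (i * b ^ i * N) * b ^ j := by
          gcongr
          · exact one_norm
          · exact one_norm
      _ = _ := by push_cast; ring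

theorem PD.one {b N : ℝ} : PD b N 0 (1 : H →L[ℂ] H) 1 := by
  refine ⟨by rw [pow_zero]; exact one_norm, by rw [pow_zero]; exact one_norm, 0, ?_⟩
  simpa using Nuc.zero

theorem PD.pow {b N : ℝ} (hb : 1 ≤ b) (hN : 0 ≤ N) {Z Z' : H →L[ℂ] H} (h : PD b N 1 Z Z')
    (k : ℕ) : PD b N k (Z ^ k) (Z' ^ k) := by
  induction k with
  | zero => simpa using PD.one
  | succ k ih =>
    rw [pow_succ, pow_succ]
    exact ih.mul hb hN h

/-- the constant of the nuclear estimate for `k` -/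
noncomputable def Cf (f : MvPolynomial (Fin 2) ℝ) (b : ℝ) : ℝ :=
  ∑ m ∈ f.support, ‖((f.coeff m : ℝ) : ℂ)‖ *
    ∑ j ∈ Finset.range (m 1), ((m 0 + (j + (m 1 - 1 - j)) : ℕ) : ℝ) *
      b ^ (m 0 + (j + (m 1 - 1 - j)))

theorem Cf_nonneg (f : MvPolynomial (Fin 2) ℝ) {b : ℝ} (hb : 1 ≤ b) : 0 ≤ Cf f b := by
  have : 0 ≤ b := by linarith
  unfold Cf
  positivity

theorem kk_nuc (f : MvPolynomial (Fin 2) ℝ) {b N : ℝ} (hb : 1 ≤ b) (hN : 0 ≤ N)
    {X X' Y Y' W W' : H →L[ℂ] H} (hX : PD b N 1 X X') (hY : PD b N 1 Y Y') (hW : PD b N 1 W W') :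
    ∃ τ, Nuc (kk f X' Y' W' - kk f X Y W) (Cf f b * N) τ := by
  have h1 : ∀ m : Fin 2 →₀ ℕ, ∀ j : ℕ, ∃ τ : (H →L[ℂ] H) →ₗ[ℂ] ℂ,
      Nuc (X' ^ (m 0) * (Y' ^ j * W' ^ (m 1 - 1 - j)) - X ^ (m 0) * (Y ^ j * W ^ (m 1 - 1 - j)))
        (((m 0 + (j + (m 1 - 1 - j)) : ℕ) : ℝ) * b ^ (m 0 + (j + (m 1 - 1 - j))) * N) τ := by
    intro m j
    exact ((hX.pow hb hN (m 0)).mul hb hN ((hY.pow hb hN j).mul hb hN
      (hW.pow hb hN (m 1 - 1 - j)))).2.2
  choose τ hτ using h1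
  refine ⟨∑ m ∈ f.support, ((f.coeff m : ℝ) : ℂ) • ∑ j ∈ Finset.range (m 1), τ m j, ?_⟩
  have h2 : kk f X' Y' W' - kk f X Y W = ∑ m ∈ f.support, ((f.coeff m : ℝ) : ℂ) •
      ∑ j ∈ Finset.range (m 1), (X' ^ (m 0) * (Y' ^ j * W' ^ (m 1 - 1 - j)) -
        X ^ (m 0) * (Y ^ j * W ^ (m 1 - 1 - j))) := by
    unfold kk
    rw [← Finset.sum_sub_distrib]
    refine Finset.sum_congr rfl fun m _ => ?_
    rw [← smul_sub, Finset.mul_sum, Finset.mul_sum, ← Finset.sum_sub_distrib]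
  have h3 : Cf f b * N = ∑ m ∈ f.support, ‖((f.coeff m : ℝ) : ℂ)‖ *
      ∑ j ∈ Finset.range (m 1), (((m 0 + (j + (m 1 - 1 - j)) : ℕ) : ℝ) *
        b ^ (m 0 + (j + (m 1 - 1 - j))) * N) := by
    unfold Cf
    rw [Finset.sum_mul]
    refine Finset.sum_congr rfl fun m _ => ?_
    rw [mul_assoc, Finset.sum_mul]
  rw [h2, h3]
  refine nuc_sum _ _ _ _ fun m _ => ?_
  refine Nuc.smul _ ?_
  exact nuc_sum _ _ _ _ fun j _ => hτ m j

theorem ser_nuc {V : H →L[ℂ] H} {M : ℝ} (h : Ser V M) : ∃ τ, Nuc V M τ := by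
  obtain ⟨ν, l, hs, hM, hV⟩ := h
  have hxy : ∀ k, ‖(ν k : ℂ) • l k‖ * ‖l k‖ = |ν k| * ‖l k‖ ^ 2 := by
    intro k
    rw [norm_smul, Complex.norm_real, Real.norm_eq_abs]
    ring
  have hs' : Summable fun k => ‖(ν k : ℂ) • l k‖ * ‖l k‖ := by
    simp only [hxy]; exact hs
  have hT : ∀ z, HasSum (fun k => inner ℂ (l k) z • ((ν k : ℂ) • l k)) (V z) := by
    intro z
    refine (hV z).congr_fun ?_ |> id
    intro k
    rw [smul_smul, mul_comm]
  refine ⟨_, (nuc_series hs' hT).mono ?_⟩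
  simp only [hxy]
  exact hM

theorem Ser.neg {V : H →L[ℂ] H} {M : ℝ} (h : Ser V M) : Ser (-V) M := by
  obtain ⟨ν, l, hs, hM, hV⟩ := h
  refine ⟨fun k => -ν k, l, ?_, ?_, fun z => ?_⟩
  · simpa using hs
  · simpa using hM
  · have h1 := (hV z).neg
    rw [_root_.neg_apply]
    refine h1.congr_fun ?_ |> id
    intro k
    push_cast
    rw [neg_mul, neg_smul]

/-- the derivative of `g(x) = f(x, p(x))` -/
theorem gg_deriv (f : MvPolynomial (Fin 2) ℝ) (p : Polynomial ℝ) {K : NNReal} {R R1 c b : ℝ}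
    (hc : 0 ≤ c) (hf : LipschitzOnWith K (fun z : ℂ => MvPolynomial.eval ![z.re, z.im] f)
      (Metric.closedBall 0 R)) (hp : ∀ t, |t| ≤ R1 → |p.derivative.eval t| ≤ c)
    (hb : ∀ t, |t| ≤ R1 → |p.eval t| ≤ b) (hR : R1 + b ≤ R) {t : ℝ} (ht : |t| < R1) :
    |(gg f p).derivative.eval t| ≤ K * (1 + c) := by
  have hev : ∀ s : ℝ, (gg f p).eval s = MvPolynomial.eval ![s, p.eval s] f := by
    intro s
    rw [eval_two, gg, Polynomial.eval_finsetSum]
    refine Finset.sum_congr rfl fun m _ => ?_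
    simp
  have hlip : ∀ s, |s| ≤ R1 → |p.eval s - p.eval t| ≤ c * |s - t| := by
    intro s hs
    have h1 : ∀ x ∈ Set.Icc (-R1) R1, HasDerivWithinAt (fun u => p.eval u) (p.derivative.eval x)
        (Set.Icc (-R1) R1) x := fun x _ => (p.hasDerivAt x).hasDerivWithinAt
    have h2 := Convex.norm_image_sub_le_of_norm_hasDerivWithin_le h1
      (fun x hx => by rw [Real.norm_eq_abs]; exact hp x (abs_le.2 hx)) (convex_Icc _ _)
      (abs_le.1 ht.le) (abs_le.1 hs)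
    simpa [Real.norm_eq_abs] using h2
  have hmem : ∀ s, |s| ≤ R1 → (⟨s, p.eval s⟩ : ℂ) ∈ Metric.closedBall (0 : ℂ) R := by
    intro s hs
    rw [mem_closedBall_zero_iff]
    refine (Complex.norm_le_abs_re_add_abs_im _).trans ?_
    exact (add_le_add hs (hb s hs)).trans hR
  have hg : ∀ s, |s| ≤ R1 → ‖(gg f p).eval s - (gg f p).eval t‖ ≤ (K * (1 + c)) * ‖s - t‖ := by
    intro s hs
    rw [hev, hev]
    have h1 := hf.dist_le_mul _ (hmem s hs) _ (hmem t ht.le)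
    rw [dist_eq_norm, dist_eq_norm] at h1
    refine h1.trans ?_
    rw [mul_assoc]
    gcongr
    refine (Complex.norm_le_abs_re_add_abs_im _).trans ?_
    have h2 := hlip s hs
    simp only [Complex.sub_re, Complex.sub_im, Real.norm_eq_abs]
    linarith
  have hev' : ∀ᶠ s in nhds t, ‖(gg f p).eval s - (gg f p).eval t‖ ≤ (K * (1 + c)) * ‖s - t‖ := by
    have h3 : ∀ᶠ s : ℝ in nhds t, |s| < R1 :=
      continuous_abs.continuousAt.eventually_lt continuousAt_const ht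
    filter_upwards [h3] with s hs
    exact hg s hs.le
  have h4 := ((gg f p).hasDerivAt t).le_of_lip' (by positivity) hev'
  rwa [Real.norm_eq_abs] at h4

end OFAux

theorem stmt_OF (hD : Stmt_OD.{v}) (hE : Stmt_OE.{v}) : Stmt_OF.{v} := by
  obtain ⟨C, hC0, hC⟩ := hD
  refine ⟨2 * C + 1, by positivity, ?_⟩
  intro H _ _ _ X Y X' Y' hX hY hX' hY' hc hc' M hSX hSY φ L hφ hsp
  obtain ⟨τX, hNX⟩ := ser_nuc hSX
  obtain ⟨τY, hNY⟩ := ser_nuc hSY
  have hM := hNX.nonneg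
  -- radii
  set R1 : ℝ := ‖X‖ + ‖Y‖ + ‖X'‖ + ‖Y'‖ + M + 2 with hR1
  have nX := norm_nonneg X
  have nY := norm_nonneg Y
  have nX' := norm_nonneg X'
  have nY' := norm_nonneg Y'
  have hR1pos : 0 < R1 := by rw [hR1]; positivity
  set R2 : ℝ := |φ 0| + L * R1 + 1 with hR2
  have hR2pos : 0 < R2 := by rw [hR2]; positivity
  refine ⟨2 * R1 + R2 + 1, by positivity, fun f K hf δ hδ => ?_⟩
  set b : ℝ := R1 + R2 with hb
  have hb1 : 1 ≤ b := by rw [hb, hR1]; linarith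
  set Q : ℝ := 2 * C * K * M + 2 * Cf f b * M + 1 with hQ
  have hCf := Cf_nonneg f hb1
  have hQ1 : 1 ≤ Q := by
    rw [hQ]
    have : 0 ≤ 2 * C * K * M + 2 * Cf f b * M := by positivity
    linarith
  set η : ℝ := min 1 (δ / Q) with hη
  have hη0 : 0 < η := lt_min one_pos (by positivity)
  have hη1 : η ≤ 1 := min_le_left _ _
  have hηQ : η * Q ≤ δ := by
    have : η ≤ δ / Q := min_le_right _ _
    rwa [le_div_iff₀ (by linarith)] at this
  obtain ⟨p, ε, Λ, hε0, hΛ0, hεη, hεΛ, hp1, hp2, hp3⟩ := hE φ L hφ R1 η hR1pos hη0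
  -- bounds for p
  have hpb : ∀ t, |t| ≤ R1 → |p.eval t| ≤ R2 := by
    intro t ht
    have h1 := hp2 t ht
    have h2 := hφ.dist_le_mul t 0
    rw [Real.dist_eq, Real.dist_eq, sub_zero] at h2
    have h3 : |p.eval t| ≤ |p.eval t - φ t| + |φ t - φ 0| + |φ 0| := by
      have := abs_add_three (p.eval t - φ t) (φ t - φ 0) (φ 0)
      simpa using this
    have h4 : (L : ℝ) * |t| ≤ L * R1 := by gcongr
    rw [hR2]
    linarith
  -- spectra
  have hN : ‖NN X Y‖ ≤ ‖X‖ + ‖Y‖ := by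
    unfold NN
    refine (norm_add_le _ _).trans ?_
    rw [norm_smul, Complex.norm_I, one_mul]
  have hN' : ‖NN X' Y'‖ ≤ ‖X'‖ + ‖Y'‖ := by
    unfold NN
    refine (norm_add_le _ _).trans ?_
    rw [norm_smul, Complex.norm_I, one_mul]
  have hre : ∀ z ∈ spectrum ℂ (NN X Y), |z.re| ≤ R1 := by
    intro z hz
    have := (Complex.abs_re_le_norm z).trans (spec_bound hz)
    rw [hR1]; linarith
  have hre' : ∀ z ∈ spectrum ℂ (NN X' Y'), |z.re| ≤ ‖X'‖ + ‖Y'‖ ∧ |z.im| ≤ ‖X'‖ + ‖Y'‖ := by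
    intro z hz
    exact ⟨(Complex.abs_re_le_norm z).trans ((spec_bound hz).trans hN'),
      (Complex.abs_im_le_norm z).trans ((spec_bound hz).trans hN')⟩
  have hre1' : ∀ z ∈ spectrum ℂ (NN X' Y'), |z.re| ≤ R1 := by
    intro z hz
    have := (hre' z hz).1
    rw [hR1]; linarith
  -- W
  set W : H →L[ℂ] H := ev X p with hW
  set W' : H →L[ℂ] H := ev X' p with hW'
  have hWn : ‖W‖ ≤ R2 := (W_spec hX hY hc p).1 R2 hR2pos.le fun z hz => hpb _ (hre z hz)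
  have hWn' : ‖W'‖ ≤ R2 := (W_spec hX' hY' hc' p).1 R2 hR2pos.le fun z hz => hpb _ (hre1' z hz)
  have hYW : ‖Y - W‖ ≤ ε := by
    refine (W_spec hX hY hc p).2 ε hε0 fun z hz => ?_
    rw [hsp z hz, abs_sub_comm]
    exact hp2 _ (hre z hz)
  -- k
  have hk := kk_spec hX' hY' hc' f p K.2 (fun z hz => by
    have h1 := hre' z hz
    refine kr_le f hf ?_ ?_
    · rw [hR1]; linarith
    · have h2 := hpb _ (hre1' z hz)
      have h3 := hre1' z hz
      linarith)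
  set k' : H →L[ℂ] H := kk f X' Y' W' with hk'
  have hcomXY' : Commute X' Y' := hc'
  have hcomXY : Commute X Y := hc
  have hcomXW' : Commute X' W' := (ev_comm (Commute.refl X') p).symm
  have hcomXW : Commute X W := (ev_comm (Commute.refl X) p).symm
  have hcomYW' : Commute Y' W' := (ev_comm hcomXY' p).symm
  have hcomYW : Commute Y W := (ev_comm hcomXY p).symm
  have hcomXk : X' * k' = k' * X' := by
    have : Commute X' k' := by
      rw [hk']
      unfold kk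
      refine Commute.sum_right _ _ _ fun m _ => Commute.smul_right ?_ _
      refine Commute.mul_right ((Commute.refl X').pow_right _) ?_
      exact Commute.sum_right _ _ _ fun j _ =>
        Commute.mul_right (hcomXY'.pow_right _) (hcomXW'.pow_right _)
    exact this.eq
  -- T1
  obtain ⟨N1, τ1, hn1, ht1⟩ := hC H X X' 1 hX (IsSelfAdjoint.one _) (by simp) M hSX (gg f p)
    (R1 - 1) (K * (1 + (L + η))) (by rw [hR1]; linarith) (by positivity) (fun t ht =>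
      gg_deriv f p (by positivity) hf hp1 hpb (by linarith) (by linarith))
  rw [ev_gg, ev_gg] at hn1
  -- T2
  have hn2a := hNY.lr 1 k'
  have hSX' : Ser (X - X') M := by
    have := Ser.neg hSX
    rwa [neg_sub] at this
  obtain ⟨N2, τ2, hn2, ht2⟩ := hC H X' X k' hX' hk.1 hcomXk M hSX' p R1 (L + η)
    (by rw [hR1]; linarith) (by positivity) hp1
  have hn2b := hn2.lr 1 k'
  -- T3
  obtain ⟨τW, hnW⟩ := hp3 H X X' hX hX' (by rw [hR1]; linarith) (by rw [hR1]; linarith) M τX hNX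
  have hN3 : ∃ τ3, Nuc (k' - kk f X Y W) (Cf f b * ((1 + Λ) * M)) τ3 := by
    have hbpos : 0 ≤ b := by linarith
    have hNn : 0 ≤ (1 + Λ) * M := by positivity
    have hmon : ∀ {T : H →L[ℂ] H} {N : ℝ} {τ : (H →L[ℂ] H) →ₗ[ℂ] ℂ}, Nuc T N τ →
        N ≤ (1 + Λ) * M → Nuc T ((1 : ℕ) * b ^ 1 * ((1 + Λ) * M)) τ := by
      intro T N τ h hle
      refine h.mono (hle.trans ?_)
      rw [Nat.cast_one, one_mul, pow_one]
      exact le_mul_of_one_le_left hNn hb1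
    refine kk_nuc f hb1 hNn ⟨?_, ?_, τX, hmon hNX ?_⟩ ⟨?_, ?_, τY, hmon hNY ?_⟩
      ⟨?_, ?_, τW, hmon hnW ?_⟩
    · rw [pow_one, hb, hR1]; linarith
    · rw [pow_one, hb, hR1]; linarith
    · nlinarith
    · rw [pow_one, hb, hR1]; linarith
    · rw [pow_one, hb, hR1]; linarith
    · nlinarith
    · rw [pow_one, hb]; linarith
    · rw [pow_one, hb]; linarith
    · nlinarith
  obtain ⟨τ3, hn3⟩ := hN3
  have hn3' := hn3.lr (Y - W) 1
  -- the identity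
  have hid : (∑ m ∈ f.support, ((f.coeff m : ℝ) : ℂ) •
      (X' ^ (m 0) * Y' ^ (m 1) - X ^ (m 0) * Y ^ (m 1))) =
      (ff f X' W' - ff f X W) + (1 * (Y' - Y) * k' + (-1 : ℂ) • (-1 : ℂ) • (1 * (W - W') * k')) +
        (Y - W) * (k' - kk f X Y W) * 1 := by
    have h1 : (∑ m ∈ f.support, ((f.coeff m : ℝ) : ℂ) •
      (X' ^ (m 0) * Y' ^ (m 1) - X ^ (m 0) * Y ^ (m 1))) = ff f X' Y' - ff f X Y := by
      unfold ff
      rw [← Finset.sum_sub_distrib]
      exact Finset.sum_congr rfl fun m _ => smul_sub _ _ _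
    rw [h1, ff_eq f hcomXY' hcomXW' hcomYW', ff_eq f hcomXY hcomXW hcomYW, ← hk']
    rw [smul_smul]
    norm_num
    noncomm_ring
  have htot := (hn1.add (hn2a.add ((hn2b.smul (-1)).smul (-1)))).add hn3'
  rw [← hid] at htot
  refine ⟨_, _, htot, ?_⟩
  rw [LinearMap.add_apply, LinearMap.add_apply, LinearMap.add_apply, LinearMap.smul_apply,
    LinearMap.smul_apply, lrF_apply, lrF_apply, lrF_apply, smul_smul]
  have o1 : ‖(1 : H →L[ℂ] H)‖ ≤ 1 := one_norm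
  have b1 : ‖τ1 1‖ ≤ C * (K * (1 + (L + η))) * 1 * M := ht1.trans (by gcongr)
  have b2 : ‖τY (k' * (1 * 1))‖ ≤ M * K := by
    rw [mul_one, mul_one]
    exact (hNY.bd _).trans (by gcongr; exact hk.2)
  have b3 : ‖τ2 (k' * (1 * 1))‖ ≤ C * (L + η) * K * M := by
    rw [mul_one, mul_one]
    exact ht2.trans (by gcongr; exact hk.2)
  have b4 : ‖τ3 (1 * (1 * (Y - W)))‖ ≤ Cf f b * ((1 + Λ) * M) * ε := by
    rw [one_mul, one_mul]
    exact (hn3.bd _).trans (by gcongr)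
  have b5 : ‖((-1 : ℂ) * (-1 : ℂ)) • τ2 (k' * (1 * 1))‖ ≤ C * (L + η) * K * M := by
    rw [norm_smul]
    simpa using b3
  refine (norm_add_le _ _).trans ?_
  refine (add_le_add ((norm_add_le _ _).trans (add_le_add b1 ((norm_add_le _ _).trans
    (add_le_add b2 b5)))) b4).trans ?_
  have f1 : Cf f b * ((1 + Λ) * M) * ε ≤ 2 * Cf f b * M * η := by
    have : (1 + Λ) * ε ≤ 2 * η := by linarith [mul_comm ε Λ]
    calc Cf f b * ((1 + Λ) * M) * ε = Cf f b * M * ((1 + Λ) * ε) := by ring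
      _ ≤ Cf f b * M * (2 * η) := by gcongr
      _ = _ := by ring
  have f2 : C * (K * (1 + (L + η))) * 1 * M + (M * K + C * (L + η) * K * M) +
      2 * Cf f b * M * η + η ≤ (C * (1 + L) + 1 + C * L) * K * M + η * Q := by
    rw [hQ]
    apply le_of_eq
    ring
  have f3 : (C * (1 + (L : ℝ)) + 1 + C * L) * K * M ≤ (2 * C + 1) * (1 + L) * K * M := by
    have hL : (0 : ℝ) ≤ L := L.2
    have : C * (1 + (L : ℝ)) + 1 + C * L ≤ (2 * C + 1) * (1 + L) := by nlinarith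
    gcongr
  linarith

end Pool.LG
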