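import Pool.Agent.Work.LipGraph.Op.OD

/-!
# Block OF, part A: algebra and functional calculus
-/

open Matrix MeasureTheory Filter
open scoped ComplexOrder InnerProductSpace

namespace Pool.LG

open Pool.PN Pool.FR.FAux ODAux

universe v

namespace OFAux

section algebra

variable {A B : Type*} [Ring A] [Algebra ℂ A] [Ring B] [Algebra ℂ B]

theorem ev_map (ψ : A →ₐ[ℂ] B) (X : A) (p : Polynomial ℝ) : ψ (ev X p) = ev (ψ X) p := by
  unfold ev
  rw [Polynomial.aeval_algHom_apply]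

theorem ev_add (X : A) (p q : Polynomial ℝ) : ev X (p + q) = ev X p + ev X q := by
  simp [ev]

theorem ev_mul (X : A) (p q : Polynomial ℝ) : ev X (p * q) = ev X p * ev X q := by
  simp [ev]

theorem ev_pow (X : A) (p : Polynomial ℝ) (n : ℕ) : ev X (p ^ n) = ev X p ^ n := by
  simp [ev]

theorem ev_X (X : A) : ev X Polynomial.X = X := by simp [ev]

theorem ev_C (X : A) (c : ℝ) : ev X (Polynomial.C c) = (c : ℂ) • 1 := by
  simp [ev, Algebra.algebraMap_eq_smul_one]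

theorem ev_fsum {κ : Type*} (X : A) (s : Finset κ) (p : κ → Polynomial ℝ) :
    ev X (∑ k ∈ s, p k) = ∑ k ∈ s, ev X (p k) := by
  simp [ev, Polynomial.map_sum]

theorem ev_comm {X Y : A} (h : Commute X Y) (p : Polynomial ℝ) : Commute (ev X p) Y := by
  rw [ev_sum]
  exact Commute.sum_left _ _ _ fun k _ => ((h.pow_left k).smul_left _)

theorem ev_real (x : ℝ) (p : Polynomial ℝ) : ev (x : ℂ) p = ((p.eval x : ℝ) : ℂ) := by
  unfold ev
  rw [Polynomial.aeval_def, Polynomial.eval₂_map]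
  have : ((algebraMap ℂ ℂ).comp Complex.ofRealHom) = Complex.ofRealHom := rfl
  rw [this]
  have h2 := Polynomial.hom_eval₂ p (RingHom.id ℝ) Complex.ofRealHom x
  rw [RingHom.comp_id] at h2
  rw [show (x : ℂ) = Complex.ofRealHom x from rfl, ← h2]
  rfl

/-- the divided difference in `y` -/
noncomputable def kk (f : MvPolynomial (Fin 2) ℝ) (X Y W : A) : A :=
  ∑ m ∈ f.support, ((f.coeff m : ℝ) : ℂ) •
    (X ^ (m 0) * ∑ j ∈ Finset.range (m 1), Y ^ j * W ^ (m 1 - 1 - j))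

/-- the polynomial itself -/
noncomputable def ff (f : MvPolynomial (Fin 2) ℝ) (X Y : A) : A :=
  ∑ m ∈ f.support, ((f.coeff m : ℝ) : ℂ) • (X ^ (m 0) * Y ^ (m 1))

/-- `g(x) = f(x, p(x))` -/
noncomputable def gg (f : MvPolynomial (Fin 2) ℝ) (p : Polynomial ℝ) : Polynomial ℝ :=
  ∑ m ∈ f.support, Polynomial.C (f.coeff m) * (Polynomial.X ^ (m 0) * p ^ (m 1))

theorem kk_map (ψ : A →ₐ[ℂ] B) (f : MvPolynomial (Fin 2) ℝ) (X Y W : A) :
    ψ (kk f X Y W) = kk f (ψ X) (ψ Y) (ψ W) := by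
  unfold kk
  rw [map_sum]
  refine Finset.sum_congr rfl fun m _ => ?_
  rw [map_smul, map_mul, map_pow, map_sum]
  congr 2
  exact Finset.sum_congr rfl fun j _ => by rw [map_mul, map_pow, map_pow]

theorem ev_gg (f : MvPolynomial (Fin 2) ℝ) (p : Polynomial ℝ) (X : A) :
    ev X (gg f p) = ff f X (ev X p) := by
  unfold gg ff
  rw [ev_fsum]
  refine Finset.sum_congr rfl fun m _ => ?_
  rw [ev_mul, ev_mul, ev_pow, ev_pow, ev_C, ev_X, smul_mul_assoc, one_mul]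

theorem ff_eq (f : MvPolynomial (Fin 2) ℝ) {X Y W : A} (hXY : Commute X Y) (hXW : Commute X W)
    (hYW : Commute Y W) : ff f X Y = ff f X W + (Y - W) * kk f X Y W := by
  unfold ff kk
  rw [Finset.mul_sum, ← Finset.sum_add_distrib]
  refine Finset.sum_congr rfl fun m _ => ?_
  rw [mul_smul_comm, ← smul_add]
  congr 1
  have h1 := hYW.mul_geom_sum₂ (m 1)
  have h2 : (Y - W) * (X ^ (m 0) * ∑ j ∈ Finset.range (m 1), Y ^ j * W ^ (m 1 - 1 - j)) =
      X ^ (m 0) * ((Y - W) * ∑ j ∈ Finset.range (m 1), Y ^ j * W ^ (m 1 - 1 - j)) := by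
    have h3 : Commute (X ^ (m 0)) (Y - W) := (hXY.sub_right hXW).pow_left _
    rw [← mul_assoc, ← mul_assoc, h3.eq]
  rw [h2, h1, mul_sub]
  abel

end algebra

/-- real version -/
noncomputable def kr (f : MvPolynomial (Fin 2) ℝ) (x y w : ℝ) : ℝ :=
  ∑ m ∈ f.support, f.coeff m * (x ^ (m 0) * ∑ j ∈ Finset.range (m 1), y ^ j * w ^ (m 1 - 1 - j))

theorem kk_real (f : MvPolynomial (Fin 2) ℝ) (x y w : ℝ) :
    kk f (x : ℂ) (y : ℂ) (w : ℂ) = ((kr f x y w : ℝ) : ℂ) := by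
  unfold kk kr
  push_cast
  rfl

theorem eval_two (f : MvPolynomial (Fin 2) ℝ) (x y : ℝ) :
    MvPolynomial.eval ![x, y] f = ∑ m ∈ f.support, f.coeff m * (x ^ (m 0) * y ^ (m 1)) := by
  rw [MvPolynomial.eval_eq']
  refine Finset.sum_congr rfl fun m _ => ?_
  rw [Fin.prod_univ_two]
  rfl

theorem kr_mul (f : MvPolynomial (Fin 2) ℝ) (x y w : ℝ) :
    (y - w) * kr f x y w = MvPolynomial.eval ![x, y] f - MvPolynomial.eval ![x, w] f := by
  rw [eval_two, eval_two, kr, Finset.mul_sum, ← Finset.sum_sub_distrib]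
  refine Finset.sum_congr rfl fun m _ => ?_
  have h1 := (Commute.all y w).mul_geom_sum₂ (m 1)
  linear_combination (f.coeff m * x ^ (m 0)) * h1

theorem kr_cont (f : MvPolynomial (Fin 2) ℝ) (x w : ℝ) : Continuous fun y => kr f x y w := by
  unfold kr; fun_prop

/-- the divided difference is bounded by the Lipschitz constant -/
theorem kr_le (f : MvPolynomial (Fin 2) ℝ) {K : NNReal} {R : ℝ}
    (hf : LipschitzOnWith K (fun z : ℂ => MvPolynomial.eval ![z.re, z.im] f)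
      (Metric.closedBall 0 R)) {x y w : ℝ} (h1 : |x| + |y| < R) (h2 : |x| + |w| < R) :
    |kr f x y w| ≤ K := by
  have key : ∀ y' : ℝ, |x| + |y'| ≤ R → y' ≠ w → |kr f x y' w| ≤ K := by
    intro y' hy' hne
    have hb : ∀ u : ℝ, |x| + |u| ≤ R → (⟨x, u⟩ : ℂ) ∈ Metric.closedBall (0 : ℂ) R := by
      intro u hu
      rw [mem_closedBall_zero_iff]
      exact (Complex.norm_le_abs_re_add_abs_im _).trans hu
    have h3 := hf.dist_le_mul (⟨x, y'⟩ : ℂ) (hb y' hy') (⟨x, w⟩ : ℂ) (hb w h2.le)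
    rw [Real.dist_eq, ← kr_mul, abs_mul] at h3
    have h4 : dist (⟨x, y'⟩ : ℂ) (⟨x, w⟩ : ℂ) = |y' - w| := by
      have h5 : (⟨x, y'⟩ : ℂ) - ⟨x, w⟩ = Complex.I * ((y' - w : ℝ) : ℂ) := by
        apply Complex.ext <;> simp
      rw [Complex.dist_eq, h5, norm_mul, Complex.norm_I, one_mul, Complex.norm_real,
        Real.norm_eq_abs]
    rw [h4, mul_comm] at h3
    exact le_of_mul_le_mul_right h3 (abs_pos.2 (sub_ne_zero.2 hne))
  by_cases hyw : y = w
  · subst hyw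
    have hc : Tendsto (fun y' => |kr f x y' y|) (nhdsWithin y {y}ᶜ) (nhds |kr f x y y|) :=
      ((kr_cont f x y).abs.tendsto y).mono_left nhdsWithin_le_nhds
    refine le_of_tendsto hc ?_
    have ho : ∀ᶠ y' in nhds y, |x| + |y'| < R := by
      have : Continuous fun y' : ℝ => |x| + |y'| := by fun_prop
      exact this.continuousAt.eventually_lt continuousAt_const h1
    filter_upwards [nhdsWithin_le_nhds ho, self_mem_nhdsWithin] with y' h5 h6
    exact key y' h5.le h6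
  · exact key y h1.le hyw

section spec

variable {H : Type v} [NormedAddCommGroup H] [InnerProductSpace ℂ H] [CompleteSpace H]

/-- functional calculus of the pair -/
theorem spec_rep {X Y : H →L[ℂ] H} (hX : IsSelfAdjoint X) (hY : IsSelfAdjoint Y)
    (hc : X * Y = Y * X) :
    ∃ ψ : C(spectrum ℂ (NN X Y), ℂ) →⋆ₐ[ℂ] (H →L[ℂ] H),
      ψ ⟨fun z => ((z : ℂ).re : ℂ), by fun_prop⟩ = X ∧
      ψ ⟨fun z => ((z : ℂ).im : ℂ), by fun_prop⟩ = Y ∧ ∀ F, ‖ψ F‖ = ‖F‖ := by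
  have hN := normal hX hY hc
  refine ⟨cfcHom (R := ℂ) hN, ?_, ?_, fun F => norm_cfcHom (NN X Y) F hN⟩
  · have h1 := cfc_re hX hY hc
    rw [cfc_apply (fun z : ℂ => (z.re : ℂ)) (NN X Y) hN
      (Complex.continuous_ofReal.comp Complex.continuous_re).continuousOn] at h1
    exact h1
  · have h1 := cfc_im hX hY hc
    rw [cfc_apply (fun z : ℂ => (z.im : ℂ)) (NN X Y) hN
      (Complex.continuous_ofReal.comp Complex.continuous_im).continuousOn] at h1
    exact h1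

/-- evaluation at a point -/
noncomputable def evh {σ : Set ℂ} (z : σ) : C(σ, ℂ) →ₐ[ℂ] ℂ where
  toFun F := F z
  map_one' := rfl
  map_mul' _ _ := rfl
  map_zero' := rfl
  map_add' _ _ := rfl
  commutes' _ := rfl

/-- `k(X, Y)` -/
theorem kk_spec {X Y : H →L[ℂ] H} (hX : IsSelfAdjoint X) (hY : IsSelfAdjoint Y)
    (hc : X * Y = Y * X) (f : MvPolynomial (Fin 2) ℝ) (p : Polynomial ℝ) {K : ℝ} (hK : 0 ≤ K)
    (h : ∀ z ∈ spectrum ℂ (NN X Y), |kr f z.re z.im (p.eval z.re)| ≤ K) :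
    IsSelfAdjoint (kk f X Y (ev X p)) ∧ ‖kk f X Y (ev X p)‖ ≤ K := by
  obtain ⟨ψ, h1, h2, h3⟩ := spec_rep hX hY hc
  set x : C(spectrum ℂ (NN X Y), ℂ) := ⟨fun z => ((z : ℂ).re : ℂ), by fun_prop⟩ with hx
  set y : C(spectrum ℂ (NN X Y), ℂ) := ⟨fun z => ((z : ℂ).im : ℂ), by fun_prop⟩ with hy
  have e1 : kk f X Y (ev X p) = ψ (kk f x y (ev x p)) := by
    have h4 := kk_map (ψ : C(spectrum ℂ (NN X Y), ℂ) →ₐ[ℂ] (H →L[ℂ] H)) f x y (ev x p)
    rw [ev_map] at h4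
    change ψ (kk f x y (ev x p)) = kk f (ψ x) (ψ y) (ev (ψ x) p) at h4
    rw [h4, h1, h2]
  have e2 : ∀ z : spectrum ℂ (NN X Y), kk f x y (ev x p) z =
      ((kr f (z : ℂ).re (z : ℂ).im (p.eval (z : ℂ).re) : ℝ) : ℂ) := by
    intro z
    have h4 := kk_map (evh z) f x y (ev x p)
    rw [ev_map] at h4
    change kk f x y (ev x p) z = kk f ((z : ℂ).re : ℂ) ((z : ℂ).im : ℂ) (ev ((z : ℂ).re : ℂ) p) at h4
    rw [h4, ev_real, kk_real]
  rw [e1]
  constructor
  · rw [isSelfAdjoint_iff, ← map_star]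
    congr 1
    ext z
    rw [ContinuousMap.star_apply, e2]
    simp
  · rw [h3, ContinuousMap.norm_le _ hK]
    intro z
    rw [e2, Complex.norm_real, Real.norm_eq_abs]
    exact h z z.2

/-- `W = p(X)` and `Y - W` -/
theorem W_spec {X Y : H →L[ℂ] H} (hX : IsSelfAdjoint X) (hY : IsSelfAdjoint Y)
    (hc : X * Y = Y * X) (p : Polynomial ℝ) :
    (∀ b : ℝ, 0 ≤ b → (∀ z ∈ spectrum ℂ (NN X Y), |p.eval z.re| ≤ b) → ‖ev X p‖ ≤ b) ∧
    (∀ b : ℝ, 0 ≤ b → (∀ z ∈ spectrum ℂ (NN X Y), |z.im - p.eval z.re| ≤ b) →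
      ‖Y - ev X p‖ ≤ b) := by
  obtain ⟨ψ, h1, h2, h3⟩ := spec_rep hX hY hc
  set x : C(spectrum ℂ (NN X Y), ℂ) := ⟨fun z => ((z : ℂ).re : ℂ), by fun_prop⟩ with hx
  set y : C(spectrum ℂ (NN X Y), ℂ) := ⟨fun z => ((z : ℂ).im : ℂ), by fun_prop⟩ with hy
  have e1 : ev X p = ψ (ev x p) := by
    have h4 := ev_map (ψ : C(spectrum ℂ (NN X Y), ℂ) →ₐ[ℂ] (H →L[ℂ] H)) x p
    change ψ (ev x p) = ev (ψ x) p at h4
    rw [h4, h1]
  have e2 : ∀ z : spectrum ℂ (NN X Y), ev x p z = ((p.eval (z : ℂ).re : ℝ) : ℂ) := by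
    intro z
    have h4 := ev_map (evh z) x p
    change ev x p z = ev ((z : ℂ).re : ℂ) p at h4
    rw [h4, ev_real]
  refine ⟨fun b hb h => ?_, fun b hb h => ?_⟩
  · rw [e1, h3, ContinuousMap.norm_le _ hb]
    intro z
    rw [e2, Complex.norm_real, Real.norm_eq_abs]
    exact h z z.2
  · rw [e1]
    nth_rewrite 1 [← h2]
    rw [← map_sub, h3, ContinuousMap.norm_le _ hb]
    intro z
    have h5 : (y - ev x p) z = (((z : ℂ).im - p.eval (z : ℂ).re : ℝ) : ℂ) := by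
      rw [ContinuousMap.sub_apply, e2]
      push_cast
      rfl
    rw [h5, Complex.norm_real, Real.norm_eq_abs]
    exact h z z.2

end spec

end OFAux

end Pool.LG
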