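import Pool.Agent.Work.LipGraph.Op.OF

/-!
# Final part A: from a bound for polynomials to the trace formula; rotation; series
-/

open Matrix MeasureTheory Filter
open scoped ComplexOrder InnerProductSpace

namespace Pool.LG

open Pool.PN Pool.FR Pool.FR.FAux ODAux OFAux

universe v

namespace OGAux

variable {H : Type v} [NormedAddCommGroup H] [InnerProductSpace ℂ H] [CompleteSpace H]

/-- bound for polynomials with Lipschitz constant `K` on a large ball -/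
def PolBd (N₁ N₂ : H →L[ℂ] H) (m : ℝ) : Prop :=
  ∃ R : ℝ, 0 ≤ R ∧ ∀ (p : MvPolynomial (Fin 2) ℝ) (K : NNReal),
    LipschitzOnWith K (fun z : ℂ => MvPolynomial.eval ![z.re, z.im] p) (Metric.closedBall 0 R) →
    ∀ δ > 0, ∃ (N : ℝ) (τ : (H →L[ℂ] H) →ₗ[ℂ] ℂ), Nuc (Q p N₂ - Q p N₁) N τ ∧ ‖τ 1‖ ≤ m * K + δ

/-- from the bound to the trace formula -/
theorem main {N₁ N₂ : H →L[ℂ] H} (h₁ : IsStarNormal N₁) (h₂ : IsStarNormal N₂) {M m : ℝ}
    {τ : (H →L[ℂ] H) →ₗ[ℂ] ℂ} (hD : Nuc (N₂ - N₁) M τ) (hm : 0 ≤ m) (hb : PolBd N₁ N₂ m) :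
    ∃ μ : Fin 4 → Measure ℂ, (∀ i, IsFiniteMeasure (μ i)) ∧
      (∀ i, (μ i Set.univ).toReal ≤ m) ∧
      ∀ f : ℂ → ℂ, ContDiff ℝ (⊤ : ℕ∞) f → HasCompactSupport f →
        HasTr (cfc f N₂ - cfc f N₁)
          ((∫ z : ℂ, fderiv ℝ f z 1 ∂(μ 0)) - (∫ z : ℂ, fderiv ℝ f z 1 ∂(μ 1)) +
            (∫ z : ℂ, fderiv ℝ f z Complex.I ∂(μ 2)) -
            (∫ z : ℂ, fderiv ℝ f z Complex.I ∂(μ 3))) := by
  by_cases hbas : ∃ (ι : Type) (_ : Countable ι) (_ : HilbertBasis ι ℂ H), True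
  swap
  · refine ⟨fun _ => 0, fun i => inferInstance, fun i => by simpa using hm, ?_⟩
    intro f _ _ ι hι e
    exact (hbas ⟨ι, hι, e, trivial⟩).elim
  obtain ⟨ι, hι, e, -⟩ := hbas
  obtain ⟨R, hR0, hR⟩ := hb
  set R' : ℝ := ‖N₁‖ + ‖N₂‖ + 1 with hR'
  have n1 : ‖N₁‖ ≤ R' := by rw [hR']; linarith [norm_nonneg N₂]
  have n2 : ‖N₂‖ ≤ R' := by rw [hR']; linarith [norm_nonneg N₁]
  have hR1 : 1 ≤ R' := by rw [hR']; linarith [norm_nonneg N₁, norm_nonneg N₂]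
  have h1' : Nuc (NN (rp N₂) (ip N₂) - NN (rp N₁) (ip N₁)) M τ := by
    rw [NN_rp, NN_rp]; exact hD
  obtain ⟨⟨τA, hA⟩, ⟨τB, hB⟩⟩ := parts (rp_sa N₁) (ip_sa N₁) (rp_sa N₂) (ip_sa N₂) h1'
  choose c hc1 hc2 using fun k l : ℕ => mono_nuc hA hB (rp_comm h₁)
    ((norm_rp _).trans n1) ((norm_rp _).trans n2) ((norm_ip _).trans n1) ((norm_ip _).trans n2)
    hR1 k l
  have hsa : ∀ {N : H →L[ℂ] H}, IsStarNormal N → ∀ k l : ℕ,
      IsSelfAdjoint (rp N ^ k * ip N ^ l) := by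
    intro N hN k l
    have hcom : Commute (rp N) (ip N) := rp_comm hN
    rw [IsSelfAdjoint, star_mul, star_pow, star_pow, (rp_sa N).star_eq, (ip_sa N).star_eq,
      ((hcom.pow_right l).pow_left k).eq]
  have hreal : ∀ k l, ((c k l).re : ℂ) = c k l := fun k l =>
    HasTr.real (hc1 k l) ((hsa h₂ k l).sub (hsa h₁ k l)) e
  obtain ⟨μ, hμ1, hμ2, hμ3, hμ4⟩ := stmt_R R m (fun k l => (c k l).re) hR0 hm
    (fun p K hp => by
      have h2 : HasTr (Q p N₂ - Q p N₁) (∑ m ∈ p.support,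
          ((p.coeff m : ℝ) : ℂ) * c (m 0) (m 1)) := by
        have e1 : Q p N₂ - Q p N₁ = ∑ m ∈ p.support, ((p.coeff m : ℝ) : ℂ) •
            (rp N₂ ^ (m 0) * ip N₂ ^ (m 1) - rp N₁ ^ (m 0) * ip N₁ ^ (m 1)) := by
          unfold Q
          rw [← Finset.sum_sub_distrib]
          exact Finset.sum_congr rfl fun m _ => (smul_sub _ _ _).symm
        rw [e1]
        refine HasTr.finsum _ fun m _ => ?_
        intro ι' _ e'
        refine ((hc1 (m 0) (m 1) ι' e').mul_left ((p.coeff m : ℝ) : ℂ)).congr_fun ?_ |> id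
        intro i
        rw [_root_.smul_apply, inner_smul_right]
      have h3 : ∀ δ > 0, ‖(∑ m ∈ p.support, ((p.coeff m : ℝ) : ℂ) * c (m 0) (m 1))‖ ≤
          m * K + δ := by
        intro δ hδ
        obtain ⟨N, σ, hn, hσ⟩ := hR p K hp δ hδ
        have h4 := hn.tr ι e 1 1
        rw [one_mul] at h4
        have h5 : HasSum (fun i => inner ℂ (e i) ((Q p N₂ - Q p N₁) (e i))) (σ 1) := h4
        rw [(h2 ι e).unique h5]
        exact hσ
      have h3' := le_of_forall_pos_le_add h3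
      have h4 : (∑ m ∈ p.support, ((p.coeff m : ℝ) : ℂ) * c (m 0) (m 1)) =
          ((∑ m ∈ p.support, p.coeff m * (c (m 0) (m 1)).re : ℝ) : ℂ) := by
        push_cast
        exact Finset.sum_congr rfl fun m _ => by rw [hreal]
      rw [h4, Complex.norm_real, Real.norm_eq_abs] at h3'
      exact h3')
  refine ⟨μ, hμ1, hμ3, ?_⟩
  have h5 := smooth (rp_sa N₁) (ip_sa N₁) (rp_sa N₂) (ip_sa N₂)
    (rp_comm h₁) (rp_comm h₂) (fun ι' e' he' => ⟨M, R',
      rp_sa N₁, ip_sa N₁, rp_sa N₂, ip_sa N₂, rp_comm h₁,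
      rp_comm h₂, hD.nonneg, hR1, (norm_rp _).trans n1, (norm_ip _).trans n1,
      (norm_rp _).trans n2, (norm_ip _).trans n2, hA.tb ι' e' he', hB.tb ι' e' he'⟩)
    R μ hμ1 hμ2 (fun k k' => by
      rw [← hμ4 k k', hreal]
      exact hc1 k k')
  have e0 := NN_rp N₁
  have e1 := NN_rp N₂
  unfold NN at e0 e1
  rw [e0, e1] at h5
  exact h5

/-- the polynomial in rotated coordinates: `p_u(z) = p(ū z)` -/
noncomputable def rot (u : ℂ) (p : MvPolynomial (Fin 2) ℝ) : MvPolynomial (Fin 2) ℝ :=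
  MvPolynomial.bind₁ ![MvPolynomial.C u.re * MvPolynomial.X 0 + MvPolynomial.C u.im *
    MvPolynomial.X 1, MvPolynomial.C (-u.im) * MvPolynomial.X 0 + MvPolynomial.C u.re *
    MvPolynomial.X 1] p

theorem eval_rot (u : ℂ) (p : MvPolynomial (Fin 2) ℝ) (z : ℂ) :
    MvPolynomial.eval ![z.re, z.im] (rot u p) =
      MvPolynomial.eval ![((starRingEnd ℂ) u * z).re, ((starRingEnd ℂ) u * z).im] p := by
  unfold rot
  rw [MvPolynomial.eval, MvPolynomial.eval₂Hom_bind₁]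
  congr 1
  congr 1
  funext i
  fin_cases i <;> simp <;> ring

theorem Q_cfc {N : H →L[ℂ] H} (hN : IsStarNormal N) (p : MvPolynomial (Fin 2) ℝ) :
    Q p N = cfc (fun z : ℂ => ((MvPolynomial.eval ![z.re, z.im] p : ℝ) : ℂ)) N := by
  have c1 : Continuous fun z : ℂ => (z.re : ℂ) :=
    Complex.continuous_ofReal.comp Complex.continuous_re
  have c2 : Continuous fun z : ℂ => (z.im : ℂ) :=
    Complex.continuous_ofReal.comp Complex.continuous_im
  have h1 : (fun z : ℂ => ((MvPolynomial.eval ![z.re, z.im] p : ℝ) : ℂ)) =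
      ∑ m ∈ p.support, fun z : ℂ =>
        ((p.coeff m : ℝ) : ℂ) * ((z.re : ℂ) ^ (m 0) * (z.im : ℂ) ^ (m 1)) := by
    funext z
    rw [Finset.sum_apply, eval_two]
    push_cast
    rfl
  have := normal (rp_sa N) (ip_sa N) (rp_comm hN)
  conv_rhs => rw [← NN_rp N]
  rw [h1, cfc_sum (R := ℂ) (fun (m : Fin 2 →₀ ℕ) (z : ℂ) =>
      ((p.coeff m : ℝ) : ℂ) * ((z.re : ℂ) ^ (m 0) * (z.im : ℂ) ^ (m 1)))
    (NN (rp N) (ip N)) p.support (fun m _ =>
    (continuous_const.mul ((c1.pow _).mul (c2.pow _))).continuousOn), Q]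
  exact Finset.sum_congr rfl fun m _ => (cfc_mono (rp_sa N) (ip_sa N) (rp_comm hN) _ _ _).symm

theorem Q_rot {N : H →L[ℂ] H} (hN : IsStarNormal N) {u : ℂ} (hu : ‖u‖ = 1)
    (p : MvPolynomial (Fin 2) ℝ) : Q (rot u p) (u • N) = Q p N := by
  have hN' : IsStarNormal (u • N) := by
    rw [isStarNormal_iff, star_smul]
    exact ((isStarNormal_iff N).1 hN).smul_left _ |>.smul_right _
  rw [Q_cfc hN', Q_cfc hN]
  have hc : Continuous fun z : ℂ => ((MvPolynomial.eval ![z.re, z.im] p : ℝ) : ℂ) := by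
    have : (fun z : ℂ => ((MvPolynomial.eval ![z.re, z.im] p : ℝ) : ℂ)) =
      fun z : ℂ => ((∑ m ∈ p.support, p.coeff m * (z.re ^ (m 0) * z.im ^ (m 1)) : ℝ) : ℂ) := by
      funext z; rw [eval_two]
    rw [this]
    fun_prop
  have h1 : (fun z : ℂ => ((MvPolynomial.eval ![z.re, z.im] (rot u p) : ℝ) : ℂ)) =
      fun z : ℂ => (fun z : ℂ => ((MvPolynomial.eval ![z.re, z.im] p : ℝ) : ℂ))
        ((starRingEnd ℂ) u * z) := by
    funext z
    simp only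
    rw [eval_rot]
  rw [h1, cfc_comp_const_mul ((starRingEnd ℂ) u)
    (fun z : ℂ => ((MvPolynomial.eval ![z.re, z.im] p : ℝ) : ℂ)) (u • N) hc.continuousOn hN']
  congr 1
  rw [smul_smul, Complex.conj_mul', hu]
  simp

/-- the bound is invariant under rotations -/
theorem PolBd.rot {N₁ N₂ : H →L[ℂ] H} (h₁ : IsStarNormal N₁) (h₂ : IsStarNormal N₂) {m : ℝ}
    {u : ℂ} (hu : ‖u‖ = 1) (h : PolBd (u • N₁) (u • N₂) m) : PolBd N₁ N₂ m := by
  obtain ⟨R, hR0, hR⟩ := h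
  refine ⟨R, hR0, fun p K hp δ hδ => ?_⟩
  have h1 : LipschitzOnWith K (fun z : ℂ => MvPolynomial.eval ![z.re, z.im] (OGAux.rot u p))
      (Metric.closedBall 0 R) := by
    intro z hz w hw
    simp only [eval_rot]
    have hmem : ∀ z : ℂ, z ∈ Metric.closedBall (0 : ℂ) R →
        (starRingEnd ℂ) u * z ∈ Metric.closedBall (0 : ℂ) R := by
      intro z hz
      rw [mem_closedBall_zero_iff] at hz ⊢
      rw [norm_mul, RCLike.norm_conj, hu, one_mul]
      exact hz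
    have h2 := hp (hmem z hz) (hmem w hw)
    refine h2.trans (le_of_eq ?_)
    congr 1
    rw [edist_dist, edist_dist, dist_eq_norm, dist_eq_norm, ← mul_sub, norm_mul, RCLike.norm_conj,
      hu, one_mul]
  obtain ⟨N, τ, h2, h3⟩ := hR (OGAux.rot u p) K h1 δ hδ
  rw [Q_rot h₂ hu, Q_rot h₁ hu] at h2
  exact ⟨N, τ, h2, h3⟩

end OGAux

end Pool.LG
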